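import Pool.Agent.MP_6a4325_al.H62.Base2
import Pool.Agent.MP_6a4325_al.H41.SpecRow

/-!
Specialisation of finite dimensional solutions to finite fields.
-/

set_option autoImplicit false

namespace Pool.Agent.MP_6a4325_al.H62

open Matrix

theorem exists_algHom_kp (p : ℕ) [Fact p.Prime] (R : Type) [CommRing R] [Algebra (ZMod p) R]
    [Nontrivial R] [Algebra.FiniteType (ZMod p) R] :
    ∃ φ : R →ₐ[ZMod p] Kp p, (Set.range φ).Finite := by
  obtain ⟨m, hm⟩ := Ideal.exists_maximal R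
  let := Ideal.Quotient.field m
  have := finite_of_finite_type_of_isJacobsonRing (ZMod p) (R ⧸ m)
  have : Finite (R ⧸ m) := Module.finite_of_finite (ZMod p)
  let l : (R ⧸ m) →ₐ[ZMod p] Kp p := IsAlgClosed.lift
  exact ⟨l.comp (Ideal.Quotient.mkₐ (ZMod p) m),
    (Set.finite_range l).subset fun _ ⟨x, hx⟩ => ⟨_, hx⟩⟩

theorem lift_map2 {F G R K : Type} [Field F] [Group G] [CommRing R] [CommRing K] [Algebra F R]
    [Algebra F K]
    {n : ℕ} (f : R →ₐ[F] K) (ρ₀ : G →* Matrix (Fin n) (Fin n) R)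
    (ρ : G →* Matrix (Fin n) (Fin n) K) (h : ∀ g, (ρ₀ g).map f = ρ g) (x : MonoidAlgebra F G) :
    (MonoidAlgebra.lift F (Matrix (Fin n) (Fin n) R) G ρ₀ x).map f =
      MonoidAlgebra.lift F (Matrix (Fin n) (Fin n) K) G ρ x := by
  change f.mapMatrix (MonoidAlgebra.lift F (Matrix (Fin n) (Fin n) R) G ρ₀ x) = _
  induction x using MonoidAlgebra.induction_linear with
  | zero => rw [map_zero, map_zero, map_zero]
  | add x y hx hy => rw [map_add, map_add, map_add, hx, hy]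
  | single g c =>
    rw [MonoidAlgebra.lift_single, MonoidAlgebra.lift_single, map_smul, ← h g]
    rfl

theorem sum_map2 {F G R K : Type} [Field F] [Group G] [CommRing R] [CommRing K] [Algebra F R]
    [Algebra F K]
    {n m : ℕ} (f : R →ₐ[F] K) (ρ₀ : G →* Matrix (Fin n) (Fin n) R)
    (ρ : G →* Matrix (Fin n) (Fin n) K) (h : ∀ g, (ρ₀ g).map f = ρ g)
    (v₀ : Fin m → Fin n → R) (x : Fin m → MonoidAlgebra F G) (j : Fin n) :
    (∑ i, MonoidAlgebra.lift F (Matrix (Fin n) (Fin n) K) G ρ (x i) *ᵥ (fun j => f (v₀ i j))) j =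
      f ((∑ i, MonoidAlgebra.lift F (Matrix (Fin n) (Fin n) R) G ρ₀ (x i) *ᵥ v₀ i) j) := by
  rw [Finset.sum_apply, Finset.sum_apply, map_sum]
  refine Finset.sum_congr rfl fun i _ => ?_
  rw [← lift_map2 f ρ₀ ρ h]
  exact (RingHom.map_mulVec (f : R →+* K) _ (v₀ i) j).symm

theorem specF : SSpecF := by
  intro p _ G _ hG K _ _ n m ρ v hv
  obtain ⟨S, hS, hSf⟩ := Monoid.fg_iff.mp (Group.fg_iff_monoid_fg.mp hG)
  obtain ⟨i₀, hi₀⟩ := Function.ne_iff.mp hv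
  obtain ⟨j₀, hj₀⟩ := Function.ne_iff.mp hi₀
  have hj₀' : v i₀ j₀ ≠ 0 := hj₀
  let E : Set K := ((fun p : G × Fin n × Fin n => ρ p.1 p.2.1 p.2.2) '' (S ×ˢ Set.univ)) ∪
    (Set.range (fun p : Fin m × Fin n => v p.1 p.2) ∪ {(v i₀ j₀)⁻¹})
  have hE : E.Finite :=
    ((hSf.prod Set.finite_univ).image _).union ((Set.finite_range _).union (Set.finite_singleton _))
  let R₀ : Subalgebra (ZMod p) K := Algebra.adjoin (ZMod p) E
  have hft : Algebra.FiniteType (ZMod p) R₀ :=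
    (Subalgebra.fg_iff_finiteType R₀).mp (Subalgebra.fg_def.mpr ⟨E, hE, rfl⟩)
  obtain ⟨φ, hφ⟩ := exists_algHom_kp p R₀
  have hρ : ∀ g i j, ρ g i j ∈ R₀ := fun g =>
    H41.entries_mem ρ S hS R₀.toSubring (fun s hs i j =>
      Algebra.subset_adjoin (Or.inl ⟨(s, i, j), ⟨hs, trivial⟩, rfl⟩)) g
  have hvm : ∀ i j, v i j ∈ R₀ := fun i j =>
    Algebra.subset_adjoin (Or.inr (Or.inl ⟨(i, j), rfl⟩))
  have hinv : (v i₀ j₀)⁻¹ ∈ R₀ := Algebra.subset_adjoin (Or.inr (Or.inr rfl))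
  let r₀ : G → Matrix (Fin n) (Fin n) R₀ := fun g => Matrix.of fun i j => ⟨ρ g i j, hρ g i j⟩
  have hr₀ : ∀ g, R₀.val.mapMatrix (r₀ g) = ρ g := fun g => rfl
  have hinj : Function.Injective
      (R₀.val.mapMatrix : Matrix (Fin n) (Fin n) R₀ →ₐ[ZMod p] Matrix (Fin n) (Fin n) K) :=
    Matrix.map_injective Subtype.val_injective
  let ρ₀ : G →* Matrix (Fin n) (Fin n) R₀ :=
    { toFun := r₀
      map_one' := hinj (by rw [hr₀, map_one, map_one])
      map_mul' := fun a b => hinj (by rw [hr₀, map_mul, map_mul, hr₀, hr₀]) }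
  let v₀ : Fin m → Fin n → R₀ := fun i j => ⟨v i j, hvm i j⟩
  let ρ' : G →* Matrix (Fin n) (Fin n) (Kp p) :=
    (φ.mapMatrix : Matrix (Fin n) (Fin n) R₀ →ₐ[ZMod p] Matrix (Fin n) (Fin n) (Kp p)).toMonoidHom.comp ρ₀
  refine ⟨ρ', fun i j => φ (v₀ i j), ?_, ?_, fun x hx => ?_⟩
  · intro h0
    have h1 : φ (v₀ i₀ j₀) = 0 := congrFun (congrFun h0 i₀) j₀
    have h2 : v₀ i₀ j₀ * ⟨_, hinv⟩ = 1 := Subtype.ext (mul_inv_cancel₀ hj₀')
    have h3 := congrArg φ h2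
    rw [map_mul, h1, zero_mul, map_one] at h3
    exact zero_ne_one h3
  · refine (Set.Finite.pi' fun _ : Fin n => Set.Finite.pi' fun _ : Fin n => hφ).subset ?_
    rintro _ ⟨g, rfl⟩ i j
    exact ⟨ρ₀ g i j, rfl⟩
  · funext j
    have h1 := sum_map2 R₀.val ρ₀ ρ (fun g => rfl) v₀ x j
    have h2 := sum_map2 φ ρ₀ ρ' (fun g => rfl) v₀ x j
    have h3 : (∑ i, MonoidAlgebra.lift (ZMod p) (Matrix (Fin n) (Fin n) R₀) G ρ₀ (x i) *ᵥ v₀ i) j = 0 := by
      apply Subtype.val_injective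
      exact h1.symm.trans (congrFun hx j)
    rw [h3, map_zero] at h2
    exact h2

end Pool.Agent.MP_6a4325_al.H62
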