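import Pool.Agent.MP_6a4325_al.H62.Base

/-!
A homomorphism of free modules over the group algebra of a non amenable group that doubles
supports.
-/

set_option autoImplicit false

namespace Pool.Agent.MP_6a4325_al.H62

open Finset

section Count

open Classical in
theorem count_triples {G S Y : Type} [Group G] [Fintype S] [Fintype Y] (c : S → G)
    (X : S → Set Y) (C D : ℕ)
    (hX : ∀ I : Finset S, ∀ s ∈ I, Fintype.card Y ≤
      C * I.card * Set.ncard {y : Y | y ∈ X s ∧ ∀ t ∈ I, t ≠ s → y ∉ X t})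
    (Ψ O E : Finset G) (Z : G → S × Y → Prop)
    (hZ : ∀ f ∈ Ψ, (univ.filter fun p : S × Y => ¬ Z f p).card ≤ D)
    (hO : ∀ g s y, g * c s ∈ Ψ → y ∈ X s → (∀ t, g * c t ∈ Ψ → t ≠ s → y ∉ X t) →
      Z (g * c s) (s, y) → g ∈ O)
    (hE : ∀ g ∈ E, ∃ s, g * c s ∈ Ψ) :
    E.card * Fintype.card Y ≤ C * (Ψ.card * D + O.card * Fintype.card Y) := by
  let P : G → S × Y → Prop := fun g p =>
    g * c p.1 ∈ Ψ ∧ p.2 ∈ X p.1 ∧ ∀ t, g * c t ∈ Ψ → t ≠ p.1 → p.2 ∉ X t
  let Tr : Finset (G × (S × Y)) := (E ×ˢ univ).filter fun q => P q.1 q.2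
  have h1 : ∀ g ∈ E, Fintype.card Y ≤ C * (univ.filter fun p : S × Y => P g p).card := by
    intro g hg
    let I : Finset S := univ.filter fun s => g * c s ∈ Ψ
    have hI : 0 < I.card := by
      obtain ⟨s, hs⟩ := hE g hg
      exact Finset.card_pos.mpr ⟨s, by simp [I, hs]⟩
    have h2 : (univ.filter fun p : S × Y => P g p).card =
        ∑ s ∈ I, Set.ncard {y : Y | y ∈ X s ∧ ∀ t ∈ I, t ≠ s → y ∉ X t} := by
      rw [Finset.card_eq_sum_card_fiberwise (f := Prod.fst) (t := I)
        (fun p hp => by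
          have := (Finset.mem_filter.mp (Finset.mem_coe.mp hp)).2.1
          simpa [I] using this)]
      refine Finset.sum_congr rfl fun s hs => ?_
      have hs' : g * c s ∈ Ψ := by simpa [I] using hs
      rw [← Set.ncard_coe_finset,
        ← Set.ncard_image_of_injective {y : Y | y ∈ X s ∧ ∀ t ∈ I, t ≠ s → y ∉ X t}
          (Prod.mk_right_injective s)]
      congr 1
      ext ⟨s', y⟩
      simp only [Finset.coe_filter, Finset.mem_filter, Finset.mem_univ, true_and,
        Set.mem_ofPred_eq, Set.mem_image, Prod.mk.injEq, P, I]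
      constructor
      · rintro ⟨⟨-, h3, h4⟩, rfl⟩
        exact ⟨y, ⟨h3, h4⟩, rfl, rfl⟩
      · rintro ⟨y', ⟨h3, h4⟩, rfl, rfl⟩
        exact ⟨⟨hs', h3, h4⟩, rfl⟩
    have h3 : ∑ s ∈ I, Fintype.card Y ≤ ∑ s ∈ I,
        C * I.card * Set.ncard {y : Y | y ∈ X s ∧ ∀ t ∈ I, t ≠ s → y ∉ X t} :=
      Finset.sum_le_sum fun s hs => hX I s hs
    rw [Finset.sum_const, smul_eq_mul, ← Finset.mul_sum, ← h2] at h3
    apply Nat.le_of_mul_le_mul_left _ hI
    calc I.card * Fintype.card Y ≤ _ := h3
      _ = _ := by ring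
  have h2 : Tr.card = ∑ g ∈ E, (univ.filter fun p : S × Y => P g p).card := by
    rw [Finset.card_eq_sum_card_fiberwise (f := Prod.fst) (t := E)
      (fun q hq => by
        have := (Finset.mem_filter.mp (Finset.mem_coe.mp hq)).1
        exact (Finset.mem_product.mp this).1)]
    refine Finset.sum_congr rfl fun g hg => ?_
    rw [← Finset.card_image_of_injective (univ.filter fun p : S × Y => P g p)
      (Prod.mk_right_injective g)]
    refine congrArg Finset.card ?_
    ext ⟨g', p⟩
    simp only [Tr, Finset.mem_filter, Finset.mem_product, Finset.mem_univ, and_true, true_and,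
      Finset.mem_image, Prod.mk.injEq]
    constructor
    · rintro ⟨⟨-, h3⟩, rfl⟩
      exact ⟨p, h3, rfl, rfl⟩
    · rintro ⟨p', h3, rfl, rfl⟩
      exact ⟨⟨hg, h3⟩, rfl⟩
  have h3 : E.card * Fintype.card Y ≤ C * Tr.card := by
    rw [h2, Finset.mul_sum, ← smul_eq_mul, ← Finset.sum_const]
    exact Finset.sum_le_sum h1
  have h4 : (Tr.filter fun q => Z (q.1 * c q.2.1) q.2).card ≤ O.card * Fintype.card Y := by
    rw [← Finset.card_univ, ← Finset.card_product]
    refine Finset.card_le_card_of_injOn (fun q => (q.1, q.2.2)) ?_ ?_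
    · intro q hq
      obtain ⟨hq1, hq2⟩ := Finset.mem_filter.mp (Finset.mem_coe.mp hq)
      obtain ⟨h5, h6, h7⟩ := (Finset.mem_filter.mp hq1).2
      exact Finset.mem_coe.mpr (Finset.mem_product.mpr
        ⟨hO q.1 q.2.1 q.2.2 h5 h6 h7 hq2, Finset.mem_univ _⟩)
    · rintro ⟨g, s, y⟩ hq ⟨g', s', y'⟩ hq' he
      obtain ⟨rfl, rfl⟩ := Prod.mk.inj he
      obtain ⟨h5, h6, -⟩ :=
        (Finset.mem_filter.mp (Finset.mem_filter.mp (Finset.mem_coe.mp hq)).1).2
      obtain ⟨-, -, h7⟩ :=
        (Finset.mem_filter.mp (Finset.mem_filter.mp (Finset.mem_coe.mp hq')).1).2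
      by_cases hs : s = s'
      · rw [hs]
      · exact absurd h6 (h7 s h5 hs)
  have h5 : (Tr.filter fun q => ¬ Z (q.1 * c q.2.1) q.2).card ≤ Ψ.card * D := by
    have h6 : ((Ψ ×ˢ (univ : Finset (S × Y))).filter fun q => ¬ Z q.1 q.2).card ≤ Ψ.card * D := by
      refine Finset.card_le_mul_card_image_of_maps_to (f := Prod.fst) (t := Ψ) (fun q hq =>
        (Finset.mem_product.mp (Finset.mem_filter.mp hq).1).1) D (fun f hf => ?_) |>.trans
        (le_of_eq (mul_comm _ _))
      refine le_trans (Finset.card_le_card_of_injOn Prod.snd ?_ ?_) (hZ f hf)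
      · intro q hq
        obtain ⟨hq1, hq2⟩ := Finset.mem_filter.mp (Finset.mem_coe.mp hq)
        refine Finset.mem_coe.mpr (Finset.mem_filter.mpr ⟨Finset.mem_univ _, ?_⟩)
        rw [← hq2]
        exact (Finset.mem_filter.mp hq1).2
      · intro q hq q' hq' he
        exact Prod.ext ((Finset.mem_filter.mp (Finset.mem_coe.mp hq)).2.trans
          (Finset.mem_filter.mp (Finset.mem_coe.mp hq')).2.symm) he
    refine le_trans (Finset.card_le_card_of_injOn (fun q => (q.1 * c q.2.1, q.2)) ?_ ?_) h6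
    · intro q hq
      obtain ⟨hq1, hq2⟩ := Finset.mem_filter.mp (Finset.mem_coe.mp hq)
      exact Finset.mem_coe.mpr (Finset.mem_filter.mpr ⟨Finset.mem_product.mpr
        ⟨(Finset.mem_filter.mp hq1).2.1, Finset.mem_univ _⟩, hq2⟩)
    · rintro ⟨g, p⟩ - ⟨g', p'⟩ - he
      obtain ⟨h7, rfl⟩ := Prod.mk.inj he
      exact Prod.ext (mul_right_cancel h7) rfl
  have h6 := Finset.card_filter_add_card_filter_not (s := Tr) fun q => Z (q.1 * c q.2.1) q.2
  exact h3.trans (Nat.mul_le_mul_left C (by omega))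

end Count

section Conv

variable {F G : Type} [Field F] [Group G] {m : ℕ}

/-- the vector of coefficients at a group element -/
def cf (z : Fin m → MonoidAlgebra F G) (g : G) : Fin m → F := fun i => (z i).coeff g

theorem exists_conv {S : Type} [Fintype S] (c : S → G) (T : S → (Fin m → F) →ₗ[F] (Fin m → F)) :
    ∃ u : Module.End (MonoidAlgebra F G) (Fin m → MonoidAlgebra F G),
      ∀ z g, cf (u z) g = ∑ s, T s (cf z (g * c s)) := by
  classical
  refine ⟨LinearMap.pi fun i => ∑ s, ∑ j,
    LinearMap.toSpanSingleton (MonoidAlgebra F G) (MonoidAlgebra F G)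
      (MonoidAlgebra.single (c s)⁻¹ (LinearMap.toMatrix' (T s) i j)) ∘ₗ LinearMap.proj j, ?_⟩
  intro z g
  funext i
  simp only [cf, LinearMap.pi_apply, LinearMap.sum_apply, LinearMap.comp_apply,
    LinearMap.proj_apply, LinearMap.toSpanSingleton_apply, smul_eq_mul, MonoidAlgebra.coeff_sum,
    Finsupp.finsetSum_apply, MonoidAlgebra.coeff_mul_single_apply, inv_inv, Finset.sum_apply]
  refine Finset.sum_congr rfl fun s _ => ?_
  rw [← LinearMap.toMatrix'_mulVec]
  exact Finset.sum_congr rfl fun j _ => mul_comm _ _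

omit [Group G] in
theorem finite_cf (z : Fin m → MonoidAlgebra F G) : {g : G | cf z g ≠ 0}.Finite := by
  refine (Set.finite_iUnion fun i => (z i).coeff.support.finite_toSet).subset fun g hg => ?_
  obtain ⟨i, hi⟩ := Function.ne_iff.mp hg
  exact Set.mem_iUnion.mpr ⟨i, Finsupp.mem_support_iff.mpr hi⟩

omit [Group G] in
theorem sz_eq (z : Fin m → MonoidAlgebra F G) : sz z = Set.ncard {g : G | cf z g ≠ 0} := by
  unfold sz
  refine congrArg Set.ncard (Set.ext fun g => ?_)
  exact (Function.ne_iff (f₁ := cf z g) (f₂ := 0)).symm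

end Conv

section Points

theorem exists_points (F ι : Type) [Field F] [Finite ι] :
    ∃ (K : Type) (_ : Field K) (_ : Algebra F K) (_ : FiniteDimensional F K) (τ : ι → K),
      Function.Injective τ := by
  obtain ⟨f, hf⟩ := Countable.exists_injective_nat ι
  let τ₀ : ι → AlgebraicClosure F := fun i => Infinite.natEmbedding _ (f i)
  have h0 : Function.Injective τ₀ := (Infinite.natEmbedding _).injective.comp hf
  have hfin : Finite (Set.range τ₀) := Set.finite_range τ₀
  refine ⟨IntermediateField.adjoin F (Set.range τ₀), inferInstance, inferInstance,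
    IntermediateField.finiteDimensional_adjoin fun x _ => Algebra.IsIntegral.isIntegral x,
    fun i => ⟨τ₀ i, IntermediateField.subset_adjoin _ _ ⟨i, rfl⟩⟩, fun i j h => h0 ?_⟩
  exact congrArg Subtype.val h

theorem card_roots_le {K ι : Type} [Field K] [Fintype ι] (τ : ι → K) (hτ : Function.Injective τ)
    {N : ℕ} (a a' : Fin N → K) (h : ¬ (a = 0 ∧ a' = 0)) [DecidableEq K] :
    (univ.filter fun p => ∑ j, a j * τ p ^ (j : ℕ) + ∑ j, a' j * τ p ^ (N + j) = 0).card ≤
      2 * N := by
  let b : Fin (N + N) → K := Fin.append a a'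
  have hb : b ≠ 0 := by
    intro hb
    refine h ⟨funext fun j => ?_, funext fun j => ?_⟩
    · exact (Fin.append_left a a' j).symm.trans (congrFun hb (Fin.castAdd N j))
    · exact (Fin.append_right a a' j).symm.trans (congrFun hb (Fin.natAdd N j))
  let P : Polynomial K := (Polynomial.degreeLTEquiv K (N + N)).symm b
  have hP0 : P ≠ 0 := by
    intro h0
    apply hb
    have : (Polynomial.degreeLTEquiv K (N + N)).symm b = 0 := Subtype.ext h0
    exact (Polynomial.degreeLTEquiv K (N + N)).symm.map_eq_zero_iff.mp this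
  have hdeg : P.natDegree < N + N :=
    (Polynomial.natDegree_lt_iff_degree_lt hP0).mpr
      (Polynomial.mem_degreeLT.mp ((Polynomial.degreeLTEquiv K (N + N)).symm b).2)
  have hev : ∀ x, P.eval x = ∑ j, a j * x ^ (j : ℕ) + ∑ j, a' j * x ^ (N + j) := by
    intro x
    have := Polynomial.eval_eq_sum_degreeLTEquiv ((Polynomial.degreeLTEquiv K (N + N)).symm b).2 x
    rw [this]
    simp only [Subtype.coe_eta, LinearEquiv.apply_symm_apply, Fin.sum_univ_add, b,
      Fin.append_left, Fin.append_right, Fin.val_castAdd, Fin.val_natAdd]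
  have h1 : (univ.filter fun p => ∑ j, a j * τ p ^ (j : ℕ) + ∑ j, a' j * τ p ^ (N + j) = 0).card ≤
      P.roots.toFinset.card := by
    refine Finset.card_le_card_of_injOn τ (fun p hp => ?_) hτ.injOn
    have := (Finset.mem_filter.mp (Finset.mem_coe.mp hp)).2
    rw [Finset.mem_coe, Multiset.mem_toFinset, Polynomial.mem_roots hP0, Polynomial.IsRoot, hev]
    exact this
  have h2 := Multiset.toFinset_card_le P.roots
  have h3 := Polynomial.card_roots' P
  omega

end Points

/-- the evaluation functionals, cut off outside a set -/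
noncomputable def ev (F : Type) {K : Type} [Field F] [Field K] [Algebra F K] {N : ℕ}
    (X : Set (Fin N)) (τ : Fin N → K) (d : ℕ) : (Fin N → K) →ₗ[F] (Fin N → K) where
  toFun a := X.indicator fun y => ∑ j, a j * τ y ^ (d + j)
  map_add' a a' := by
    funext y
    by_cases hy : y ∈ X
    · simp only [Set.indicator_of_mem hy, Pi.add_apply, add_mul, Finset.sum_add_distrib]
    · simp only [Set.indicator_of_notMem hy, Pi.add_apply, add_zero]
  map_smul' c a := by
    funext y
    by_cases hy : y ∈ X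
    · simp only [Set.indicator_of_mem hy, Pi.smul_apply, RingHom.id_apply, Finset.smul_sum,
        smul_mul_assoc]
    · simp only [Set.indicator_of_notMem hy, Pi.smul_apply, RingHom.id_apply, smul_zero]

theorem ev_apply (F : Type) {K : Type} [Field F] [Field K] [Algebra F K] {N : ℕ}
    (X : Set (Fin N)) (τ : Fin N → K) (d : ℕ) (a : Fin N → K) (y : Fin N) :
    ev F X τ d a y = X.indicator (fun y => ∑ j, a j * τ y ^ (d + j)) y := rfl

theorem dbl (hSet : SSet) (hExp : SExp) : SDbl := by
  classical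
  intro F G _ _ hG
  obtain ⟨S, L, hS, hE⟩ := hExp G hG
  obtain ⟨N, X, hN, hX⟩ := hSet S L (by rwa [Fintype.card_coe])
  obtain ⟨K, _, _, _, τ, hτ⟩ := exists_points F (S × Fin N)
  let m := Module.finrank F (Fin N → K)
  let e : (Fin m → F) ≃ₗ[F] (Fin N → K) := (Module.finBasis F (Fin N → K)).equivFun.symm
  have hm : 0 < m := by
    have : Nonempty (Fin N) := ⟨⟨0, hN⟩⟩
    exact Module.finrank_pos
  obtain ⟨u, hu⟩ := exists_conv (F := F) (m := m) (fun s : S => (s : G))
    fun s => e.symm.toLinearMap ∘ₗ ev F (X s) (fun y => τ (s, y)) 0 ∘ₗ e.toLinearMap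
  obtain ⟨w, hw⟩ := exists_conv (F := F) (m := m) (fun s : S => (s : G))
    fun s => e.symm.toLinearMap ∘ₗ ev F (X s) (fun y => τ (s, y)) N ∘ₗ e.toLinearMap
  refine ⟨m, u, w, hm, fun z z' => ?_⟩
  let Ψ : Finset G := ((finite_cf z).union (finite_cf z')).toFinset
  let O : Finset G := (finite_cf (u z + w z')).toFinset
  have hΨ : ∀ g, g ∈ Ψ ↔ cf z g ≠ 0 ∨ cf z' g ≠ 0 := fun g => by simp [Ψ]
  have hEfin : {g : G | ∃ s ∈ S, g * s ∈ Ψ}.Finite := by
    refine ((Ψ ×ˢ S).finite_toSet.image fun p => p.1 * p.2⁻¹).subset ?_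
    rintro g ⟨s, hs, hg⟩
    exact ⟨(g * s, s), Finset.mem_coe.mpr (Finset.mem_product.mpr ⟨hg, hs⟩), by simp⟩
  let Z : G → S × Fin N → Prop := fun f p =>
    ∑ j, e (cf z f) j * τ p ^ (j : ℕ) + ∑ j, e (cf z' f) j * τ p ^ (N + j) ≠ 0
  have hout : ∀ g y, e (cf (u z + w z') g) y = ∑ s : S, (X s).indicator (fun y =>
      ∑ j, e (cf z (g * s)) j * τ (s, y) ^ (j : ℕ) +
        ∑ j, e (cf z' (g * s)) j * τ (s, y) ^ (N + j)) y := by
    intro g y
    have : cf (u z + w z') g = cf (u z) g + cf (w z') g := rfl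
    rw [this, hu, hw, map_add, map_sum, map_sum, Pi.add_apply, Finset.sum_apply, Finset.sum_apply,
      ← Finset.sum_add_distrib]
    refine Finset.sum_congr rfl fun s _ => ?_
    simp only [LinearMap.comp_apply, LinearEquiv.coe_coe, LinearEquiv.apply_symm_apply, ev_apply,
      zero_add]
    by_cases hy : y ∈ X s
    · simp only [Set.indicator_of_mem hy]
    · simp only [Set.indicator_of_notMem hy, add_zero]
  have key := count_triples (fun s : S => (s : G)) X (8 * (L + 1)) (2 * N)
    (fun I s hs => by rw [Fintype.card_fin]; exact hX I s hs) Ψ O hEfin.toFinset Z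
    (fun f hf => by
      refine le_trans (le_of_eq (congrArg Finset.card ?_))
        (card_roots_le τ hτ (e (cf z f)) (e (cf z' f)) ?_)
      · ext p
        simp only [Finset.mem_filter, Z, not_not]
      · rintro ⟨h1, h2⟩
        rcases (hΨ f).mp hf with h | h
        · exact h (e.map_eq_zero_iff.mp h1)
        · exact h (e.map_eq_zero_iff.mp h2))
    (fun g s y hs hy ht hZ => by
      rw [Set.Finite.mem_toFinset]
      intro h0
      have h1 := hout g y
      rw [h0, map_zero, Pi.zero_apply, Finset.sum_eq_single s, Set.indicator_of_mem hy] at h1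
      · exact hZ h1.symm
      · intro t _ hts
        by_cases hg : g * t ∈ Ψ
        · exact Set.indicator_of_notMem (ht t hg hts) _
        · rw [hΨ, not_or, not_not, not_not] at hg
          rw [hg.1, hg.2, map_zero]
          simp
      · intro hs'
        exact absurd (Finset.mem_univ s) hs')
    (fun g hg => by
      obtain ⟨s, hs, h⟩ := hEfin.mem_toFinset.mp hg
      exact ⟨⟨s, hs⟩, h⟩)
  have h1 := hE Ψ
  rw [Set.ncard_eq_toFinset_card _ hEfin] at h1
  rw [Fintype.card_fin] at key
  have h2 : 2 * Ψ.card ≤ O.card := by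
    have h3 : 8 * (L + 1) * (N * (4 * Ψ.card)) ≤ 8 * (L + 1) * (N * (2 * Ψ.card + O.card)) := by
      calc 8 * (L + 1) * (N * (4 * Ψ.card)) = 32 * (L + 1) * Ψ.card * N := by ring
        _ ≤ hEfin.toFinset.card * N := Nat.mul_le_mul_right N h1
        _ ≤ _ := key
        _ = _ := by ring
    have h4 := Nat.le_of_mul_le_mul_left (Nat.le_of_mul_le_mul_left h3 (by omega)) hN
    omega
  have h5 : sz (u z + w z') = O.card := by
    rw [sz_eq, Set.ncard_eq_toFinset_card _ (finite_cf (u z + w z'))]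
  have h6 : sz z ≤ Ψ.card := by
    rw [sz_eq, ← Set.ncard_coe_finset]
    exact Set.ncard_le_ncard (fun g hg => (hΨ g).mpr (Or.inl hg)) Ψ.finite_toSet
  have h7 : sz z' ≤ Ψ.card := by
    rw [sz_eq, ← Set.ncard_coe_finset]
    exact Set.ncard_le_ncard (fun g hg => (hΨ g).mpr (Or.inr hg)) Ψ.finite_toSet
  omega

end Pool.Agent.MP_6a4325_al.H62
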