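import Pool.Agent.MP_6a4325_al.H62.Star
import Pool.Agent.MP_6a4325_al.H62.Dbl
import Pool.Agent.MP_6a4325_al.H36.SetSys
import Pool.Agent.MP_6a4325_al.H69.Alg
import Pool.Agent.MP_6a4325_al.H84.ZW

/-!
Property (Z) implies amenability.
-/

set_option autoImplicit false

namespace Pool.Agent.MP_6a4325_al.H62

theorem sdbl : SDbl := dbl H36.set_sys H36.expand

theorem amen_of_propZ (F G : Type) [Field F] [Group G] (h : PropZ F G) : Amen G :=
  amen_of_w sdbl H69.alg F G (H84.zw F G h)

end Pool.Agent.MP_6a4325_al.H62
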