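import Pool.Agent.MP_6a4325_al.H62.Amen
import Pool.Agent.MP_6a4325_al.H87.Her
import Pool.Agent.MP_6a4325_al.H41.SpecRow
import Pool.Agent.MP_6a4325_al.H29.Meas
import Pool.Agent.MP_6a4325_al.H43.Furst
import Pool.Agent.MP_6a4325_al.H45.Tor
import Pool.Agent.MP_6a4325_al.H88.Rank
import Pool.Agent.MP_6a4325_al.H76.T2
import Pool.Agent.MP_6a4325_al.H21.M2
import Pool.Agent.MP_6a4325_al.H32.ExtCh
import Pool.Agent.MP_6a4325_al.H51.T3S
import Pool.Agent.MP_6a4325_al.H53.Bound
import Pool.Agent.MP_6a4325_al.H31.T3C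
import Pool.Agent.MP_6a4325_al.H3.Ext
import Pool.Agent.MP_6a4325_al.H60.Conv
import Pool.Agent.MP_6a4325_al.H19.Burn
import Pool.Agent.MP_6a4325_al.H55.Irr
import Pool.Agent.MP_6a4325_al.H79.Lin
import Pool.Agent.MP_6a4325_al.H98.Eng
import Pool.Agent.MP_6a4325_al.H7.Noeth

/-!
Property (Z) in characteristic zero.
-/

set_option autoImplicit false

namespace Pool.Agent.MP_6a4325_al.H62

theorem st12 : ST12 := t12 (H88.t1 H88.rank) (H76.t2 H88.rank)

theorem svrc : SVrc := H43.vrc H41.spec (H43.furst H29.meas)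

theorem sm2 : SM2 := H21.m2 svrc tor st12

theorem sloc : SLoc := H31.loc (H31.t3 (H51.step H32.extCh) H53.bound) st12

theorem sext : SExt := H3.ext H41.f1 sm2 sloc

theorem sea : SEA := H3.ea sext sloc

theorem slin : SLin := H79.lin (H55.irr H29.meas H19.burn (H19.pad H29.meas)) tor sext

theorem seng : SEng := H98.eng H41.specM slin

theorem sres : SRes := H98.res H41.spec slin

theorem snoeth : SNoeth := H7.noeth H41.spec slin seng

theorem hw_of_propZ (F G : Type) [Field F] [CharZero F] [Group G] (h : PropZ F G) : HW G :=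
  hw_of_w H87.her_sub H87.her_quot H87.w1 sdbl H69.alg G (H84.wq F G (H84.zw F G h))

end Pool.Agent.MP_6a4325_al.H62
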