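import Pool.Agent.MP_6a4325_al.H62.Base2
import Pool.Agent.MP_6a4325_al.H62.Char0

/-!
The assembly of the classification for soluble groups from the steps.
-/

set_option autoImplicit false

namespace Pool.Agent.MP_6a4325_al.H62

/-- the condition in the classification, for the exponential characteristic `p` -/
def Cond (p : ℕ) (F G : Type) [Field F] [Group G] : Prop :=
  LocNoeth G ∧ ∃ (N : Subgroup G) (S : Subgroup N) (_ : S.Normal), N.FiniteIndex ∧
    (∀ s ∈ S, ∃ j : ℕ, s ^ p ^ j = 1) ∧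
    ((∀ a b : N ⧸ S, a * b = b * a) ∨
      (Absolute F ∧ FinRk (Subgroup.center (N ⧸ S)) ∧ Ser p (Subgroup.center (N ⧸ S)) ⊤))

theorem ea_of_derived (d : ℕ) : ∀ (G : Type) [Group G], derivedSeries G d = ⊥ → EA G := by
  induction d with
  | zero =>
    intro G _ h
    refine EA.abelian G fun a b => ?_
    have ha : a ∈ derivedSeries G 0 := trivial
    have hb : b ∈ derivedSeries G 0 := trivial
    rw [h, Subgroup.mem_bot] at ha hb
    rw [ha, hb]
  | succ d ih =>
    intro G _ h
    refine EA.ext G (derivedSeries G d) (EA.abelian _ fun a b => Subtype.ext ?_) (ih _ ?_)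
    · have h1 := Subgroup.commutator_mem_commutator a.2 b.2
      rw [← derivedSeries_succ, h, Subgroup.mem_bot] at h1
      exact commutatorElement_eq_one_iff_mul_comm.1 h1
    · rw [← map_derivedSeries_eq (QuotientGroup.mk'_surjective (derivedSeries G d)),
        Subgroup.map_eq_bot_iff, QuotientGroup.ker_mk']

theorem ea_of_solvable (G : Type) [Group G] (h : Group.IsSolvable G) : EA G := by
  obtain ⟨d, hd⟩ := h.solvable
  exact ea_of_derived d G hd

theorem locNoeth_of_va {G : Type} [Group G] (h : VA G) : LocNoeth G := fun H hH K hK => by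
  have h1 := H7.fg_map (H7.fg_of_va ((Group.fg_iff_subgroup_fg H).2 hH) (h.sub H)
    (K.subgroupOf H)) H.subtype
  rwa [Subgroup.subgroupOf_map_subtype, inf_of_le_left hK] at h1

theorem cond_zero (F G : Type) [Field F] [CharZero F] [Group G] (hG : Group.IsSolvable G) :
    PropZ F G ↔ Cond 1 F G := by
  constructor
  · intro h
    have hva := sea G (ea_of_solvable G hG) (hw_of_propZ F G h)
    obtain ⟨A, _, hA, hc⟩ := id hva
    refine ⟨locNoeth_of_va hva, A, ⊥, inferInstance, hA, fun s hs => ⟨0, by simpa using hs⟩,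
      Or.inl fun a b => ?_⟩
    obtain ⟨a, rfl⟩ := QuotientGroup.mk_surjective a
    obtain ⟨b, rfl⟩ := QuotientGroup.mk_surjective b
    rw [← QuotientGroup.mk_mul, ← QuotientGroup.mk_mul,
      show a * b = b * a from Subtype.ext (hc a a.2 b b.2)]
  · rintro ⟨-, N, S, _, hN, hS, h | ⟨h, -⟩⟩
    · refine H60.conv F G (VA.of_finiteIndex N hN (VA.of_abelian fun a b => ?_))
      have h1 := h a b
      rw [← QuotientGroup.mk_mul, ← QuotientGroup.mk_mul, QuotientGroup.eq] at h1
      obtain ⟨j, hj⟩ := hS _ h1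
      rw [one_pow, pow_one] at hj
      exact inv_mul_eq_one.1 hj
    · obtain ⟨m, hm, e⟩ := isOfFinOrder_iff_pow_eq_one.1 (h 2 two_ne_zero)
      have h2 : (2 : ℕ) ^ m = 1 := by exact_mod_cast e
      exact absurd ((Nat.pow_eq_one.1 h2).resolve_left (by norm_num)) hm.ne'

section Pos

variable {p : ℕ} [Fact p.Prime] {F G : Type} [Field F] [Group G]

omit [Fact p.Prime] in
theorem cond_of_cb (hln : LocNoeth G) (h : CB p True G) : Cond p F G := by
  obtain ⟨N, S, Z, hN, hSZ, hZN, hnz, hS, hc, hr⟩ := h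
  have hZ : Z.FiniteIndex := ⟨fun e => by
    rw [← Subgroup.relIndex_mul_index hZN] at e
    exact mul_ne_zero (hr.2 trivial) hN.index_ne_zero e⟩
  have hn : (S.subgroupOf Z).Normal := Nz.normal_subgroupOf fun k hk => hnz k (hZN hk)
  refine ⟨hln, Z, S.subgroupOf Z, hn, hZ, fun s hs => ?_, Or.inl fun a b => ?_⟩
  · obtain ⟨j, hj⟩ := hS ⟨s, hs⟩
    exact ⟨j, Subtype.ext (congrArg Subtype.val hj :)⟩
  · obtain ⟨a, rfl⟩ := QuotientGroup.mk_surjective a
    obtain ⟨b, rfl⟩ := QuotientGroup.mk_surjective b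
    rw [← QuotientGroup.mk_mul, ← QuotientGroup.mk_mul, QuotientGroup.eq]
    have h1 := hc (b : G)⁻¹ (Z.inv_mem b.2) (a : G)⁻¹ (N.inv_mem (hZN a.2))
    simpa [Subgroup.mem_subgroupOf, mul_assoc] using h1

theorem nec [CharP F p] (hsub : SWsub) (hln : SLN) (hpc : PCApi) (hna : SGNA) (hgy : SGY)
    (hpv : SPV) (hind : SInd) (hser : SSer) (hrel : SRel) (hG : Group.IsSolvable G)
    (h : PropZ F G) : Cond p F G := by
  let := ZMod.algebra F p
  have hW := H84.zw F G h
  have hW0 : W (ZMod p) G := hsub _ F G hW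
  have hL := hln p G hG hW0
  by_cases hF : Absolute F
  swap
  · exact cond_of_cb hL (hind p True G ⟨hG, hW0, fun _ => LVA.of_fg fun H hH =>
      hpv H (hpc.loc G hG hL H hH) (hna p F H hF (hW.sub H))⟩)
  have hy : Hyp p False G := ⟨hG, hW0, False.elim⟩
  obtain ⟨N, S, Z, hN, hSZ, hZN, hnz, hS, hc, hr⟩ := hind p False G hy
  have hn : (S.subgroupOf N).Normal := hnz.normal_subgroupOf
  have hp : ∀ s ∈ S.subgroupOf N, ∃ j : ℕ, s ^ p ^ j = 1 := fun s hs => by
    obtain ⟨j, hj⟩ := hS ⟨s, hs⟩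
    exact ⟨j, Subtype.ext (congrArg Subtype.val hj :)⟩
  by_cases hrk : FinRk (Subgroup.center (N ⧸ S.subgroupOf N))
  · refine ⟨hL, N, S.subgroupOf N, hn, hN, hp, Or.inr ⟨hF, hrk, ?_⟩⟩
    have h1 := (hser p).map _ _ (QuotientGroup.mk' (S.subgroupOf N)) _ _
      ((hser p).comap _ _ N.subtype _ _ hr.1)
    have h2 : (N.comap N.subtype).map (QuotientGroup.mk' (S.subgroupOf N)) = ⊤ := by
      rw [Subgroup.comap_subtype, Subgroup.subgroupOf_self,
        Subgroup.map_top_of_surjective _ (QuotientGroup.mk'_surjective _)]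
    rw [h2] at h1
    refine (hser p).up _ _ _ _ ?_ le_top (nz_of_normal _ _) h1
    rintro _ ⟨z, hz, rfl⟩
    refine Subgroup.mem_center_iff.2 fun g => ?_
    obtain ⟨g, rfl⟩ := QuotientGroup.mk_surjective g
    rw [QuotientGroup.mk'_apply, ← QuotientGroup.mk_mul, ← QuotientGroup.mk_mul, QuotientGroup.eq]
    have h3 := hc (z : G)⁻¹ (Z.inv_mem hz) (g : G)⁻¹ (N.inv_mem g.2)
    simpa [Subgroup.mem_subgroupOf, mul_assoc] using h3
  · have hq := (hy.sub N).quot (S.subgroupOf N)
    have hL' := (hL.sub N).of_surj _ (QuotientGroup.mk'_surjective (S.subgroupOf N))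
    have h1 := hind p True _ ⟨hq.1, hq.2.1, fun _ => LVA.of_fg fun H hH =>
      hpv H (hpc.loc _ hq.1 hL' H hH) (hgy p _ hq.2.1 hL' hrk H hH)⟩
    refine cond_of_cb hL ((hrel p True).cbFin G N hN ((hrel p True).cbQuot _ _ _
      (QuotientGroup.mk'_surjective (S.subgroupOf N)) ?_ h1))
    rw [QuotientGroup.ker_mk']
    exact fun ⟨s, hs⟩ => (hp s hs).imp fun j hj => Subtype.ext hj

theorem absolute_closure [CharP F p] (h : Absolute F) : Absolute (AlgebraicClosure F) := by
  let := ZMod.algebra F p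
  have : Algebra.IsAlgebraic (ZMod p) F := h.isAlgebraic
  have : Algebra.IsAlgebraic (ZMod p) (AlgebraicClosure F) := Algebra.IsAlgebraic.trans _ F _
  exact absolute_of_algebraic p _

theorem suf [CharP F p] (hsub : SWsub) (hfw : SFW) (hws : SWS) (hfi : SWfi) (hwz : SWZ)
    (hbig : SBig) (hsuff : SSuff) (hG : Group.IsSolvable G) (h : Cond p F G) : PropZ F G := by
  obtain ⟨hL, N, S, _, hN, hS, h⟩ := h
  have hsolv : Group.IsSolvable N := inferInstance
  have hq : W F (N ⧸ S) := by
    rcases h with h | ⟨hF, hrk, hser⟩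
    · exact H84.zw _ _ (H60.conv F _ (VA.of_abelian h))
    · have hL' := (hL.sub N).of_surj _ (QuotientGroup.mk'_surjective S)
      have hc : Cm (Subgroup.center (N ⧸ S)) ⊤ := fun a ha b _ =>
        (Subgroup.mem_center_iff.1 ha b).symm
      have : CharP (AlgebraicClosure F) p := inferInstance
      exact hsub F (AlgebraicClosure F) _ (hfw _ _ (hsuff p _ _ (absolute_closure (p := p) hF) _
        ⟨inferInstance, hL', (hbig p).ex _ _ hL' hc hrk hser, hc, hser⟩))
  refine hwz F G (hfi F G N hN (hws p F N _ _ (QuotientGroup.mk'_surjective S) hsolv (hL.sub N)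
    ?_ hq))
  rw [QuotientGroup.ker_mk']
  exact fun ⟨s, hs⟩ => (hS s hs).imp fun j hj => Subtype.ext hj

end Pos

theorem classif (hsub : SWsub) (hln : SLN) (hpc : PCApi) (hna : SGNA) (hgy : SGY)
    (hpv : SPV) (hind : SInd) (hser : SSer) (hrel : SRel) (hfw : SFW) (hws : SWS) (hfi : SWfi)
    (hwz : SWZ) (hbig : SBig) (hsuff : SSuff) (F G : Type) [Field F] [Group G]
    (hG : Group.IsSolvable G) : PropZ F G ↔ Cond (ringExpChar F) F G := by
  obtain ⟨p, hp⟩ := CharP.exists F
  rcases CharP.char_is_prime_or_zero F p with h | rfl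
  · have := Fact.mk h
    have : ExpChar F p := ExpChar.prime h
    rw [ringExpChar.eq F p]
    exact ⟨nec hsub hln hpc hna hgy hpv hind hser hrel hG,
      suf hsub hfw hws hfi hwz hbig hsuff hG⟩
  · have := CharP.charP_to_charZero F
    rw [ringExpChar.eq F 1]
    exact cond_zero F G hG

end Pool.Agent.MP_6a4325_al.H62
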