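import Pool.Agent.MP_6a4325_al.H62.Spec

/-!
Small general lemmas for the steps.
-/

set_option autoImplicit false

namespace Pool.Agent.MP_6a4325_al.H62

open Matrix

section Act

variable {F G K : Type} [Field F] [Group G] [Field K] [Algebra F K] {n : ℕ}
  (ρ : G →* Matrix (Fin n) (Fin n) K)

theorem act_single (g : G) (c : F) : act F ρ (MonoidAlgebra.single g c) = c • ρ g :=
  MonoidAlgebra.lift_single ρ g c

theorem act_single_one (g : G) : act F ρ (MonoidAlgebra.single g 1) = ρ g := by
  rw [act_single, one_smul]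

theorem act_apply (x : MonoidAlgebra F G) : act F ρ x = x.coeff.sum fun g c => c • ρ g :=
  MonoidAlgebra.lift_apply ρ x

end Act

section Span

variable {G : Type} [Group G]

/-- the linear extension of a function on the group -/
noncomputable def lam {E : Type} [AddCommGroup E] [Module ℚ E] (φ : G → E) :
    MonoidAlgebra ℚ G →+ E :=
  (Finsupp.linearCombination ℚ φ).toAddMonoidHom.comp
    (MonoidAlgebra.coeffAddEquiv (R := ℚ) (M := G)).toAddMonoidHom

omit [Group G] in
theorem lam_apply {E : Type} [AddCommGroup E] [Module ℚ E] (φ : G → E) (x : MonoidAlgebra ℚ G) :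
    lam φ x = x.coeff.sum fun h c => c • φ h := rfl

omit [Group G] in
theorem lam_single {E : Type} [AddCommGroup E] [Module ℚ E] (φ : G → E) (g : G) (c : ℚ) :
    lam φ (MonoidAlgebra.single g c) = c • φ g := by
  rw [lam_apply, MonoidAlgebra.coeff_single]
  exact Finsupp.sum_single_index (zero_smul ℚ (φ g))

theorem lam_single_mul {E : Type} [AddCommGroup E] [Module ℚ E] (φ : G → E) (g : G) (c : ℚ)
    (x : MonoidAlgebra ℚ G) :
    lam φ (MonoidAlgebra.single g c * x) = c • x.coeff.sum fun h d => d • φ (g * h) := by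
  change _ = c • lam (fun h => φ (g * h)) x
  induction x using MonoidAlgebra.induction_linear with
  | zero => simp
  | add x y hx hy => rw [mul_add, map_add, map_add, hx, hy, smul_add]
  | single h d => rw [MonoidAlgebra.single_mul_single, lam_single, lam_single, mul_smul]

theorem span_ne_top_of_fun {E : Type} [AddCommGroup E] [Module ℚ E] (φ : G → E) (h1 : φ 1 ≠ 0)
    (T : Set (MonoidAlgebra ℚ G))
    (h : ∀ x ∈ T, ∀ g, (x.coeff.sum fun h c => c • φ (g * h)) = 0) : Ideal.span T ≠ ⊤ := by
  have key : ∀ y ∈ Ideal.span T, ∀ a : MonoidAlgebra ℚ G, lam φ (a * y) = 0 := by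
    intro y hy
    induction hy using Submodule.span_induction with
    | mem x hx =>
      intro a
      induction a using MonoidAlgebra.induction_linear with
      | zero => simp
      | add a b ha hb => rw [add_mul, map_add, ha, hb, add_zero]
      | single g c => rw [lam_single_mul, h x hx g, smul_zero]
    | zero => intro a; simp
    | add x y _ _ hx hy => intro a; rw [mul_add, map_add, hx, hy, add_zero]
    | smul b x _ hx => intro a; rw [smul_eq_mul, ← mul_assoc, hx]
  intro htop
  have := key 1 (htop ▸ Submodule.mem_top) 1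
  rw [mul_one, MonoidAlgebra.one_def, lam_single, one_smul] at this
  exact h1 this

theorem exists_fun_of_span_ne_top (T : Set (MonoidAlgebra ℚ G)) (h : Ideal.span T ≠ ⊤) :
    ∃ φ : G → ℚ, φ 1 = 1 ∧ ∀ x ∈ T, ∀ g, (x.coeff.sum fun h c => c • φ (g * h)) = 0 := by
  have h1 : (1 : MonoidAlgebra ℚ G) ∉ (Ideal.span T).restrictScalars ℚ := by
    intro h1
    exact h ((Ideal.eq_top_iff_one _).mpr h1)
  obtain ⟨l, hl1, hl⟩ := Submodule.exists_dual_map_eq_bot_of_notMem h1 inferInstance
  have hl0 : ∀ y ∈ Ideal.span T, l y = 0 := fun y hy => by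
    have : l y ∈ Submodule.map l ((Ideal.span T).restrictScalars ℚ) := ⟨y, hy, rfl⟩
    rw [hl] at this
    exact this
  have hlam : ∀ y, lam (fun g => l (MonoidAlgebra.single g 1) / l 1) y = l y / l 1 := by
    intro y
    induction y using MonoidAlgebra.induction_linear with
    | zero => simp
    | add a b ha hb => rw [map_add, map_add, ha, hb, add_div]
    | single g c =>
      have : MonoidAlgebra.single g c = c • MonoidAlgebra.single g (1 : ℚ) := by
        rw [MonoidAlgebra.smul_single, smul_eq_mul, mul_one]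
      rw [lam_single, this, map_smul, smul_eq_mul, smul_eq_mul, mul_div_assoc]
  refine ⟨fun g => l (MonoidAlgebra.single g 1) / l 1, div_self hl1, fun x hx g => ?_⟩
  have h2 := lam_single_mul (fun g => l (MonoidAlgebra.single g 1) / l 1) g 1 x
  rw [one_smul] at h2
  rw [← h2, hlam, hl0 _ (Ideal.mul_mem_left _ _ (Ideal.subset_span hx)), zero_div]

end Span

section Hered

variable {G H Q : Type} [Group G] [Group H] [Group Q]

theorem HW.all (h : HW G) : W ℚ G ∧ W1 G ∧ Amen G :=
  h ⊤ G (⊤ : Subgroup G).subtype fun g => ⟨⟨g, trivial⟩, rfl⟩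

theorem HW.w (h : HW G) : W ℚ G := h.all.1

theorem HW.w1 (h : HW G) : W1 G := h.all.2.1

theorem HW.amen (h : HW G) : Amen G := h.all.2.2

theorem HW.of_inj (h : HW G) (f : H →* G) (hf : Function.Injective f) : HW H := by
  intro K Q _ φ hφ
  exact h (K.map f) Q (φ.comp (K.equivMapOfInjective f hf).symm.toMonoidHom)
    (hφ.comp (K.equivMapOfInjective f hf).symm.surjective)

theorem HW.of_surj (h : HW G) (f : G →* Q) (hf : Function.Surjective f) : HW Q := by
  intro K Q' _ φ hφ
  exact h (K.comap f) Q' (φ.comp (f.subgroupComap K))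
    (hφ.comp (f.subgroupComap_surjective_of_surjective K hf))

theorem HW.sub (h : HW G) (K : Subgroup G) : HW K := h.of_inj K.subtype K.subtype_injective

theorem HW.quot (h : HW G) (N : Subgroup G) [N.Normal] : HW (G ⧸ N) :=
  h.of_surj (QuotientGroup.mk' N) (QuotientGroup.mk'_surjective N)

theorem HW.amen_sub (h : HW G) (K : Subgroup G) : Amen K := (h.sub K).amen

theorem VA.of_comm (A : Subgroup G) (hA : A.FiniteIndex)
    (hc : ∀ a ∈ A, ∀ b ∈ A, a * b = b * a) : VA G :=
  ⟨A.normalCore, inferInstance, inferInstance,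
    fun a ha b hb => hc a (A.normalCore_le ha) b (A.normalCore_le hb)⟩

theorem VA.of_abelian (hc : ∀ a b : G, a * b = b * a) : VA G :=
  VA.of_comm ⊤ inferInstance fun a _ b _ => hc a b

theorem VA.of_finite [Finite G] : VA G :=
  VA.of_comm ⊥ inferInstance fun a ha b hb => by
    rw [Subgroup.mem_bot.mp ha, Subgroup.mem_bot.mp hb]

theorem finiteIndex_comap (A : Subgroup G) (hA : A.FiniteIndex) (f : H →* G) :
    (A.comap f).FiniteIndex := by
  constructor
  rw [Subgroup.index_comap]
  exact Subgroup.FiniteIndex.index_ne_zero (H := A.subgroupOf f.range)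

theorem finiteIndex_map (A : Subgroup G) (hA : A.FiniteIndex) (f : G →* Q)
    (hf : Function.Surjective f) : (A.map f).FiniteIndex :=
  ⟨fun h0 => hA.index_ne_zero (Nat.eq_zero_of_zero_dvd (h0 ▸ Subgroup.index_map_dvd A hf))⟩

theorem finiteIndex_map_subtype (K : Subgroup G) (hK : K.FiniteIndex) (A : Subgroup K)
    (hA : A.FiniteIndex) : (A.map K.subtype).FiniteIndex := by
  constructor
  rw [Subgroup.index_map_subtype]
  exact mul_ne_zero hA.index_ne_zero hK.index_ne_zero

theorem VA.of_inj (h : VA G) (f : H →* G) (hf : Function.Injective f) : VA H := by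
  obtain ⟨A, -, hA, hc⟩ := h
  refine VA.of_comm (A.comap f) (finiteIndex_comap A hA f) fun a ha b hb => hf ?_
  rw [map_mul, map_mul]
  exact hc _ ha _ hb

theorem VA.sub (h : VA G) (K : Subgroup G) : VA K := h.of_inj K.subtype K.subtype_injective

theorem VA.of_surj (h : VA G) (f : G →* Q) (hf : Function.Surjective f) : VA Q := by
  obtain ⟨A, -, hA, hc⟩ := h
  refine VA.of_comm (A.map f) (finiteIndex_map A hA f hf) ?_
  rintro _ ⟨a, ha, rfl⟩ _ ⟨b, hb, rfl⟩
  rw [← map_mul, ← map_mul, hc a ha b hb]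

theorem VA.of_finiteIndex (K : Subgroup G) (hK : K.FiniteIndex) (h : VA K) : VA G := by
  obtain ⟨A, -, hA, hc⟩ := h
  refine VA.of_comm (A.map K.subtype) (finiteIndex_map_subtype K hK A hA) ?_
  rintro _ ⟨a, ha, rfl⟩ _ ⟨b, hb, rfl⟩
  rw [← map_mul, ← map_mul, hc a ha b hb]

theorem VA.prod (h : VA G) (h' : VA H) : VA (G × H) := by
  obtain ⟨A, -, hA, hc⟩ := h
  obtain ⟨B, -, hB, hd⟩ := h'
  refine VA.of_comm (A.prod B) ⟨?_⟩ fun a ha b hb => Prod.ext (hc _ ha.1 _ hb.1) (hd _ ha.2 _ hb.2)
  rw [Subgroup.index_prod]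
  exact mul_ne_zero hA.index_ne_zero hB.index_ne_zero

theorem Amen.of_equiv (e : G ≃* H) (h : Amen G) : Amen H := by
  intro S ε hε
  obtain ⟨Φ, hne, hΦ⟩ := h (S.map e.symm.toEquiv.toEmbedding) ε hε
  refine ⟨Φ.map e.toEquiv.toEmbedding, hne.map, fun s hs => ?_⟩
  have h1 := hΦ (e.symm s) (Finset.mem_map_of_mem _ hs)
  have h2 : {x : H | x ∈ Φ.map e.toEquiv.toEmbedding ∧ s * x ∉ Φ.map e.toEquiv.toEmbedding} =
      e '' {x : G | x ∈ Φ ∧ e.symm s * x ∉ Φ} := by
    ext x
    obtain ⟨x, rfl⟩ := e.surjective x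
    rw [e.injective.mem_set_image]
    simp [Finset.mem_map_equiv]
  rw [h2, Set.ncard_image_of_injective _ e.injective, Finset.card_map]
  exact h1

theorem amen_sub_sub (h : ∀ K : Subgroup G, Amen K) (K₀ : Subgroup G) :
    ∀ K : Subgroup K₀, Amen K := fun K =>
  (h (K.map K₀.subtype)).of_equiv (K.equivMapOfInjective _ K₀.subtype_injective).symm

theorem amen_of_sub (h : ∀ K : Subgroup G, Amen K) : Amen G :=
  (h ⊤).of_equiv Subgroup.topEquiv

theorem Det.of_sub {y : G} (K : Subgroup G) (hK : K.FiniteIndex) (k : ℕ) (hy : y ^ k ∈ K)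
    (h : Det (⟨y ^ k, hy⟩ : K)) : Det y := by
  obtain ⟨K', hK', χ, k', h', hne⟩ := h
  let e := K'.equivMapOfInjective _ K.subtype_injective
  have hm : y ^ (k * k') ∈ K'.map K.subtype := ⟨_, h', by simp [pow_mul]⟩
  refine ⟨K'.map K.subtype, finiteIndex_map_subtype K hK K' hK',
    χ.comp (MonoidHom.toAdditive e.symm.toMonoidHom), k * k', hm, ?_⟩
  have : e.symm ⟨y ^ (k * k'), hm⟩ = ⟨_, h'⟩ := by
    rw [MulEquiv.symm_apply_eq]
    apply Subtype.ext
    simp [e, pow_mul]
  change χ (Additive.ofMul (e.symm ⟨y ^ (k * k'), hm⟩)) ≠ 0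
  rw [this]
  exact hne

end Hered

section Std

/-- the standard identity in a finite dimensional algebra -/
theorem std_zero {K A : Type} [Field K] [Ring A] [Algebra K A] [FiniteDimensional K A] {k : ℕ}
    (hk : Module.finrank K A < k) (x : Fin k → A) :
    ∑ σ : Equiv.Perm (Fin k), Equiv.Perm.sign σ • (List.ofFn fun i => x (σ i)).prod = 0 := by
  have h1 : ¬ LinearIndependent K x := fun h => by
    have := h.fintype_card_le_finrank
    rw [Fintype.card_fin] at this
    omega
  have h2 := (MultilinearMap.alternatization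
    (MultilinearMap.mkPiAlgebraFin K k A)).map_linearDependent x h1
  rw [MultilinearMap.alternatization_apply] at h2
  exact h2

end Std

section Center

open scoped commutatorElement

variable {G : Type} [Group G]

theorem finite_commutator_of_center (H : Type) [Group H] (h : (Subgroup.center H).FiniteIndex) :
    Finite (commutator H) := by
  have : Finite (commutatorSet H) := by
    let f : (H ⧸ Subgroup.center H) × (H ⧸ Subgroup.center H) → H := fun p => ⁅p.1.out, p.2.out⁆
    refine (Set.finite_range f).subset ?_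
    rintro _ ⟨a, b, rfl⟩
    obtain ⟨z, hz⟩ := QuotientGroup.mk_out_eq_mul (Subgroup.center H) a
    obtain ⟨w, hw⟩ := QuotientGroup.mk_out_eq_mul (Subgroup.center H) b
    refine ⟨(a, b), ?_⟩
    have hz' := Subgroup.mem_center_iff.mp z.2
    have hw' := Subgroup.mem_center_iff.mp w.2
    change ⁅(a : H ⧸ Subgroup.center H).out, (b : H ⧸ Subgroup.center H).out⁆ = _
    rw [hz, hw, commutatorElement_def, commutatorElement_def, _root_.mul_inv_rev, _root_.mul_inv_rev]
    calc a * z * (b * w) * ((z : H)⁻¹ * a⁻¹) * ((w : H)⁻¹ * b⁻¹)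
        = a * (z * (b * w)) * (z : H)⁻¹ * (a⁻¹ * (w : H)⁻¹) * b⁻¹ := by group
      _ = a * (b * w * z) * (z : H)⁻¹ * ((w * a)⁻¹) * b⁻¹ := by rw [hz' (b * w), _root_.mul_inv_rev]
      _ = a * (b * w * z) * (z : H)⁻¹ * ((a * w)⁻¹) * b⁻¹ := by rw [hw' a]
      _ = a * b * a⁻¹ * b⁻¹ := by group
  infer_instance

theorem exists_finset_commutator {g : G} (hg : g ∈ commutator G) :
    ∃ T : Finset G, g ∈ ⁅Subgroup.closure (↑T : Set G), Subgroup.closure (↑T : Set G)⁆ := by
  classical
  rw [commutator_eq_closure] at hg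
  induction hg using Subgroup.closure_induction with
  | mem x hx =>
    obtain ⟨a, b, rfl⟩ := hx
    exact ⟨{a, b}, Subgroup.commutator_mem_commutator (Subgroup.subset_closure (by simp))
      (Subgroup.subset_closure (by simp))⟩
  | one => exact ⟨∅, Subgroup.one_mem _⟩
  | mul x y _ _ hx hy =>
    obtain ⟨T, hT⟩ := hx
    obtain ⟨T', hT'⟩ := hy
    have h1 : Subgroup.closure (↑T : Set G) ≤ Subgroup.closure (↑(T ∪ T') : Set G) :=
      Subgroup.closure_mono (by simp)
    have h2 : Subgroup.closure (↑T' : Set G) ≤ Subgroup.closure (↑(T ∪ T') : Set G) :=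
      Subgroup.closure_mono (by simp)
    exact ⟨T ∪ T', Subgroup.mul_mem _ (Subgroup.commutator_mono h1 h1 hT)
      (Subgroup.commutator_mono h2 h2 hT')⟩
  | inv x _ hx =>
    obtain ⟨T, hT⟩ := hx
    exact ⟨T, Subgroup.inv_mem _ hT⟩

theorem lfd_of_center
    (h : ∀ T : Finset G, (Subgroup.center (Subgroup.closure (↑T : Set G))).FiniteIndex) :
    LFD G := by
  classical
  intro T hT
  choose U hU using fun g : T => exists_finset_commutator (hT g.1 g.2)
  let T₀ : Finset G := Finset.univ.biUnion U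
  let H := Subgroup.closure (↑T₀ : Set G)
  have hle : Subgroup.closure (↑T : Set G) ≤ (commutator H).map H.subtype := by
    rw [Subgroup.map_subtype_commutator, Subgroup.closure_le]
    intro g hg
    have h1 : Subgroup.closure (↑(U ⟨g, hg⟩) : Set G) ≤ H :=
      Subgroup.closure_mono (Finset.coe_subset.mpr
        (Finset.subset_biUnion_of_mem U (Finset.mem_univ _)))
    exact Subgroup.commutator_mono h1 h1 (hU ⟨g, hg⟩)
  have := finite_commutator_of_center H (h T₀)
  have : Finite ((commutator H).map H.subtype) :=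
    Finite.of_equiv _ ((commutator H).equivMapOfInjective _ H.subtype_injective).toEquiv
  exact Finite.of_injective _ (Subgroup.inclusion_injective hle)

theorem lfd_of_fc (h : ∀ g : G, g ∈ fc G) : LFD G := by
  refine lfd_of_center fun T => ?_
  have h1 : (⨅ g ∈ T, Subgroup.centralizer ({g} : Set G)).FiniteIndex :=
    Subgroup.finiteIndex_iInf' _ fun g _ => h g
  have h2 : (⨅ g ∈ T, Subgroup.centralizer ({g} : Set G)).subgroupOf
      (Subgroup.closure (↑T : Set G)) ≤ Subgroup.center (Subgroup.closure (↑T : Set G)) := by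
    intro z hz
    rw [Subgroup.mem_center_iff]
    rintro ⟨g, hg⟩
    apply Subtype.ext
    have h3 : Subgroup.closure (↑T : Set G) ≤ Subgroup.centralizer {(z : G)} := by
      rw [Subgroup.closure_le]
      intro t ht
      have h4 := (Subgroup.mem_iInf.mp (Subgroup.mem_iInf.mp
        (Subgroup.mem_subgroupOf.mp hz) t) ht)
      exact Subgroup.mem_centralizer_singleton_iff.mpr
        (Subgroup.mem_centralizer_singleton_iff.mp h4).symm
    exact Subgroup.mem_centralizer_singleton_iff.mp (h3 hg)
  exact Subgroup.finiteIndex_of_le h2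

theorem t12 (h1 : ST1) (h2 : ST2) : ST12 := by
  intro G _ hW hL
  obtain ⟨D, hD, hfc⟩ := h2 G hW.w1 hL
  refine VA.of_finiteIndex D hD (h1 D (hW.sub D).w1 fun g => ?_)
  have h3 : (Subgroup.centralizer ({(g : G)} : Set G)).FiniteIndex := hfc g g.2
  have h4 : (Subgroup.centralizer ({(g : G)} : Set G)).subgroupOf D ≤
      Subgroup.centralizer ({g} : Set D) := by
    intro z hz
    exact Subgroup.mem_centralizer_singleton_iff.mpr (Subtype.ext
      (Subgroup.mem_centralizer_singleton_iff.mp (Subgroup.mem_subgroupOf.mp hz)))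
  exact Subgroup.finiteIndex_of_le h4

end Center

end Pool.Agent.MP_6a4325_al.H62
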