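import Pool.Agent.MP_6a4325_al.H62.Spec2
import Pool.Agent.MP_6a4325_al.H62.Base
import Pool.Agent.MP_6a4325_al.H87.Her
import Pool.Agent.MP_6a4325_al.H7.Noeth

/-!
Small general lemmas for the steps of the second plan.
-/

set_option autoImplicit false

namespace Pool.Agent.MP_6a4325_al.H62

open Matrix

section Her

variable {F G H Q : Type} [Field F] [Group G] [Group H] [Group Q]

theorem W.of_inj (h : W F G) (f : H →* G) (hf : Function.Injective f) : W F H :=
  H87.her_sub F G H f hf h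

theorem W.of_surj (h : W F G) (f : G →* Q) (hf : Function.Surjective f) : W F Q :=
  H87.her_quot F G Q f hf h

theorem W.sub (h : W F G) (K : Subgroup G) : W F K := h.of_inj K.subtype K.subtype_injective

theorem W.quot (h : W F G) (N : Subgroup G) [N.Normal] : W F (G ⧸ N) :=
  h.of_surj (QuotientGroup.mk' N) (QuotientGroup.mk'_surjective N)

/-- A nonzero function on the group gives a finite dimensional solution of all the equations
that kill it. -/
theorem W.sol_of_fun {E : Type} [AddCommGroup E] [Module F E] (h : W F G) (φ : G → E)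
    (hφ : ∃ g, φ g ≠ 0) :
    ∃ (K : Type) (_ : Field K) (_ : Algebra F K) (_ : IsAlgClosed K) (n : ℕ)
      (ρ : G →* Matrix (Fin n) (Fin n) K) (v : Fin n → K), v ≠ 0 ∧
      ∀ x : MonoidAlgebra F G, (∀ g, (x.coeff.sum fun a c => c • φ (g * a)) = 0) →
        act F ρ x *ᵥ v = 0 := by
  let lm : (G → E) → MonoidAlgebra F G →+ E := fun φ =>
    (Finsupp.linearCombination F φ).toAddMonoidHom.comp
      (MonoidAlgebra.coeffAddEquiv (R := F) (M := G)).toAddMonoidHom
  have lm_apply : ∀ φ x, lm φ x = x.coeff.sum fun a c => c • φ a := fun _ _ => rfl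
  have lm_single : ∀ φ g c, lm φ (MonoidAlgebra.single g c) = c • φ g := fun φ g c => by
    rw [lm_apply, MonoidAlgebra.coeff_single]
    exact Finsupp.sum_single_index (zero_smul F (φ g))
  have lm_mul : ∀ (φ : G → E) g c x,
      lm φ (MonoidAlgebra.single g c * x) = c • lm (fun a => φ (g * a)) x := fun φ g c x => by
    induction x using MonoidAlgebra.induction_linear with
    | zero => simp
    | add x y hx hy => rw [mul_add, map_add, map_add, hx, hy, smul_add]
    | single a d => rw [MonoidAlgebra.single_mul_single, lm_single, lm_single, mul_smul]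
  let L : Submodule (MonoidAlgebra F G) (Fin 1 → MonoidAlgebra F G) :=
    { carrier := {z | ∀ g, lm (fun a => φ (g * a)) (z 0) = 0}
      add_mem' := fun {x y} hx hy g => by rw [Pi.add_apply, map_add, hx, hy, add_zero]
      zero_mem' := fun g => by simp
      smul_mem' := fun b z hz g => by
        rw [Pi.smul_apply, smul_eq_mul]
        induction b using MonoidAlgebra.induction_linear with
        | zero => simp
        | add x y hx hy => rw [add_mul, map_add, hx, hy, add_zero]
        | single a c =>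
          rw [lm_mul]
          simp only [← mul_assoc]
          rw [hz, smul_zero] }
  have hL : L ≠ ⊤ := fun e => by
    obtain ⟨g, hg⟩ := hφ
    have h1 : (fun _ => 1 : Fin 1 → MonoidAlgebra F G) ∈ L := e ▸ Submodule.mem_top
    have h2 := h1 g
    rw [MonoidAlgebra.one_def, lm_single, one_smul, mul_one] at h2
    exact hg h2
  obtain ⟨K, i1, i2, i3, n, ρ, v, hv, hs⟩ := h 1 L hL
  refine ⟨K, i1, i2, i3, n, ρ, v 0, fun e => hv (funext fun i => ?_), fun x hx => ?_⟩
  · rw [Subsingleton.elim i 0, e]; rfl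
  · have := hs (fun _ => x) hx
    rwa [Fin.sum_univ_one] at this

theorem fg_of_map_inj {P : Subgroup H} (f : H →* G) (hf : Function.Injective f)
    (h : (P.map f).FG) : P.FG := by
  have e := P.equivMapOfInjective f hf
  have h1 : Group.FG (P.map f) := (Group.fg_iff_subgroup_fg _).2 h
  exact (Group.fg_iff_subgroup_fg _).1
    (Group.fg_of_surjective (f := e.symm.toMonoidHom) e.symm.surjective)

theorem exists_fg_lift (f : G →* Q) (hf : Function.Surjective f) {P : Subgroup Q} (h : P.FG) :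
    ∃ P' : Subgroup G, P'.FG ∧ P'.map f = P := by
  obtain ⟨S, hS, hfin⟩ := (Subgroup.fg_iff P).1 h
  refine ⟨Subgroup.closure (Function.surjInv hf '' S),
    (Subgroup.fg_iff _).2 ⟨_, rfl, hfin.image _⟩, ?_⟩
  rw [MonoidHom.map_closure, Set.image_image, ← hS]
  simp [Function.surjInv_eq]

theorem LocNoeth.of_inj (h : LocNoeth G) (f : H →* G) (hf : Function.Injective f) :
    LocNoeth H := fun _ hP _ hK =>
  fg_of_map_inj f hf (h _ (H7.fg_map hP f) _ (Subgroup.map_mono hK))

theorem LocNoeth.of_surj (h : LocNoeth G) (f : G →* Q) (hf : Function.Surjective f) :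
    LocNoeth Q := fun P hP K hK => by
  obtain ⟨P', h1, rfl⟩ := exists_fg_lift f hf hP
  have h2 := H7.fg_map (h P' h1 (K.comap f ⊓ P') inf_le_right) f
  have h3 : (K.comap f ⊓ P').map f = K := le_antisymm
    (fun x ⟨y, hy, e⟩ => e ▸ hy.1) fun x hx => by
      obtain ⟨y, hy, e⟩ := hK hx
      exact ⟨y, ⟨by rw [← e] at hx; exact hx, hy⟩, e⟩
  rwa [h3] at h2

theorem LocNoeth.sub (h : LocNoeth G) (K : Subgroup G) : LocNoeth K :=
  h.of_inj K.subtype K.subtype_injective

theorem LVA.va (h : LVA G) (P : Subgroup G) (hP : P.FG) : VA P := by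
  obtain ⟨T, rfl⟩ := hP
  exact h T

theorem LVA.of_fg (h : ∀ P : Subgroup G, P.FG → VA P) : LVA G := fun T => h _ ⟨T, rfl⟩

theorem LVA.of_inj (h : LVA G) (f : H →* G) (hf : Function.Injective f) : LVA H :=
  LVA.of_fg fun P hP => (h.va _ (H7.fg_map hP f)).of_inj
    (P.equivMapOfInjective f hf).toMonoidHom (P.equivMapOfInjective f hf).injective

theorem LVA.of_surj (h : LVA G) (f : G →* Q) (hf : Function.Surjective f) : LVA Q :=
  LVA.of_fg fun P hP => by
    obtain ⟨P', h1, rfl⟩ := exists_fg_lift f hf hP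
    exact (h.va P' h1).of_surj (f.subgroupMap P') (f.subgroupMap_surjective P')

/-- In a locally abelian-by-finite group any two elements have commuting powers. -/
theorem LVA.pow_comm (h : LVA G) (a b : G) : ∃ m : ℕ, 0 < m ∧ a ^ m * b ^ m = b ^ m * a ^ m := by
  classical
  obtain ⟨A, hA, hA', hc⟩ := h {a, b}
  have ha : a ∈ Subgroup.closure (↑({a, b} : Finset G) : Set G) := Subgroup.subset_closure (by simp)
  have hb : b ∈ Subgroup.closure (↑({a, b} : Finset G) : Set G) := Subgroup.subset_closure (by simp)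
  exact ⟨A.index, Nat.pos_of_ne_zero hA'.index_ne_zero, congrArg Subtype.val
    (hc _ (A.pow_index_mem ⟨a, ha⟩) _ (A.pow_index_mem ⟨b, hb⟩))⟩

variable {p : ℕ} [Fact p.Prime] {lva : Prop}

theorem Hyp.of_inj (h : Hyp p lva G) (f : H →* G) (hf : Function.Injective f) : Hyp p lva H :=
  haveI := h.1
  ⟨Group.isSolvable_of_isSolvable_injective hf, h.2.1.of_inj f hf, fun l => (h.2.2 l).of_inj f hf⟩

theorem Hyp.of_surj (h : Hyp p lva G) (f : G →* Q) (hf : Function.Surjective f) : Hyp p lva Q :=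
  haveI := h.1
  ⟨Group.isSolvable_of_surjective hf, h.2.1.of_surj f hf, fun l => (h.2.2 l).of_surj f hf⟩

theorem Hyp.sub (h : Hyp p lva G) (K : Subgroup G) : Hyp p lva K :=
  h.of_inj K.subtype K.subtype_injective

theorem Hyp.quot (h : Hyp p lva G) (N : Subgroup G) [N.Normal] : Hyp p lva (G ⧸ N) :=
  h.of_surj (QuotientGroup.mk' N) (QuotientGroup.mk'_surjective N)

omit [Fact p.Prime] in
theorem IHy.mono {B B' : Subgroup G} (h : IHy p lva B) (hB : B ≤ B') : IHy p lva B' :=
  fun K Q _ f hf hk => h K Q f hf fun x hx => hk x (hB hx)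

theorem GenC.of_inj (h : GenC G) (f : H →* G) (hf : Function.Injective f) : GenC H := by
  intro K Q _ φ hφ
  exact h (K.map f) Q (φ.comp (K.equivMapOfInjective f hf).symm.toMonoidHom)
    (hφ.comp (K.equivMapOfInjective f hf).symm.surjective)

theorem GenC.of_surj (h : GenC G) (f : G →* Q) (hf : Function.Surjective f) : GenC Q := by
  intro K Q' _ φ hφ
  exact h (K.comap f) Q' (φ.comp (f.subgroupComap K))
    (hφ.comp (f.subgroupComap_surjective_of_surjective K hf))

end Her

section Comm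

variable {G : Type} [Group G]

/-- the commutative group structure on an abelian subgroup -/
@[reducible] def Cm.commGroup {B : Subgroup G} (h : Cm B B) : CommGroup B :=
  { (inferInstance : Group B) with mul_comm := fun a b => Subtype.ext (h a a.2 b b.2) }

/-- the `m`-th powers in an abelian subgroup -/
def Cm.pw {B : Subgroup G} (h : Cm B B) (m : ℕ) : Subgroup G where
  carrier := {x | ∃ b ∈ B, x = b ^ m}
  mul_mem' := by
    rintro _ _ ⟨a, ha, rfl⟩ ⟨b, hb, rfl⟩
    exact ⟨a * b, B.mul_mem ha hb, ((show Commute a b from h a ha b hb).mul_pow m).symm⟩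
  one_mem' := ⟨1, B.one_mem, (one_pow m).symm⟩
  inv_mem' := by
    rintro _ ⟨a, ha, rfl⟩
    exact ⟨a⁻¹, B.inv_mem ha, (inv_pow a m).symm⟩

theorem Cm.mem_pw {B : Subgroup G} (h : Cm B B) {m : ℕ} {x : G} :
    x ∈ h.pw m ↔ ∃ b ∈ B, x = b ^ m := Iff.rfl

theorem Cm.pw_le {B : Subgroup G} (h : Cm B B) (m : ℕ) : h.pw m ≤ B := by
  rintro _ ⟨a, ha, rfl⟩
  exact B.pow_mem ha m

theorem Cm.pw_nz {B K : Subgroup G} (h : Cm B B) (m : ℕ) (hK : Nz B K) : Nz (h.pw m) K := by
  rintro k hk _ ⟨a, ha, rfl⟩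
  exact ⟨k * a * k⁻¹, hK k hk a ha, (conj_pow).symm⟩

theorem Nz.normal {B : Subgroup G} (h : Nz B ⊤) : B.Normal := ⟨fun b hb g => h g trivial b hb⟩

theorem nz_of_normal (B : Subgroup G) [hB : B.Normal] (K : Subgroup G) : Nz B K :=
  fun k _ b hb => hB.conj_mem b hb k

theorem Nz.normal_subgroupOf {B K : Subgroup G} (h : Nz B K) : (B.subgroupOf K).Normal :=
  ⟨fun b hb k => h k k.2 b hb⟩

theorem Cm.pw_normal {B : Subgroup G} [B.Normal] (h : Cm B B) (m : ℕ) : (h.pw m).Normal :=
  (h.pw_nz m (nz_of_normal B ⊤)).normal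

/-- the elements of `p`-power order in an abelian subgroup -/
def Cm.ptor {B : Subgroup G} (h : Cm B B) (p : ℕ) : Subgroup G where
  carrier := {x | x ∈ B ∧ ∃ j : ℕ, x ^ p ^ j = 1}
  mul_mem' := by
    rintro a b ⟨ha, i, hi⟩ ⟨hb, j, hj⟩
    refine ⟨B.mul_mem ha hb, i + j, ?_⟩
    rw [(show Commute a b from h a ha b hb).mul_pow, pow_add, pow_mul, hi, one_pow, mul_comm (p ^ i),
      pow_mul, hj, one_pow, one_mul]
  one_mem' := ⟨B.one_mem, 0, one_pow _⟩
  inv_mem' := by
    rintro a ⟨ha, j, hj⟩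
    exact ⟨B.inv_mem ha, j, by rw [inv_pow, hj, inv_one]⟩

theorem NoP.noPT {p : ℕ} (h : NoP p G) {B : Subgroup G} (hB : B.Normal) (hc : Cm B B) :
    NoPT p B := by
  intro b hb hp
  have h1 : hc.ptor p = ⊥ := h _
    ⟨fun x ⟨hx, j, hj⟩ g => ⟨hB.conj_mem x hx g, j, by rw [conj_pow, hj]; simp⟩⟩
    fun ⟨x, _, j, hj⟩ => ⟨j, Subtype.ext hj⟩
  have h2 : b ∈ hc.ptor p := ⟨hb, 1, by rw [pow_one, hp]⟩
  rwa [h1] at h2

theorem NoPT.pow_pow {p : ℕ} {B : Subgroup G} (h : NoPT p B) {b : G} (hb : b ∈ B) (j : ℕ)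
    (hj : b ^ p ^ j = 1) : b = 1 := by
  induction j with
  | zero => simpa using hj
  | succ j ih => exact ih (h _ (B.pow_mem hb _) (by rw [← pow_mul, ← pow_succ, hj]))

/-- a positive power splits into a `p`-power and a power prime to `p` -/
theorem primeTo_of_pow {p : ℕ} [hp : Fact p.Prime] {D : Subgroup G} {b : G} {m : ℕ} (hm : 0 < m)
    (hb : b ^ m ∈ D) (hD : ∀ (n j : ℕ), (b ^ n) ^ p ^ j ∈ D → b ^ n ∈ D) : PrimeTo p D b := by
  obtain ⟨j, m', h1, h2⟩ := Nat.exists_eq_pow_mul_and_not_dvd hm.ne' p hp.out.ne_one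
  refine ⟨m', Nat.pos_of_ne_zero fun e => h1 (by simp [e]),
    ((Nat.Prime.coprime_iff_not_dvd hp.out).2 h1).symm, hD m' j ?_⟩
  rwa [← pow_mul, mul_comm, ← h2]

theorem NoPT.primeTo {p : ℕ} [Fact p.Prime] {B : Subgroup G} (h : NoPT p B) {b : G} (hb : b ∈ B)
    (hf : IsOfFinOrder b) : PrimeTo p ⊥ b := by
  obtain ⟨m, hm, e⟩ := isOfFinOrder_iff_pow_eq_one.1 hf
  exact primeTo_of_pow hm e fun n j hj => h.pow_pow (B.pow_mem hb n) j hj

variable {K : Type} [Field K]

theorem IsCh.ne_zero {B : Subgroup G} {ψ : G → K} (h : IsCh B ψ) {b : G} (hb : b ∈ B) :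
    ψ b ≠ 0 := fun e => by
  have := h.2 b hb b⁻¹ (B.inv_mem hb)
  rw [mul_inv_cancel, h.1, e, zero_mul] at this
  exact one_ne_zero this

/-- the homomorphism given by a character -/
noncomputable def IsCh.hom {B : Subgroup G} {ψ : G → K} (h : IsCh B ψ) : B →* Kˣ where
  toFun b := Units.mk0 (ψ b) (h.ne_zero b.2)
  map_one' := Units.ext h.1
  map_mul' a b := Units.ext (h.2 a a.2 b b.2)

theorem IsCh.hom_apply {B : Subgroup G} {ψ : G → K} (h : IsCh B ψ) (b : B) :
    (h.hom b : K) = ψ b := rfl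

theorem exists_isCh {B : Subgroup G} (χ : B →* Kˣ) :
    ∃ ψ : G → K, IsCh B ψ ∧ ∀ b : B, ψ b = χ b := by
  classical
  refine ⟨fun g => if h : g ∈ B then χ ⟨g, h⟩ else 0, ⟨?_, fun a ha b hb => ?_⟩, fun b => ?_⟩
  · beta_reduce
    rw [dif_pos B.one_mem]
    exact congrArg Units.val χ.map_one
  · beta_reduce
    rw [dif_pos (B.mul_mem ha hb), dif_pos ha, dif_pos hb]
    exact congrArg Units.val (χ.map_mul ⟨a, ha⟩ ⟨b, hb⟩)
  · exact dif_pos b.2

end Comm

section Lin

/-- a common eigenvector of a commuting family in a finite dimensional invariant subspace -/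
theorem exists_eigen {ι K V : Type} [Field K] [IsAlgClosed K] [AddCommGroup V] [Module K V]
    (A : ι → Module.End K V) (U : Submodule K V) [FiniteDimensional K U] (hU : U ≠ ⊥)
    (hA : ∀ i j, ∀ u ∈ U, A i (A j u) = A j (A i u)) (hi : ∀ i, ∀ u ∈ U, A i u ∈ U) :
    ∃ u ∈ U, u ≠ 0 ∧ ∀ i, ∃ c : K, A i u = c • u := by
  obtain ⟨n, hn⟩ : ∃ n, Module.finrank K U = n := ⟨_, rfl⟩
  induction n using Nat.strong_induction_on generalizing U with
  | _ n ih =>
    by_cases h : ∀ i, ∃ c : K, ∀ u ∈ U, A i u = c • u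
    · obtain ⟨u, hu, u0⟩ := (Submodule.ne_bot_iff U).1 hU
      exact ⟨u, hu, u0, fun i => (h i).imp fun c hc => hc u hu⟩
    · push Not at h
      obtain ⟨i, h⟩ := h
      have : Nontrivial U := Submodule.nontrivial_iff_ne_bot.2 hU
      obtain ⟨c, hc⟩ := Module.End.exists_eigenvalue ((A i).restrict (hi i))
      obtain ⟨w, hw⟩ := hc.exists_hasEigenvector
      let U' : Submodule K V := U ⊓ LinearMap.ker (A i - c • 1)
      have mem : ∀ x, x ∈ U' ↔ x ∈ U ∧ A i x = c • x := fun x => by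
        simp [U', sub_eq_zero]
      have hle : U' ≤ U := inf_le_left
      have : FiniteDimensional K U' := Submodule.finiteDimensional_of_le hle
      obtain ⟨x, hx, hx'⟩ := h c
      have hlt : U' < U := lt_of_le_of_ne hle fun e => hx' ((mem x).1 (e.symm ▸ hx)).2
      obtain ⟨u, hu, h'⟩ := ih _ (hn ▸ Submodule.finrank_lt_finrank_of_lt hlt) U'
        ((Submodule.ne_bot_iff _).2 ⟨w, (mem w).2 ⟨w.2, congrArg Subtype.val hw.apply_eq_smul⟩,
          fun e => hw.2 (Subtype.ext e)⟩)
        (fun a b u hu => hA a b u (hle hu))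
        (fun j u hu => (mem _).2 ⟨hi j u (hle hu), by
          rw [hA i j u (hle hu), ((mem u).1 hu).2, map_smul]⟩) rfl
      exact ⟨u, hle hu, h'⟩

theorem absolute_of_algebraic (p : ℕ) [Fact p.Prime] (k : Type) [Field k] [Algebra (ZMod p) k]
    [Algebra.IsAlgebraic (ZMod p) k] : Absolute k := fun x hx => by
  have : FiniteDimensional (ZMod p) (IntermediateField.adjoin (ZMod p) {x}) :=
    IntermediateField.adjoin.finiteDimensional (Algebra.IsIntegral.isIntegral x)
  have : Finite (IntermediateField.adjoin (ZMod p) {x}) := Module.finite_of_finite (ZMod p)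
  let y : IntermediateField.adjoin (ZMod p) {x} :=
    ⟨x, IntermediateField.mem_adjoin_simple_self _ x⟩
  have hy : y ≠ 0 := fun e => hx (congrArg Subtype.val e)
  obtain ⟨m, hm, e⟩ := isOfFinOrder_iff_pow_eq_one.1 (isOfFinOrder_of_finite (Units.mk0 y hy))
  exact isOfFinOrder_iff_pow_eq_one.2 ⟨m, hm, congrArg (Subtype.val ∘ Units.val) e⟩

theorem absolute_kp (p : ℕ) [Fact p.Prime] : Absolute (Kp p) := absolute_of_algebraic p _

theorem Absolute.isAlgebraic {F k : Type} [Field F] [Field k] [Algebra F k] (h : Absolute k) :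
    Algebra.IsAlgebraic F k := ⟨fun x => by
  by_cases hx : x = 0
  · exact hx ▸ isAlgebraic_zero
  · obtain ⟨m, hm, e⟩ := isOfFinOrder_iff_pow_eq_one.1 (h x hx)
    exact IsAlgebraic.of_pow hm (e ▸ isAlgebraic_one)⟩

end Lin

section Rep

variable {k G M : Type} [Field k] [Group G] [AddCommGroup M] [Module k M]
  {ρ : Representation k G M}

theorem rep_mul (ρ : Representation k G M) (g h : G) (u : M) : ρ (g * h) u = ρ g (ρ h u) := by
  rw [map_mul]; rfl

theorem rep_inv (ρ : Representation k G M) (g : G) (u : M) : ρ g⁻¹ (ρ g u) = u := by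
  rw [← rep_mul, inv_mul_cancel, map_one]; rfl

theorem rep_inv' (ρ : Representation k G M) (g : G) (u : M) : ρ g (ρ g⁻¹ u) = u := by
  rw [← rep_mul, mul_inv_cancel, map_one]; rfl

theorem invS_genS (ρ : Representation k G M) (H : Subgroup G) (T : Set M) :
    InvS ρ H (genS ρ H T) := fun g hg u hu => by
  induction hu using Submodule.span_induction with
  | mem x hx =>
    obtain ⟨h, hh, t, ht, rfl⟩ := hx
    exact Submodule.subset_span ⟨g * h, H.mul_mem hg hh, t, ht, (rep_mul ρ g h t).symm⟩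
  | zero => rw [map_zero]; exact zero_mem _
  | add x y _ _ hx hy => rw [map_add]; exact add_mem hx hy
  | smul c x _ hx => rw [map_smul]; exact Submodule.smul_mem _ c hx

theorem mem_genS (ρ : Representation k G M) (H : Subgroup G) {T : Set M} {t : M} (ht : t ∈ T) :
    t ∈ genS ρ H T := Submodule.subset_span ⟨1, H.one_mem, t, ht, by rw [map_one]; rfl⟩

theorem genS_le {H : Subgroup G} {T : Set M} {U : Submodule k M} (hU : InvS ρ H U)
    (hT : ∀ t ∈ T, t ∈ U) : genS ρ H T ≤ U :=
  Submodule.span_le.2 fun _ ⟨g, hg, t, ht, e⟩ => e ▸ hU g hg t (hT t ht)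

theorem gen_eq (ρ : Representation k G M) (T : Set M) : gen ρ T = genS ρ ⊤ T := by
  simp [gen, genS]

theorem inv_iff {U : Submodule k M} : Inv ρ U ↔ InvS ρ ⊤ U :=
  ⟨fun h g _ => h g, fun h g => h g trivial⟩

theorem inv_gen (ρ : Representation k G M) (T : Set M) : Inv ρ (gen ρ T) := by
  rw [gen_eq]; exact inv_iff.2 (invS_genS ρ ⊤ T)

theorem mem_gen (ρ : Representation k G M) {T : Set M} {t : M} (ht : t ∈ T) : t ∈ gen ρ T := by
  rw [gen_eq]; exact mem_genS ρ ⊤ ht

theorem gen_le {T : Set M} {U : Submodule k M} (hU : Inv ρ U) (hT : ∀ t ∈ T, t ∈ U) :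
    gen ρ T ≤ U := by
  rw [gen_eq]; exact genS_le (inv_iff.1 hU) hT

theorem Irr.gen_top (h : Irr ρ) {v : M} (hv : v ≠ 0) : gen ρ {v} = ⊤ :=
  (h.2 _ (inv_gen ρ _)).resolve_left fun e =>
    hv ((Submodule.eq_bot_iff _).1 e v (mem_gen ρ rfl))

/-- a normal subgroup with a nonzero fixed vector acts trivially -/
theorem Irr.fix (h : Irr ρ) (N : Subgroup G) [hN : N.Normal] {u : M} (hu : u ≠ 0)
    (hf : ∀ n ∈ N, ρ n u = u) : ∀ n ∈ N, ρ n = 1 := by
  let U : Submodule k M :=
    { carrier := {x | ∀ n ∈ N, ρ n x = x}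
      add_mem' := fun {x y} hx hy n hn => by rw [map_add, hx n hn, hy n hn]
      zero_mem' := fun n _ => map_zero _
      smul_mem' := fun c x hx n hn => by rw [map_smul, hx n hn] }
  have hU : Inv ρ U := fun g x hx n hn => by
    have h1 := hx _ (hN.conj_mem' n hn g)
    rw [rep_mul, rep_mul] at h1
    conv_rhs => rw [← h1, rep_inv']
  have h2 : U = ⊤ := (h.2 U hU).resolve_left fun e => hu ((Submodule.eq_bot_iff _).1 e u hf)
  exact fun n hn => LinearMap.ext fun x => (show x ∈ U from h2 ▸ Submodule.mem_top) n hn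

theorem inv_aug (ρ : Representation k G M) (N : Subgroup G) [hN : N.Normal] {U : Submodule k M}
    (hU : Inv ρ U) : Inv ρ (aug ρ N U) := fun g u hu => by
  induction hu using Submodule.span_induction with
  | mem x hx =>
    obtain ⟨a, ha, w, hw, rfl⟩ := hx
    refine Submodule.subset_span ⟨g * a * g⁻¹, hN.conj_mem a ha g, ρ g w, hU g w hw, ?_⟩
    rw [map_sub, rep_mul, rep_inv, rep_mul]
  | zero => rw [map_zero]; exact zero_mem _
  | add x y _ _ hx hy => rw [map_add]; exact add_mem hx hy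
  | smul c x _ hx => rw [map_smul]; exact Submodule.smul_mem _ c hx

/-- a normal subgroup acts trivially, or its augmentation ideal acts onto -/
theorem Irr.aug_top (h : Irr ρ) (N : Subgroup G) [N.Normal] :
    (∀ n ∈ N, ρ n = 1) ∨ aug ρ N ⊤ = ⊤ :=
  (h.2 _ (inv_aug ρ N (U := ⊤) fun _ _ _ => trivial)).imp_left fun e n hn =>
    LinearMap.ext fun x => by
      have h1 : ρ n x - x ∈ aug ρ N ⊤ := Submodule.subset_span ⟨n, hn, x, trivial, rfl⟩
      rw [e] at h1
      exact sub_eq_zero.1 h1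

/-- descent to a quotient group -/
theorem Irr.descend (h : Irr ρ) {Q : Type} [Group Q] (f : G →* Q) (hf : Function.Surjective f)
    (hk : ∀ g, f g = 1 → ρ g = 1) :
    ∃ σ : Representation k Q M, Irr σ ∧ ∀ g, σ (f g) = ρ g := by
  have key : ∀ g g', f g = f g' → ρ g = ρ g' := fun g g' e => by
    have h1 : ρ (g * g'⁻¹) = 1 := hk _ (by rw [map_mul, map_inv, e, mul_inv_cancel])
    rw [← inv_mul_cancel_right g g', map_mul, h1, one_mul]
  let σ : Representation k Q M :=
    { toFun := fun q => ρ (Function.surjInv hf q)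
      map_one' := hk _ (Function.surjInv_eq hf 1)
      map_mul' := fun a b => by
        rw [← map_mul]
        exact key _ _ (by simp only [map_mul, Function.surjInv_eq]) }
  have hσ : ∀ g, σ (f g) = ρ g := fun g => key _ _ (Function.surjInv_eq hf _)
  exact ⟨σ, ⟨h.1, fun U hU => h.2 U fun g u hu => hσ g ▸ hU (f g) u hu⟩, hσ⟩

/-- a finitely generated representation has an irreducible quotient that kills a given proper
invariant subspace -/
theorem exists_irr_quot (ρ : Representation k G M) (T : Finset M) (hT : gen ρ ↑T = ⊤)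
    (U₀ : Submodule k M) (h₀ : Inv ρ U₀) (h₁ : U₀ ≠ ⊤) :
    ∃ (U : Submodule k M) (hU : Inv ρ U), U₀ ≤ U ∧ Irr (ρ.quotient U hU) := by
  obtain ⟨U, hU₀, hU⟩ := zorn_le_nonempty₀ {U : Submodule k M | Inv ρ U ∧ U ≠ ⊤}
    (fun c hc hch y hy => by
      have hne : c.Nonempty := ⟨y, hy⟩
      refine ⟨sSup c, ⟨fun g u hu => ?_, fun e => ?_⟩, fun z hz => le_sSup hz⟩
      · obtain ⟨z, hz, hu⟩ := (Submodule.mem_sSup_of_directed hne hch.directedOn).1 hu
        exact le_sSup hz ((hc hz).1 g u hu)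
      · have h2 : Submodule.span k (↑T : Set M) ≤ sSup c := e ▸ le_top
        obtain ⟨z, hz, h3⟩ := (CompleteLattice.isCompactElement_iff_le_of_directed_sSup_le _ _).1
          (Submodule.finite_span_isCompactElement _ T.finite_toSet) c hne hch.directedOn h2
        exact (hc hz).2 (top_le_iff.1 (hT ▸ gen_le (hc hz).1 fun t ht =>
          h3 (Submodule.subset_span ht)))) U₀ ⟨h₀, h₁⟩
  refine ⟨U, hU.prop.1, hU₀, Submodule.Quotient.nontrivial_iff.2 hU.prop.2, fun V hV => ?_⟩
  by_cases e : V.comap U.mkQ = ⊤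
  · right
    rw [← Submodule.map_comap_eq_of_surjective U.mkQ_surjective V, e, Submodule.map_top,
      Submodule.range_mkQ]
  · left
    have h2 : V.comap U.mkQ ≤ U :=
      hU.le_of_ge ⟨fun g u hu => hV g _ hu, e⟩ (Submodule.le_comap_mkQ U V)
    refine (Submodule.eq_bot_iff _).2 fun x hx => ?_
    obtain ⟨y, rfl⟩ := U.mkQ_surjective x
    exact (Submodule.Quotient.mk_eq_zero U).2 (h2 hx)

/-- the representation of a subgroup on an invariant subspace -/
def InvS.rep {H : Subgroup G} {U : Submodule k M} (h : InvS ρ H U) : Representation k H U :=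
  Representation.subrepresentation (ρ.comp H.subtype) U fun g => h g g.2

theorem InvS.rep_apply {H : Subgroup G} {U : Submodule k M} (h : InvS ρ H U) (g : H) (u : U) :
    (h.rep g u : M) = ρ g u := rfl

theorem gen_rep_genS (ρ : Representation k G M) (H : Subgroup G) (v : M) :
    gen (invS_genS ρ H {v}).rep {⟨v, mem_genS ρ H rfl⟩} = ⊤ := by
  refine top_le_iff.1 fun ⟨u, hu⟩ _ => ?_
  induction hu using Submodule.span_induction with
  | mem x hx =>
    obtain ⟨g, hg, t, rfl, rfl⟩ := hx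
    exact Submodule.subset_span ⟨⟨g, hg⟩, _, rfl, rfl⟩
  | zero => exact zero_mem _
  | add x y _ _ hx hy => exact add_mem (hx trivial) (hy trivial)
  | smul c x _ hx => exact Submodule.smul_mem _ c (hx trivial)

end Rep

end Pool.Agent.MP_6a4325_al.H62
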