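import Pool.Agent.MP_6a4325_al.H62.Base2

/-!
The largest normal `p`-subgroup, and extensions of central subgroups by `p`-groups.
-/

set_option autoImplicit false

namespace Pool.Agent.MP_6a4325_al.H62

theorem op : SOp := by
  intro p _ G _
  let c : Set (Subgroup G) := {S | S.Normal ∧ IsPGroup p S}
  have hd : DirectedOn (· ≤ ·) c := fun a ha b hb =>
    haveI := ha.1
    haveI := hb.1
    ⟨a ⊔ b, ⟨inferInstance, ha.2.to_sup_of_normal_left hb.2⟩, le_sup_left, le_sup_right⟩
  have hne : c.Nonempty := ⟨⊥, inferInstance, IsPGroup.of_bot⟩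
  have hmem : ∀ x, x ∈ sSup c ↔ ∃ S ∈ c, x ∈ S := fun x =>
    Subgroup.mem_sSup_of_directedOn hne hd
  have hn : (sSup c).Normal := ⟨fun x hx g => by
    obtain ⟨S, hS, h⟩ := (hmem x).1 hx
    exact (hmem _).2 ⟨S, hS, hS.1.conj_mem x h g⟩⟩
  have hp : IsPGroup p (sSup c : Subgroup G) := fun ⟨x, hx⟩ => by
    obtain ⟨S, hS, h⟩ := (hmem x).1 hx
    obtain ⟨j, hj⟩ := hS.2 ⟨x, h⟩
    exact ⟨j, Subtype.ext (congrArg Subtype.val hj :)⟩
  refine ⟨sSup c, hn, hp, fun T hT hT' => ?_⟩
  have h1 : T.comap (QuotientGroup.mk' (sSup c)) ≤ sSup c := le_sSup ⟨inferInstance,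
    hT'.comap_of_ker_isPGroup _ (by rwa [QuotientGroup.ker_mk'])⟩
  refine (Subgroup.eq_bot_iff_forall _).2 fun x hx => ?_
  obtain ⟨y, rfl⟩ := QuotientGroup.mk_surjective x
  exact (QuotientGroup.eq_one_iff y).2 (h1 hx)

variable {G : Type} [Group G]

/-- the commutator with a power, when the commutator commutes with the element -/
theorem comm_pow_right {c x : G} (h : Commute (c * x * c⁻¹ * x⁻¹) x) (m : ℕ) :
    (c * x * c⁻¹ * x⁻¹) ^ m = c * x ^ m * c⁻¹ * (x ^ m)⁻¹ := by
  rw [← conj_pow, eq_mul_inv_iff_mul_eq, ← h.mul_pow, inv_mul_cancel_right]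

theorem cent : SCent := by
  intro p _ G _ hG hP A C₁ C hA hC₁ hC h1 h2 hc hj
  have key : ∀ X Y : Subgroup G, X.Normal → Cm X X → Y ≤ C₁ → ∀ c ∈ C, ∀ x ∈ Y,
      c * x * c⁻¹ * x⁻¹ ∈ X → Commute (c * x * c⁻¹ * x⁻¹) x → x * c = c * x := by
    intro X Y hX hXc hY c hc' x hx hm hcm
    obtain ⟨j, hj⟩ := hj x (hY hx)
    have h3 := comm_pow_right hcm (p ^ j)
    rw [← hc _ hj c hc', mul_inv_cancel_right, mul_inv_cancel] at h3
    have h4 := (hP.noPT hX hXc).pow_pow hm j h3
    rw [mul_inv_eq_one, mul_inv_eq_iff_eq_mul] at h4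
    exact h4.symm
  let D : ℕ → Subgroup G := fun d => Nat.rec C₁ (fun _ X => ⁅X, X⁆) d
  have hDn : ∀ d, (D d).Normal := fun d => by
    induction d with
    | zero => exact hC₁
    | succ d ih => exact Subgroup.commutator_normal _ _
  have hDle : ∀ d, D d ≤ C₁ := fun d => by
    induction d with
    | zero => exact le_rfl
    | succ d ih =>
      have := hDn d
      exact (Subgroup.commutator_le_left _ _).trans ih
  have hDd : ∀ d, D d ≤ derivedSeries G d := fun d => by
    induction d with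
    | zero => exact le_top
    | succ d ih => exact Subgroup.commutator_mono ih ih
  have step : ∀ d, Cm (D (d + 1)) C → Cm (D d) C := fun d ih => by
    have hmem : ∀ x ∈ D d, ∀ y ∈ D d, x * y * x⁻¹ * y⁻¹ ∈ D (d + 1) := fun x hx y hy =>
      Subgroup.commutator_mem_commutator hx hy
    have hab : Cm (D d) (D d) := fun x hx y hy =>
      key (D (d + 1)) (D d) (hDn (d + 1)) (fun a ha b hb => ih a ha b (h2 (hDle (d + 1) hb))) (hDle d) y
        (h2 (hDle d hy)) x hx (hmem y hy x hx) (ih _ (hmem y hy x hx) x (h2 (hDle d hx)))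
    intro x hx c hc'
    have hm : c * x * c⁻¹ * x⁻¹ ∈ D d :=
      (D d).mul_mem ((hDn d).conj_mem x hx c) ((D d).inv_mem hx)
    exact key (D d) (D d) (hDn d) hab (hDle d) c hc' x hx hm (hab _ hm x hx)
  obtain ⟨n, hn⟩ := hG.solvable
  have last : Cm (D n) C := fun a ha b _ => by
    have h3 := hDd n ha
    rw [hn, Subgroup.mem_bot] at h3
    rw [h3, one_mul, mul_one]
  have all : ∀ d, Cm (D d) C → Cm C₁ C := fun d => by
    induction d with
    | zero => exact id
    | succ d ih => exact fun h => ih (step d h)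
  exact all n last

end Pool.Agent.MP_6a4325_al.H62
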