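import Pool.Agent.MP_6a4325_al.H62.Base2

/-!
Admissible characters of abelian normal subgroups have finite orbits.
-/

set_option autoImplicit false

namespace Pool.Agent.MP_6a4325_al.H62

open Matrix

variable {F K G : Type} [Field F] [Field K] [Algebra F K] [Group G] {B : Subgroup G}

theorem Supp.ind {P : MonoidAlgebra F G → Prop} (h0 : P 0) (ha : ∀ x y, P x → P y → P (x + y))
    (hs : ∀ a ∈ B, ∀ c, P (MonoidAlgebra.single a c)) {x : MonoidAlgebra F G} (hx : Supp B x) :
    P x := by
  rw [← MonoidAlgebra.sum_coeff_single x]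
  exact Finset.sum_induction _ P ha h0 fun a h => hs a (hx a h) _

theorem evc_add (ψ : G → K) (g : G) (x y : MonoidAlgebra F G) :
    evc ψ g (x + y) = evc ψ g x + evc ψ g y := by
  unfold evc
  rw [MonoidAlgebra.coeff_add, Finsupp.sum_add_index' (by simp) (by simp [add_smul])]

theorem evc_zero (ψ : G → K) (g : G) : evc ψ g (0 : MonoidAlgebra F G) = 0 := by simp [evc]

theorem evc_single (ψ : G → K) (g a : G) (c : F) :
    evc ψ g (MonoidAlgebra.single a c) = c • ψ (g * a * g⁻¹) := by
  unfold evc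
  rw [MonoidAlgebra.coeff_single, Finsupp.sum_single_index (by simp)]

theorem evc_sub (ψ : G → K) (g : G) (x y : MonoidAlgebra F G) :
    evc ψ g (x - y) = evc ψ g x - evc ψ g y := by
  rw [eq_sub_iff_add_eq, ← evc_add, sub_add_cancel]

theorem evc_mul {ψ : G → K} (hψ : IsCh B ψ) {x y : MonoidAlgebra F G} (hx : Supp B x)
    (hy : Supp B y) : evc ψ 1 (x * y) = evc ψ 1 x * evc ψ 1 y := by
  refine hx.ind (P := fun x => evc ψ 1 (x * y) = evc ψ 1 x * evc ψ 1 y) (by simp [evc_zero])
    (fun a b ha hb => by rw [add_mul, evc_add, evc_add, ha, hb, add_mul]) fun a ha c => ?_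
  refine hy.ind (P := fun y => evc ψ 1 (MonoidAlgebra.single a c * y) =
    evc ψ 1 (MonoidAlgebra.single a c) * evc ψ 1 y) (by simp [evc_zero])
    (fun a b ha hb => by rw [mul_add, evc_add, evc_add, ha, hb, mul_add]) fun b hb d => ?_
  simp only [MonoidAlgebra.single_mul_single, evc_single, one_mul, inv_one, mul_one,
    hψ.2 a ha b hb, smul_mul_smul_comm]

theorem supp_single {a : G} (ha : a ∈ B) (c : F) : Supp B (MonoidAlgebra.single a c) :=
  fun g hg => by
    rw [MonoidAlgebra.coeff_single] at hg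
    rwa [Finset.mem_singleton.1 (Finsupp.support_single_subset hg)]

theorem Supp.add {x y : MonoidAlgebra F G} (hx : Supp B x) (hy : Supp B y) : Supp B (x + y) := by
  classical
  intro g hg
  rw [MonoidAlgebra.coeff_add] at hg
  exact (Finset.mem_union.1 (Finsupp.support_add hg)).elim (hx g) (hy g)

theorem Supp.sub {x y : MonoidAlgebra F G} (hx : Supp B x) (hy : Supp B y) : Supp B (x - y) := by
  classical
  intro g hg
  rw [MonoidAlgebra.coeff_sub] at hg
  exact (Finset.mem_union.1 (Finsupp.support_sub hg)).elim (hx g) (hy g)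

theorem supp_zero : Supp B (0 : MonoidAlgebra F G) := fun g hg => by simp at hg

theorem Supp.mul {x y : MonoidAlgebra F G} (hx : Supp B x) (hy : Supp B y) : Supp B (x * y) := by
  refine hx.ind (P := fun x => Supp B (x * y)) (by simpa using supp_zero)
    (fun a b ha hb => by rw [add_mul]; exact ha.add hb) fun a ha c => ?_
  refine hy.ind (P := fun y => Supp B (MonoidAlgebra.single a c * y)) (by simpa using supp_zero)
    (fun a b ha hb => by rw [mul_add]; exact ha.add hb) fun b hb d => ?_
  rw [MonoidAlgebra.single_mul_single]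
  exact supp_single (B.mul_mem ha hb) _

theorem cl : SCL := by
  classical
  intro F K G _ _ _ _ hW B hB hc ψ hψ hf
  obtain ⟨E, _, _, _, n, ρ, v, hv, hs⟩ := hW.sol_of_fun (fun g => if g ∈ B then ψ g else 0)
    ⟨1, by rw [if_pos B.one_mem, hψ.1]; exact one_ne_zero⟩
  have hX : ∀ x : MonoidAlgebra F G, Supp B x → evc ψ 1 x = 0 → act F ρ x *ᵥ v = 0 :=
    fun x hx h0 => hs x fun g => by
      have key : (x.coeff.sum fun a c => c • (if g * a ∈ B then ψ (g * a) else 0)) =
          (if g ∈ B then ψ g else 0) * evc ψ 1 x := by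
        unfold evc
        rw [Finsupp.sum, Finsupp.sum, Finset.mul_sum]
        refine Finset.sum_congr rfl fun a ha => ?_
        by_cases hg : g ∈ B
        · rw [if_pos hg, if_pos (B.mul_mem hg (hx a ha)), hψ.2 g hg a (hx a ha), one_mul,
            inv_one, mul_one, mul_smul_comm]
        · rw [if_neg hg, if_neg fun h => hg ((B.mul_mem_cancel_right (hx a ha)).1 h), smul_zero,
            zero_mul]
      rw [key, h0, mul_zero]
  let U : Submodule E (Fin n → E) :=
    { carrier := {u | ∀ x : MonoidAlgebra F G, Supp B x → evc ψ 1 x = 0 → act F ρ x *ᵥ u = 0}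
      add_mem' := fun ha hb x h1 h2 => by rw [mulVec_add, ha x h1 h2, hb x h1 h2, add_zero]
      zero_mem' := fun x _ _ => mulVec_zero _
      smul_mem' := fun c u hu x h1 h2 => by rw [mulVec_smul, hu x h1 h2, smul_zero] }
  have hcomm : ∀ b ∈ B, ∀ x : MonoidAlgebra F G, Supp B x → act F ρ x * ρ b = ρ b * act F ρ x :=
    fun b hb x hx => hx.ind (P := fun x => act F ρ x * ρ b = ρ b * act F ρ x) (by simp)
      (fun x y hx hy => by rw [map_add, add_mul, mul_add, hx, hy]) fun a ha c => by
        rw [act_single, smul_mul_assoc, mul_smul_comm, ← map_mul, ← map_mul, hc a ha b hb]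
  obtain ⟨u, hu, u0, he⟩ := exists_eigen (fun b : B => mulVecLin (ρ b)) U
    ((Submodule.ne_bot_iff _).2 ⟨v, hX, hv⟩)
    (fun a b w _ => by
      simp only [mulVecLin_apply, mulVec_mulVec, ← map_mul, hc a a.2 b b.2])
    (fun b w hw x h1 h2 => by
      rw [mulVecLin_apply, mulVec_mulVec, hcomm b b.2 x h1, ← mulVec_mulVec, hw x h1 h2,
        mulVec_zero])
  choose χ hχ using he
  have hχ' : ∀ b : B, ρ b *ᵥ u = χ b • u := hχ
  have canc : ∀ a b : E, a • u = b • u → a = b := fun a b h => smul_left_injective E u0 h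
  let χ' : B →* E :=
    { toFun := χ
      map_one' := canc _ _ (by rw [← hχ', one_smul]; simp)
      map_mul' := fun a b => canc _ _ (by
        rw [← hχ', Subgroup.coe_mul, map_mul, ← mulVec_mulVec, hχ', mulVec_smul, hχ', smul_smul,
          mul_comm]) }
  let cj : G → B →* E := fun g => χ'.comp (MulAut.conjNormal g : MulAut B).toMonoidHom
  have cj_mul : ∀ g h b, cj (g * h) b = cj g (MulAut.conjNormal h b) := fun g h b => by
    simp [cj]
  let N : Subgroup G :=
    { carrier := {g | cj g = cj 1}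
      one_mem' := rfl
      mul_mem' := fun {g h} hg hh => MonoidHom.ext fun b => by
        rw [cj_mul, show cj g = cj 1 from hg, ← cj_mul, one_mul, show cj h = cj 1 from hh]
      inv_mem' := fun {g} hg => MonoidHom.ext fun b => by
        rw [← one_mul g⁻¹, cj_mul, ← show cj g = cj 1 from hg, ← cj_mul, mul_inv_cancel, hg] }
  refine ⟨N, ?_, fun g hg b hb => ?_⟩
  · have hinj : Function.Injective fun q : G ⧸ N => cj q.out⁻¹ := fun q q' e => by
      rw [← q.out_eq', ← q'.out_eq', QuotientGroup.eq]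
      refine MonoidHom.ext fun b => ?_
      rw [cj_mul, show cj q.out⁻¹ = cj q'.out⁻¹ from e, ← cj_mul, inv_mul_cancel]
    have hw : ∀ (g : G) (b : B), ρ b *ᵥ (ρ g *ᵥ u) = cj g⁻¹ b • (ρ g *ᵥ u) := fun g b => by
      rw [← mulVec_smul]
      change _ = ρ g *ᵥ (χ (MulAut.conjNormal g⁻¹ b) • u)
      rw [← hχ', mulVec_mulVec, mulVec_mulVec, ← map_mul, ← map_mul]
      simp [mul_assoc]
    have hli : LinearIndependent E fun q : G ⧸ N => ρ q.out *ᵥ u := by
      refine linearIndependent_iff'.2 fun s c h0 q hq => ?_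
      have h1 : ∀ j, c q * (ρ q.out *ᵥ u) j = 0 := fun j => by
        refine linearIndependent_iff'.1 ((linearIndependent_monoidHom B E).comp _ hinj) s
          (fun q => c q * (ρ q.out *ᵥ u) j) (funext fun b => ?_) q hq
        have h2 := congrArg (fun w => (ρ b *ᵥ w) j) h0
        simp only [mulVec_sum, mulVec_smul, hw, mulVec_zero, Finset.sum_apply, Pi.smul_apply,
          smul_eq_mul, Pi.zero_apply] at h2
        simp only [Finset.sum_apply, Pi.smul_apply, smul_eq_mul, Pi.zero_apply,
          Function.comp_apply]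
        rw [← h2]
        exact Finset.sum_congr rfl fun q _ => by ring
      by_contra hcq
      have h3 : ρ q.out *ᵥ u = 0 := funext fun j => (mul_eq_zero.1 (h1 j)).resolve_left hcq
      have h4 := congrArg (ρ q.out⁻¹ *ᵥ ·) h3
      simp only [mulVec_mulVec, ← map_mul, inv_mul_cancel, map_one, one_mulVec, mulVec_zero] at h4
      exact u0 h4
    have := hli.finite
    exact Subgroup.finiteIndex_of_finite_quotient
  · have hb' := hB.conj_mem b hb g
    let x : MonoidAlgebra F G := MonoidAlgebra.single (g * b * g⁻¹) 1 - MonoidAlgebra.single b 1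
    have hx : Supp B x := (supp_single hb' 1).sub (supp_single hb 1)
    have hxu : act F ρ x *ᵥ u = 0 := by
      have h1 := DFunLike.congr_fun (show cj g = cj 1 from hg) ⟨b, hb⟩
      have h2 : χ ⟨_, hb'⟩ = χ ⟨b, hb⟩ :=
        (show χ (MulAut.conjNormal g ⟨b, hb⟩) = χ ⟨b, hb⟩ by simpa [cj, χ'] using h1)
      rw [map_sub, act_single_one, act_single_one, sub_mulVec, hχ' ⟨_, hb'⟩, hχ' ⟨b, hb⟩, h2,
        sub_self]
    by_contra hne
    obtain ⟨y, hy, e⟩ := hf x hx (by
      simpa [x, evc_sub, evc_single, sub_eq_zero] using hne)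
    have h3 := hu (y * x - MonoidAlgebra.single 1 1) ((hy.mul hx).sub (supp_single B.one_mem 1))
      (by rw [evc_sub, evc_mul hψ hy hx, e, evc_single]; simp [hψ.1])
    rw [map_sub, map_mul, sub_mulVec, ← mulVec_mulVec, hxu, act_single_one] at h3
    simp [u0] at h3

theorem clt : SCL → SCLt := by
  intro h p _ G _ hW B hB hc ψ hψ
  refine h _ _ G hW B hB hc ψ hψ fun x hx h0 => ?_
  obtain ⟨m, hm, e⟩ := isOfFinOrder_iff_pow_eq_one.1 (absolute_kp p _ h0)
  have key : ∀ j : ℕ, Supp B (x ^ j) ∧ evc ψ 1 (x ^ j) = evc ψ 1 x ^ j := fun j => by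
    induction j with
    | zero =>
      rw [pow_zero, pow_zero, MonoidAlgebra.one_def, evc_single]
      exact ⟨supp_single B.one_mem 1, by simp [hψ.1]⟩
    | succ j ih => exact ⟨pow_succ x j ▸ ih.1.mul hx, by
        rw [pow_succ, evc_mul hψ ih.1 hx, ih.2, pow_succ]⟩
  exact ⟨x ^ (m - 1), (key _).1, by rw [(key _).2, ← pow_succ, Nat.sub_add_cancel hm, e]⟩

end Pool.Agent.MP_6a4325_al.H62
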