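import Mathlib

/-!
Definitions used in the statements about property (Z).
-/

set_option autoImplicit false

namespace Pool.Agent.MP_6a4325_al.H62

/-- Property (Z): every simple `F[G]`-module is finite dimensional over the centre of its
endomorphism ring. -/
def PropZ (F G : Type) [Field F] [Group G] : Prop :=
  ∀ (M : Type) [AddCommGroup M] [Module (MonoidAlgebra F G) M],
    IsSimpleModule (MonoidAlgebra F G) M →
      Module.Finite (Subring.center (Module.End (MonoidAlgebra F G) M)) M

/-- Amenability of a discrete group: the Følner condition. -/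
def Amen (G : Type) [Group G] : Prop :=
  ∀ (S : Finset G) (ε : ℝ), 0 < ε → ∃ Φ : Finset G, Φ.Nonempty ∧
    ∀ s ∈ S, (Set.ncard {x : G | x ∈ Φ ∧ s * x ∉ Φ} : ℝ) ≤ ε * Φ.card

/-- Abelian-by-finite: there is an abelian normal subgroup of finite index. -/
def VA (G : Type) [Group G] : Prop :=
  ∃ A : Subgroup G, A.Normal ∧ A.FiniteIndex ∧ ∀ a ∈ A, ∀ b ∈ A, a * b = b * a

/-- Elementary amenable groups: the smallest class that contains the finite groups and the abelian
groups and is closed under subgroups, quotients, extensions and directed unions. -/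
inductive EA : (G : Type) → [Group G] → Prop
  | finite (G : Type) [Group G] : Finite G → EA G
  | abelian (G : Type) [Group G] : (∀ a b : G, a * b = b * a) → EA G
  | sub (G H : Type) [Group G] [Group H] (f : H →* G) : Function.Injective f → EA G → EA H
  | quot (G Q : Type) [Group G] [Group Q] (f : G →* Q) : Function.Surjective f → EA G → EA Q
  | ext (G : Type) [Group G] (N : Subgroup G) [N.Normal] : EA N → EA (G ⧸ N) → EA G
  | union (G : Type) [Group G] (ι : Type) (H : ι → Subgroup G) : Directed (· ≤ ·) H →
      (∀ g : G, ∃ i, g ∈ H i) → (∀ i, EA (H i)) → EA G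

/-- Finite virtual first Betti number: the spaces of homomorphisms `K → ℝ`, for `K` of finite
index, have bounded dimension. -/
def FinVB (G : Type) [Group G] : Prop :=
  ∃ r : ℕ, ∀ K : Subgroup G, K.FiniteIndex → Module.rank ℝ (Additive K →+ ℝ) ≤ r

end Pool.Agent.MP_6a4325_al.H62
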