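import Pool.Agent.MP_6a4325_al.H62.Defs

/-!
Definitions used in the classification of the soluble groups with property (Z).
-/

set_option autoImplicit false

namespace Pool.Agent.MP_6a4325_al.H62

/-- Every subgroup of a finitely generated subgroup is finitely generated (for a soluble group:
locally polycyclic). -/
def LocNoeth (G : Type) [Group G] : Prop :=
  ∀ H : Subgroup G, H.FG → ∀ K : Subgroup G, K ≤ H → K.FG

/-- `H` is normal in `K` and `K / H` is isomorphic to a subgroup of `ℂˣ` that is cyclic or a
`p`-group: the factor is cyclic or quasicyclic of type `p ^ ∞`. -/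
def Fac (p : ℕ) {G : Type} [Group G] (H K : Subgroup G) : Prop :=
  H ≤ K ∧ ∃ f : K →* ℂˣ, f.ker = H.subgroupOf K ∧
    (IsCyclic f.range ∨ ∀ x : K, ∃ j : ℕ, f x ^ p ^ j = 1)

/-- There is a finite series from `H` to `K` whose factors are cyclic or quasicyclic of type
`p ^ ∞`. -/
def Ser (p : ℕ) {G : Type} [Group G] (H K : Subgroup G) : Prop :=
  Relation.ReflTransGen (Fac p) H K

/-- `B` has finite torsion free rank. -/
def FinRk {G : Type} [Group G] (B : Subgroup G) : Prop :=
  ∃ T : Finset G, (∀ t ∈ T, t ∈ B) ∧
    ∀ b ∈ B, ∃ m : ℕ, 0 < m ∧ b ^ m ∈ Subgroup.closure (↑T : Set G)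

/-- Every nonzero element is a root of unity: the field is algebraic over a finite field. -/
def Absolute (F : Type) [Field F] : Prop := ∀ x : F, x ≠ 0 → IsOfFinOrder x

end Pool.Agent.MP_6a4325_al.H62
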