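import Pool.Agent.MP_6a4325_al.H62.Base2

/-!
Finite dimensionality of irreducible representations passes to finite extensions; the polycyclic
interface.
-/

set_option autoImplicit false

namespace Pool.Agent.MP_6a4325_al.H62

theorem fi : SFI := by
  classical
  intro k G _ _ N hN hFD M _ _ ρ hρ
  have := hρ.1
  obtain ⟨v, hv⟩ := exists_ne (0 : M)
  have : Fintype (G ⧸ N) := Fintype.ofFinite _
  let σ : Representation k N M := ρ.comp N.subtype
  let T : Finset M := Finset.univ.image fun q : G ⧸ N => ρ q.out⁻¹ v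
  have hT : gen σ ↑T = ⊤ := by
    rw [eq_top_iff, ← hρ.gen_top hv]
    refine Submodule.span_le.2 ?_
    rintro _ ⟨g, t, rfl, rfl⟩
    obtain ⟨h, hh⟩ := QuotientGroup.mk_out_eq_mul N g⁻¹
    refine Submodule.subset_span ⟨h, ρ (QuotientGroup.mk g⁻¹ : G ⧸ N).out⁻¹ t,
      Finset.mem_coe.2 (Finset.mem_image.2 ⟨_, Finset.mem_univ _, rfl⟩), ?_⟩
    change _ = ρ h _
    rw [← rep_mul, hh, mul_inv_rev, inv_inv, mul_inv_cancel_left]
  obtain ⟨U, hU, -, hirr⟩ := exists_irr_quot σ T hT ⊥ (fun g u hu => by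
    rw [(Submodule.mem_bot k).1 hu, map_zero]; exact zero_mem _) bot_ne_top
  have := hFD _ _ hirr
  let l : M →ₗ[k] (G ⧸ N → M ⧸ U) := LinearMap.pi fun q => U.mkQ.comp (ρ q.out⁻¹)
  have hl : ∀ u, u ∈ LinearMap.ker l ↔ ∀ g, ρ g u ∈ U := fun u => by
    rw [LinearMap.mem_ker, funext_iff]
    refine ⟨fun h g => ?_, fun h q => (Submodule.Quotient.mk_eq_zero U).2 (h _)⟩
    obtain ⟨n, hn⟩ := QuotientGroup.mk_out_eq_mul N g⁻¹
    have h1 := hU n _ ((Submodule.Quotient.mk_eq_zero U).1 (h (QuotientGroup.mk g⁻¹)))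
    change ρ n (ρ _ u) ∈ U at h1
    rwa [← rep_mul, hn, mul_inv_rev, inv_inv, mul_inv_cancel_left] at h1
  have hk : LinearMap.ker l = ⊥ := (hρ.2 _ fun g u hu => (hl _).2 fun g' => by
    rw [← rep_mul]; exact (hl u).1 hu _).resolve_right fun e => by
      refine Submodule.Quotient.nontrivial_iff.1 hirr.1 (eq_top_iff.2 fun u _ => ?_)
      have h1 := (hl u).1 (e ▸ Submodule.mem_top) 1
      rwa [map_one] at h1
  exact Module.Finite.of_injective l (LinearMap.ker_eq_bot.1 hk)

variable {G : Type} [Group G]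

theorem PCr.fg {n : ℕ} {H K : Subgroup G} (h : PCr n H K) (hH : H.FG) : K.FG := by
  have step : ∀ {A B : Subgroup G}, Cyc A B → A.FG → B.FG := fun ⟨_, _, t, _, e⟩ hA =>
    e ▸ hA.sup ⟨{t}, by rw [Finset.coe_singleton, Subgroup.zpowers_eq_closure]⟩
  induction h with
  | refl => exact hH
  | fin _ hc _ ih => exact step hc (ih hH)
  | inf _ hc ih => exact step hc (ih hH)

theorem Cyc.mem {A B : Subgroup G} (h : Cyc A B) :
    ∃ t ∈ B, ∀ x ∈ B, ∃ a ∈ A, ∃ i : ℤ, x = a * t ^ i := by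
  obtain ⟨h1, h2, t, ht, e⟩ := h
  refine ⟨t, ht, fun x hx => ?_⟩
  rw [e, Subgroup.sup_eq_closure] at hx
  induction hx using Subgroup.closure_induction with
  | mem x hx =>
    rcases hx with hx | ⟨i, rfl⟩
    · exact ⟨x, hx, 0, by simp⟩
    · exact ⟨1, A.one_mem, i, by simp⟩
  | one => exact ⟨1, A.one_mem, 0, by simp⟩
  | mul x y _ _ hx hy =>
    obtain ⟨a, ha, i, rfl⟩ := hx
    obtain ⟨b, hb, j, rfl⟩ := hy
    exact ⟨_, A.mul_mem ha (h2 _ (B.zpow_mem ht i) b hb), i + j, by group⟩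
  | inv x _ hx =>
    obtain ⟨a, ha, i, rfl⟩ := hx
    exact ⟨_, h2 _ (B.zpow_mem ht (-i)) _ (A.inv_mem ha), -i, by group⟩

theorem Cyc.commutator_le {A B : Subgroup G} (h : Cyc A B) : ⁅B, B⁆ ≤ A := by
  obtain ⟨t, ht, hm⟩ := h.mem
  refine Subgroup.commutator_le.2 fun x hx y hy => ?_
  obtain ⟨a, ha, i, rfl⟩ := hm x hx
  obtain ⟨b, hb, j, rfl⟩ := hm y hy
  have h1 := A.mul_mem (A.mul_mem (A.mul_mem ha (h.2.1 _ (B.zpow_mem ht i) b hb))
    (h.2.1 _ (B.zpow_mem ht j) _ (A.inv_mem ha))) (A.inv_mem hb)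
  rw [commutatorElement_def]
  convert h1 using 1
  group

/-- the derived series of a subgroup -/
def dser (L : Subgroup G) : ℕ → Subgroup G
  | 0 => L
  | d + 1 => ⁅dser L d, dser L d⁆

theorem dser_mono {L L' : Subgroup G} (h : L ≤ L') (d : ℕ) : dser L d ≤ dser L' d := by
  induction d with
  | zero => exact h
  | succ d ih => exact Subgroup.commutator_mono ih ih

theorem dser_succ (L : Subgroup G) (d : ℕ) : dser L (d + 1) = dser ⁅L, L⁆ d := by
  induction d with
  | zero => rfl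
  | succ d ih => rw [dser, ih]; rfl

theorem dser_top (d : ℕ) : dser (⊤ : Subgroup G) d = derivedSeries G d := by
  induction d with
  | zero => rfl
  | succ d ih => rw [dser, ih]; rfl

theorem PCr.solv {n : ℕ} {H K : Subgroup G} (h : PCr n H K) : ∃ d, dser K d ≤ H := by
  have step : ∀ {A B : Subgroup G}, Cyc A B → (∃ d, dser A d ≤ H) → ∃ d, dser B d ≤ H :=
    fun hc ⟨d, hd⟩ => ⟨d + 1, by
      rw [dser_succ]; exact (dser_mono hc.commutator_le d).trans hd⟩
  induction h with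
  | refl => exact ⟨0, le_rfl⟩
  | fin _ hc _ ih => exact step hc (ih step)
  | inf _ hc ih => exact step hc (ih step)

theorem exists_pcr_of_fg {H K L : Subgroup G} (hK : ∃ n, PCr n H K) (hKL : K ≤ L)
    (hc : ⁅L, L⁆ ≤ K) (hL : L.FG) : ∃ n, PCr n H L := by
  classical
  obtain ⟨T, rfl⟩ := hL
  have key : ∀ S : Finset G, S ⊆ T → ∃ n, PCr n H (K ⊔ Subgroup.closure ↑S) := fun S => by
    induction S using Finset.induction_on with
    | empty => intro _; simpa using hK
    | insert t S _ ih =>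
      intro hS
      obtain ⟨n, hn⟩ := ih ((Finset.subset_insert t S).trans hS)
      have e : K ⊔ Subgroup.closure ↑(insert t S) =
          K ⊔ Subgroup.closure ↑S ⊔ Subgroup.zpowers t := by
        rw [Finset.coe_insert, Set.insert_eq, Subgroup.closure_union, Subgroup.zpowers_eq_closure,
          sup_assoc, sup_comm (Subgroup.closure {t})]
      have hle : K ⊔ Subgroup.closure ↑(insert t S) ≤ Subgroup.closure ↑T :=
        sup_le hKL (Subgroup.closure_mono hS)
      refine ⟨n + 1, hn.inf ⟨e ▸ le_sup_left, fun g hg x hx => ?_, t,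
        Subgroup.mem_sup_right (Subgroup.subset_closure (by simp)), e⟩⟩
      have h1 : g * x * g⁻¹ * x⁻¹ ∈ K := hc (Subgroup.commutator_mem_commutator (hle hg)
        (hle (e ▸ Subgroup.mem_sup_left hx)))
      have h2 := (K ⊔ Subgroup.closure (↑S : Set G)).mul_mem (Subgroup.mem_sup_left h1) hx
      rwa [inv_mul_cancel_right] at h2
  have := key T subset_rfl
  rwa [sup_of_le_right hKL] at this

theorem poly_of_solv (hG : Group.IsSolvable G) (h : ∀ K : Subgroup G, K.FG) : Poly G := by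
  obtain ⟨n, hn⟩ := hG.solvable
  have all : ∀ d, (∃ m, PCr m ⊥ (derivedSeries G d)) → Poly G := fun d => by
    induction d with
    | zero => exact id
    | succ d ih =>
      exact fun h1 => ih (exists_pcr_of_fg h1 (derivedSeries_antitone G (Nat.le_succ d)) le_rfl
        (h _))
  exact all n ⟨0, by rw [hn]; exact PCr.refl 0 ⊥⟩

theorem pcb : PCA → PCApi := fun h =>
  { toPCA := h
    fg := fun G _ ⟨n, hn⟩ K => (Group.fg_iff_subgroup_fg K).1
      ⟨(h.sub n G K K.subtype K.subtype_injective hn).fg ⟨∅, by simp⟩⟩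
    solv := fun G _ ⟨_, hn⟩ => by
      obtain ⟨d, hd⟩ := hn.solv
      exact ⟨d, by rwa [dser_top, le_bot_iff] at hd⟩
    ofSolv := fun _ _ => poly_of_solv
    loc := fun G _ _ hL H hH => poly_of_solv inferInstance fun K =>
      fg_of_map_inj H.subtype H.subtype_injective (hL H hH _ (Subgroup.map_subtype_le K)) }

end Pool.Agent.MP_6a4325_al.H62
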