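import Pool.Agent.MP_6a4325_al.H62.Fi2

/-!
A soluble group acts on a plinth through an abelian-by-finite group.
-/

set_option autoImplicit false

namespace Pool.Agent.MP_6a4325_al.H62

variable {k G V : Type} [Field k] [Group G] [AddCommGroup V] [Module k V]

/-- the stabiliser of the character of an eigenvector of a normal subgroup has finite index -/
theorem stab_fin [FiniteDimensional k V] (ρ : Representation k G V) (D : Subgroup G) [D.Normal]
    {u : V} (u0 : u ≠ 0) (χ : D → k) (hχ : ∀ b : D, ρ b u = χ b • u) :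
    ∃ N : Subgroup G, N.FiniteIndex ∧ ∀ g ∈ N, ∀ b : D, χ (MulAut.conjNormal g b) = χ b := by
  have canc : ∀ a b : k, a • u = b • u → a = b := fun a b h => smul_left_injective k u0 h
  let χ' : D →* k :=
    { toFun := χ
      map_one' := canc _ _ (by rw [← hχ, one_smul]; simp)
      map_mul' := fun a b => canc _ _ (by
        rw [← hχ, Subgroup.coe_mul, rep_mul, hχ, map_smul, hχ, smul_smul, mul_comm]) }
  let cj : G → D →* k := fun g => χ'.comp (MulAut.conjNormal g : MulAut D).toMonoidHom
  have cj_mul : ∀ g h b, cj (g * h) b = cj g (MulAut.conjNormal h b) := fun g h b => by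
    simp [cj]
  let N : Subgroup G :=
    { carrier := {g | cj g = cj 1}
      one_mem' := rfl
      mul_mem' := fun {g h} hg hh => MonoidHom.ext fun b => by
        rw [cj_mul, show cj g = cj 1 from hg, ← cj_mul, one_mul, show cj h = cj 1 from hh]
      inv_mem' := fun {g} hg => MonoidHom.ext fun b => by
        rw [← one_mul g⁻¹, cj_mul, ← show cj g = cj 1 from hg, ← cj_mul, mul_inv_cancel, hg] }
  refine ⟨N, ?_, fun g hg b => by
    simpa [cj, χ'] using DFunLike.congr_fun (show cj g = cj 1 from hg) b⟩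
  have hinj : Function.Injective fun q : G ⧸ N => cj q.out⁻¹ := fun q q' e => by
    rw [← q.out_eq', ← q'.out_eq', QuotientGroup.eq]
    refine MonoidHom.ext fun b => ?_
    rw [cj_mul, show cj q.out⁻¹ = cj q'.out⁻¹ from e, ← cj_mul, inv_mul_cancel]
  have hw : ∀ (g : G) (b : D), ρ b (ρ g u) = cj g⁻¹ b • ρ g u := fun g b => by
    rw [← map_smul]
    change _ = ρ g (χ (MulAut.conjNormal g⁻¹ b) • u)
    rw [← hχ, ← rep_mul, ← rep_mul]
    simp [mul_assoc]
  have hli : LinearIndependent k fun q : G ⧸ N => ρ q.out u := by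
    refine linearIndependent_iff'.2 fun s c h0 q hq => ?_
    have h1 : ∀ l : Module.Dual k V, c q * l (ρ q.out u) = 0 := fun l => by
      refine linearIndependent_iff'.1 ((linearIndependent_monoidHom D k).comp _ hinj) s
        (fun q => c q * l (ρ q.out u)) (funext fun b => ?_) q hq
      have h2 := congrArg (fun w => l (ρ b w)) h0
      simp only [map_sum, map_smul, hw, map_zero, smul_eq_mul] at h2
      simp only [Finset.sum_apply, Pi.smul_apply, smul_eq_mul, Pi.zero_apply, Function.comp_apply]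
      rw [← h2]
      exact Finset.sum_congr rfl fun q _ => by ring
    by_contra hcq
    have h3 : ρ q.out u = 0 := (Module.forall_dual_apply_eq_zero_iff k _).1 fun l =>
      (mul_eq_zero.1 (h1 l)).resolve_left hcq
    exact u0 (by rw [← rep_inv ρ q.out u, h3, map_zero])
  have := hli.finite
  exact Subgroup.finiteIndex_of_finite_quotient

/-- a strongly irreducible representation of a soluble group with torsion free image is
commutative -/
theorem comm_of_sirr [IsAlgClosed k] [FiniteDimensional k V] [Nontrivial V]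
    (ρ : Representation k G V) (hG : Group.IsSolvable G)
    (hs : ∀ N : Subgroup G, N.FiniteIndex → ∀ U : Submodule k V, InvS ρ N U → U = ⊥ ∨ U = ⊤)
    (ht : ∀ (g : G) (m : ℕ), 0 < m → ρ (g ^ m) = 1 → ρ g = 1) :
    ∀ g ∈ derivedSeries G 1, ρ g = 1 := by
  have step : ∀ d, (∀ g ∈ derivedSeries G (d + 2), ρ g = 1) →
      ∀ g ∈ derivedSeries G (d + 1), ρ g = 1 := fun d ih => by
    obtain ⟨u, -, u0, he⟩ := exists_eigen (fun b : derivedSeries G (d + 1) => ρ b) ⊤ top_ne_bot
      (fun a b w _ => by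
        have h1 := ih _ (Subgroup.commutator_mem_commutator a.2 b.2)
        have h2 : (a : G) * b = (a * b * (a : G)⁻¹ * (b : G)⁻¹) * (b * a) := by group
        rw [← rep_mul, ← rep_mul, h2, map_mul]
        erw [h1]
        rw [one_mul]) (fun _ _ _ => trivial)
    choose χ hχ using he
    obtain ⟨N, hN, hst⟩ := stab_fin ρ _ u0 χ hχ
    let U : Submodule k V :=
      { carrier := {v | ∀ b : derivedSeries G (d + 1), ρ b v = χ b • v}
        add_mem' := fun ha hb b => by rw [map_add, ha, hb, smul_add]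
        zero_mem' := fun b => by simp
        smul_mem' := fun c v hv b => by rw [map_smul, hv, smul_comm] }
    have hU : U = ⊤ := (hs N hN U fun g hg v hv b => by
      rw [← hst g⁻¹ (N.inv_mem hg) b, ← map_smul, ← hv (MulAut.conjNormal g⁻¹ b), ← rep_mul,
        ← rep_mul]
      congr 2
      rw [MulAut.conjNormal_apply]
      group).resolve_left fun e => u0 ((Submodule.eq_bot_iff _).1 e u hχ)
    intro g hg
    have h1 : ρ g = χ ⟨g, hg⟩ • (1 : V →ₗ[k] V) := LinearMap.ext fun v =>
      (show v ∈ U from hU ▸ Submodule.mem_top) ⟨g, hg⟩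
    have h2 : LinearMap.det (ρ g) = 1 := by
      have h3 : commutator G ≤ (LinearMap.det.comp ρ).toHomUnits.ker :=
        Abelianization.commutator_subset_ker _
      exact congrArg Units.val (h3 (derivedSeries_antitone G (Nat.le_add_left 1 d) hg))
    refine ht g _ (Module.finrank_pos (R := k) (M := V)) ?_
    rw [h1, LinearMap.det_smul, map_one, mul_one] at h2
    rw [map_pow, h1, smul_pow, h2, one_pow, one_smul]
  obtain ⟨n, hn⟩ := hG.solvable
  have all : ∀ d, (∀ g ∈ derivedSeries G (d + 1), ρ g = 1) → ∀ g ∈ derivedSeries G 1, ρ g = 1 :=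
    fun d => by
      induction d with
      | zero => exact id
      | succ d ih => exact fun h => ih (step d h)
  refine all n fun g hg => ?_
  have h1 := derivedSeries_antitone G (Nat.le_succ n) hg
  rw [hn, Subgroup.mem_bot] at h1
  rw [h1, map_one]

theorem Plinth.sub {A K : Subgroup G} (h : Plinth A) (hK : K.FiniteIndex) (hA : A ≤ K) :
    Plinth (A.subgroupOf K) := by
  obtain ⟨h1, h2, h3, h4, h5, h6⟩ := h
  have e : (A.subgroupOf K).map K.subtype = A := Subgroup.map_subgroupOf_eq_of_le hA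
  refine ⟨inferInstance, fun e' => h2 (by rw [← e, e', Subgroup.map_bot]),
    fg_of_map_inj _ K.subtype_injective (e.symm ▸ h3),
    fun a ha b hb => Subtype.ext (h4 a ha b hb),
    fun b hb hf => Subtype.ext (h5 b hb (K.subtype.isOfFinOrder hf)), fun L hL B hB hz => ?_⟩
  refine (h6 _ (finiteIndex_map_subtype K hK L hL) (B.map K.subtype)
    (e ▸ Subgroup.map_mono hB) ?_).imp
    (Subgroup.map_eq_bot_iff_of_injective _ K.subtype_injective).1 fun h7 => ?_
  · rintro _ ⟨x, hx, rfl⟩ _ ⟨b, hb, rfl⟩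
    exact ⟨_, hz x hx b hb, rfl⟩
  · rwa [← e, Subgroup.relIndex_map_map_of_injective _ _ K.subtype_injective] at h7

theorem mal : SMink → SMal := by
  intro hM G _ hG A hA
  obtain ⟨hn, h0, hfg, hc, htf, hp⟩ := id hA
  let := hc.commGroup
  have hfg' : Group.FG A := (Group.fg_iff_subgroup_fg A).2 hfg
  have htf' : Tf (⊤ : Subgroup A) := fun b _ hb => Subtype.ext (htf b b.2 (A.subtype.isOfFinOrder hb))
  let φ : G →* MulAut A := MulAut.conjNormal
  obtain ⟨T, hT⟩ := hfg'.out
  obtain ⟨L₁, hL₁, hL⟩ := hM 2 A φ.range φ.range.subtype φ.range.subtype_injective htf'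
    ⟨T, fun a => ⟨0, hT ▸ Subgroup.mem_top _⟩⟩
  let K₀ : Subgroup G := L₁.comap φ.rangeRestrict
  have hK₀ : K₀.FiniteIndex := finiteIndex_comap L₁ hL₁ _
  have ht₀ : ∀ g ∈ K₀, ∀ m : ℕ, 0 < m → φ (g ^ m) = 1 → φ g = 1 := fun g hg m hm e =>
    congrArg Subtype.val (hL _ hg (isOfFinOrder_iff_pow_eq_one.2 ⟨m, hm, Subtype.ext (by
      rw [← map_pow]; exact e)⟩))
  have : Module.Finite ℤ (Additive A) := Module.Finite.iff_addGroup_fg.2 inferInstance
  have : IsMulTorsionFree A := ⟨fun n hn a b e => by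
    have h1 : IsOfFinOrder (a * b⁻¹) := isOfFinOrder_iff_pow_eq_one.2 ⟨n, Nat.pos_of_ne_zero hn, by
      rw [mul_pow, inv_pow, show a ^ n = b ^ n from e, mul_inv_cancel]⟩
    exact mul_inv_eq_one.1 (htf' _ trivial h1)⟩
  let ρ : Representation ℂ G (Additive A →ₗ[ℤ] ℂ) :=
    { toFun := fun g => LinearMap.lcomp ℂ ℂ
        (MonoidHom.toAdditive (φ g⁻¹).toMonoidHom).toIntLinearMap
      map_one' := by ext; simp
      map_mul' := fun a b => by ext; simp }
  have hρ : ∀ g χ (a : A), ρ g χ (Additive.ofMul a) = χ (Additive.ofMul (φ g⁻¹ a)) :=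
    fun _ _ _ => rfl
  let b := Module.Free.chooseBasis ℤ (Additive A)
  have : FiniteDimensional ℂ (Additive A →ₗ[ℤ] ℂ) := Module.Finite.equiv (b.constr ℂ)
  have hnt : Nontrivial (Additive A →ₗ[ℤ] ℂ) := by
    have : Nontrivial A := (Subgroup.nontrivial_iff_ne_bot A).2 h0
    have := b.index_nonempty
    exact (b.constr ℂ (M' := ℂ)).symm.toEquiv.nontrivial_congr.2 inferInstance
  obtain ⟨⟨K, U⟩, ⟨hK, hKK, hU0, hU⟩, hmin⟩ :=
    (InvImage.wf (fun x : Subgroup G × Submodule ℂ (Additive A →ₗ[ℤ] ℂ) => Module.finrank ℂ x.2)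
      wellFounded_lt).has_min
    {x | x.1.FiniteIndex ∧ x.1 ≤ K₀ ∧ x.2 ≠ ⊥ ∧ InvS ρ x.1 x.2}
    ⟨(K₀, ⊤), hK₀, le_rfl, top_ne_bot, fun _ _ _ _ => trivial⟩
  simp only at hK hKK hU0 hU hmin
  have : Nontrivial U := Submodule.nontrivial_iff_ne_bot.2 hU0
  let B : Subgroup A :=
    { carrier := {a | ∀ χ ∈ U, χ (Additive.ofMul a) = 0}
      one_mem' := fun χ _ => map_zero χ
      mul_mem' := fun ha hb χ h => by rw [ofMul_mul, map_add, ha χ h, hb χ h, add_zero]
      inv_mem' := fun ha χ h => by rw [ofMul_inv, map_neg, ha χ h, neg_zero] }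
  have hB : B = ⊥ := by
    refine (Subgroup.map_eq_bot_iff_of_injective _ A.subtype_injective).1
      ((hp K hK (B.map A.subtype) (Subgroup.map_subtype_le B) ?_).resolve_right fun h7 => ?_)
    · rintro g hg _ ⟨a, ha, rfl⟩
      refine ⟨φ g a, fun χ h => ?_, rfl⟩
      have h1 := ha _ (hU g⁻¹ (K.inv_mem hg) χ h)
      rwa [hρ, inv_inv] at h1
    · refine hU0 ((Submodule.eq_bot_iff _).2 fun χ h => LinearMap.ext fun a => ?_)
      have h8 : B.index ≠ 0 := by
        rwa [Subgroup.relIndex, Subgroup.subgroupOf,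
          Subgroup.comap_map_eq_self_of_injective A.subtype_injective] at h7
      have h9 := B.pow_index_mem a.toMul χ h
      rw [ofMul_pow, map_nsmul, nsmul_eq_mul] at h9
      exact (mul_eq_zero.1 h9).resolve_left (Nat.cast_ne_zero.2 h8)
  have hker : ∀ g : K, hU.rep g = 1 ↔ φ g = 1 := fun g => by
    refine ⟨fun h => ?_, fun h => LinearMap.ext fun χ => Subtype.ext (LinearMap.ext fun a => ?_)⟩
    · rw [← inv_eq_one, ← map_inv]
      refine MulEquiv.ext fun a => mul_inv_eq_one.1 ((Subgroup.eq_bot_iff_forall B).1 hB _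
        fun χ hχ => ?_)
      have h1 := congrArg (fun f : U →ₗ[ℂ] U => (f ⟨χ, hχ⟩).1 (Additive.ofMul a)) h
      rw [ofMul_mul, ofMul_inv, map_add, map_neg, ← hρ]
      exact add_neg_eq_zero.2 h1
    · change ρ g χ (Additive.ofMul a.toMul) = _
      rw [hρ, map_inv, h]
      rfl
  have key := comm_of_sirr hU.rep inferInstance (fun N hN U' hU' => by
      by_contra hne
      rw [not_or] at hne
      refine hmin (N.map K.subtype, U'.map U.subtype) ⟨finiteIndex_map_subtype K hK N hN,
        (Subgroup.map_subtype_le N).trans hKK, fun e => hne.1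
          (Submodule.map_injective_of_injective U.injective_subtype
            (e.trans (Submodule.map_bot _).symm)), ?_⟩ ?_
      · rintro _ ⟨g, hg, rfl⟩ _ ⟨u, hu, rfl⟩
        exact ⟨_, hU' g hg u hu, rfl⟩
      · change Module.finrank ℂ (U'.map U.subtype) < _
        rw [Submodule.finrank_map_subtype_eq]
        exact Submodule.finrank_lt hne.2)
    (fun g m hm e => (hker g).2 (ht₀ g (hKK g.2) m hm ((hker _).1 e)))
  have hAK : ∀ a ∈ A, φ a = 1 := fun a ha => MulEquiv.ext fun x => Subtype.ext (by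
    change a * x * a⁻¹ = x
    rw [hc a ha x x.2, mul_inv_cancel_right])
  have hcm : ∀ g ∈ K, ∀ h ∈ K, φ g * φ h = φ h * φ g := fun g hg h hh => by
    have h1 := (hker _).1 (key _ (Subgroup.commutator_mem_commutator
      (Subgroup.mem_top (⟨g, hg⟩ : K)) (Subgroup.mem_top ⟨h, hh⟩)))
    refine commutatorElement_eq_one_iff_mul_comm.1 ?_
    rw [← map_commutatorElement]
    exact h1
  let K' : Subgroup G := (K.map φ).comap φ
  have hK' : K'.FiniteIndex := Subgroup.finiteIndex_of_le (Subgroup.le_comap_map φ K)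
  have hA' : A ≤ K' := fun a ha => ⟨1, K.one_mem, by rw [hAK a ha, map_one]⟩
  refine ⟨K', hK', hA', hA.sub hK' hA', fun g h a ha => Subtype.ext ?_⟩
  obtain ⟨g', hg, e⟩ := g.2
  obtain ⟨h', hh, e'⟩ := h.2
  have h1 := hcm g' hg h' hh
  rw [e, e', ← map_mul, ← map_mul] at h1
  exact congrArg (fun f : MulAut A => (f ⟨a, ha⟩ : G)) h1

end Pool.Agent.MP_6a4325_al.H62
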