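import Pool.Agent.MP_6a4325_al.H62.Base2

/-!
The flagged series and the transfer of the conclusion of the structure theorem.
-/

set_option autoImplicit false

namespace Pool.Agent.MP_6a4325_al.H62

theorem relIndex_comap_ne {G G' : Type} [Group G] [Group G'] (f : G' →* G) {H K : Subgroup G}
    (h : H.relIndex K ≠ 0) : (H.comap f).relIndex (K.comap f) ≠ 0 := by
  rw [Subgroup.relIndex_comap]
  exact fun e => h (Subgroup.relIndex_eq_zero_of_le_right (Subgroup.map_comap_le f K) e)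

theorem relIndex_map_ne {G G' : Type} [Group G] [Group G'] (f : G →* G') {H K : Subgroup G}
    (h : H.relIndex K ≠ 0) : (H.map f).relIndex (K.map f) ≠ 0 := by
  rw [← Subgroup.relIndex_comap]
  exact fun e => h (Subgroup.relIndex_eq_zero_of_le_left (Subgroup.le_comap_map f H) e)

theorem relIndex_inf_ne {G : Type} [Group G] {H K : Subgroup G} (L : Subgroup G)
    (h : H.relIndex K ≠ 0) : (H ⊓ L).relIndex (K ⊓ L) ≠ 0 := by
  refine Subgroup.relIndex_inf_ne_zero
    (fun e => h (Subgroup.relIndex_eq_zero_of_le_right inf_le_left e)) ?_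
  rw [Subgroup.relIndex_eq_one.2 inf_le_right]
  exact one_ne_zero

theorem rel : SSer → SRel := fun hs p _ lva =>
  have h := hs p
  have hmap : ∀ (G G' : Type) [Group G] [Group G'] (f : G →* G') (H K : Subgroup G),
      Rel p lva H K → Rel p lva (H.map f) (K.map f) := fun _ _ _ _ f _ _ h1 =>
    ⟨h.map _ _ f _ _ h1.1, fun l => relIndex_map_ne f (h1.2 l)⟩
  have hcomap : ∀ (G G' : Type) [Group G] [Group G'] (f : G' →* G) (H K : Subgroup G),
      Rel p lva H K → Rel p lva (H.comap f) (K.comap f) := fun _ _ _ _ f _ _ h1 =>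
    ⟨h.comap _ _ f _ _ h1.1, fun l => relIndex_comap_ne f (h1.2 l)⟩
  { refl := fun _ _ H => ⟨Relation.ReflTransGen.refl, fun _ => by
      rw [Subgroup.relIndex_self]; exact one_ne_zero⟩
    trans := fun _ _ _ _ _ h1 h2 => ⟨h1.1.trans h2.1,
      fun l => Subgroup.relIndex_ne_zero_trans (h1.2 l) (h2.2 l)⟩
    comap := hcomap
    map := hmap
    inf := fun _ _ _ _ L h1 => ⟨h.inf _ _ _ L h1.1, fun l => relIndex_inf_ne L (h1.2 l)⟩
    up := fun _ _ _ _ _ h1 h2 h3 h4 => ⟨h.up _ _ _ _ h1 h2 h3 h4.1,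
      fun l e => h4.2 l (Subgroup.relIndex_eq_zero_of_le_left h1 e)⟩
    fin := fun _ _ _ _ h1 h2 h3 h4 => ⟨h.fin _ _ _ h1 h2 h3 h4, fun _ => h4⟩
    cbFin := fun _ _ K hK ⟨N, S, Z, hN, hSZ, hZN, hnz, hS, hc, hr⟩ =>
      ⟨N.map K.subtype, S.map K.subtype, Z.map K.subtype, finiteIndex_map_subtype K hK N hN,
        Subgroup.map_mono hSZ, Subgroup.map_mono hZN, by
          rintro _ ⟨k, hk, rfl⟩ _ ⟨s, hs, rfl⟩
          exact ⟨_, hnz k hk s hs, rfl⟩, hS.map _, by
          rintro _ ⟨z, hz, rfl⟩ _ ⟨g, hg, rfl⟩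
          exact ⟨_, hc z hz g hg, rfl⟩, hmap _ _ _ _ _ hr⟩
    cbQuot := fun _ _ _ _ f _ hk ⟨N, S, Z, hN, hSZ, hZN, hnz, hS, hc, hr⟩ =>
      ⟨N.comap f, S.comap f, Z.comap f, finiteIndex_comap N hN f, Subgroup.comap_mono hSZ,
        Subgroup.comap_mono hZN, fun k hk s hs => by
          simpa [Subgroup.mem_comap] using hnz _ hk _ hs,
        hS.comap_of_ker_isPGroup f hk, fun z hz g hg => by
          simpa [Subgroup.mem_comap] using hc _ hz _ hg, hcomap _ _ _ _ _ hr⟩ }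

end Pool.Agent.MP_6a4325_al.H62
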