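import Pool.Agent.MP_6a4325_al.H62.Asm
import Pool.Agent.MP_6a4325_al.H62.Rel2
import Pool.Agent.MP_6a4325_al.H62.Spf2
import Pool.Agent.MP_6a4325_al.H62.Cent2
import Pool.Agent.MP_6a4325_al.H62.Fi2
import Pool.Agent.MP_6a4325_al.H62.Cl2
import Pool.Agent.MP_6a4325_al.H1.Hnn2
import Pool.Agent.MP_6a4325_al.H12.Pv2
import Pool.Agent.MP_6a4325_al.H14.Nil2
import Pool.Agent.MP_6a4325_al.H16.Al02
import Pool.Agent.MP_6a4325_al.H20.Serb2
import Pool.Agent.MP_6a4325_al.H23.Suff2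
import Pool.Agent.MP_6a4325_al.H28.Pca2
import Pool.Agent.MP_6a4325_al.H3.Ind2
import Pool.Agent.MP_6a4325_al.H3.Skew2
import Pool.Agent.MP_6a4325_al.H33.Hall22
import Pool.Agent.MP_6a4325_al.H40.Pl2
import Pool.Agent.MP_6a4325_al.H41.Berg2
import Pool.Agent.MP_6a4325_al.H45.Rose2
import Pool.Agent.MP_6a4325_al.H45.Ws2
import Pool.Agent.MP_6a4325_al.H47.Al2
import Pool.Agent.MP_6a4325_al.H48.Ch2
import Pool.Agent.MP_6a4325_al.H54.Wfi2
import Pool.Agent.MP_6a4325_al.H55.Sera2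
import Pool.Agent.MP_6a4325_al.H62.Mal2
import Pool.Agent.MP_6a4325_al.H60.Ar2
import Pool.Agent.MP_6a4325_al.H63.Mink2
import Pool.Agent.MP_6a4325_al.H69.Emb2
import Pool.Agent.MP_6a4325_al.H71.Dir2
import Pool.Agent.MP_6a4325_al.H79.Al12
import Pool.Agent.MP_6a4325_al.H79.Ln2
import Pool.Agent.MP_6a4325_al.H8.Hall12
import Pool.Agent.MP_6a4325_al.H80.Big2
import Pool.Agent.MP_6a4325_al.H80.Step2
import Pool.Agent.MP_6a4325_al.H83.Alt2
import Pool.Agent.MP_6a4325_al.H83.The2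
import Pool.Agent.MP_6a4325_al.H85.Gna2
import Pool.Agent.MP_6a4325_al.H88.Wz2
import Pool.Agent.MP_6a4325_al.H94.Key2
import Pool.Agent.MP_6a4325_al.H97.Core2
import Pool.Agent.MP_6a4325_al.H97.Hom2
import Pool.Agent.MP_6a4325_al.H98.Gen2

/-!
The classification of the soluble groups with property (Z).
-/

set_option autoImplicit false

namespace Pool.Agent.MP_6a4325_al.H62

theorem tPC : PCApi := pcb H28.pca

theorem tSer : SSer := H55.serA H20.serB

theorem tRel : SRel := rel tSer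

theorem tLN : SLN := H79.ln (H1.hnn specF) tPC

theorem tCLt : SCLt := clt cl

theorem tGenC : SGenC := H98.genC cl

theorem tALT : SALT := H83.alt (H83.orb1 H48.ch) (H83.orb2 H48.ch)

theorem tAL : SAL := H47.al tLN tCLt tGenC tALT
  (H79.al1 H48.ch tSer (H16.al0 (H83.orb1 H48.ch) (H83.orb2 H48.ch))) H63.mink (H71.dir tSer)
  tSer tRel

theorem tNil : SNil2 := H14.nil2 H48.ch tCLt tALT

theorem tInd : SInd := H3.ind tAL tNil op cent (H97.core tAL tNil tRel) tRel

theorem tPl0 : SPl0 := H40.pl0 tPC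

theorem tNoe : SNoe := H3.noe H3.skew tPC

theorem tRose : SRose := H45.rose tPC tNoe fi (H40.pl tPC tPl0) (mal H63.mink)
  (H83.thE H69.emb) berg (H33.hall H8.hall1 tPC tNoe)

theorem tBig : SBig := H80.big tSer

theorem tKey : SKey := H94.key tRose (H60.ar H3.skew tPC) tPC

theorem tScal : SScal := H94.scal tKey tBig

theorem tSuff : SSuff := H23.suff tScal
  (H80.stepA tKey tScal H48.ch (H97.hom tSer) tSer tBig) (H97.hom tSer) fi tBig tSer

theorem soluble_classification (F G : Type) [Field F] [Group G] (hG : Group.IsSolvable G) :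
    PropZ F G ↔ Cond (ringExpChar F) F G :=
  classif H45.wsub tLN tPC (H85.gna cl) (H85.gy tGenC) (H12.pv tPC tPl0) tInd tSer tRel H45.fw
    H45.ws H54.wfi H88.wz tBig tSuff F G hG

end Pool.Agent.MP_6a4325_al.H62
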