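import Pool.Agent.MP_6a4325_al.H84.Spec3
import Pool.Agent.MP_6a4325_al.H63.Mink2

/-! A locally finite `p`-group of automorphisms of a torsion free abelian group of finite rank is
finite (row MINB). -/

set_option autoImplicit false

namespace Pool.Agent.MP_6a4325_al.H62.Minb

open Pool.Agent.MP_6a4325_al.H62 Pool.Agent.MP_6a4325_al.H84 Pool.Agent.MP_6a4325_al.H63

variable {M : Type} [AddCommGroup M]

theorem mul_ap (f g : AddMonoid.End M) (a : M) : (f * g) a = f (g a) := rfl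

theorem cong_pow {l : ℕ} {f : AddMonoid.End M} (h : ∀ a, ∃ b, f a = a + l • b) (n : ℕ) (a : M) :
    ∃ b, (f ^ n) a = a + l • b := by
  induction n with
  | zero => exact ⟨0, by simp⟩
  | succ n ih =>
    obtain ⟨b, hb⟩ := ih
    obtain ⟨c, hc⟩ := h a
    refine ⟨c + f b, ?_⟩
    rw [pow_succ', mul_ap, hb, map_add, map_nsmul, hc, smul_add, add_assoc]

theorem key (htf : ∀ n : ℕ, n ≠ 0 → ∀ x : M, n • x = 0 → x = 0) (hfg : AddGroup.FG M) {p l : ℕ}
    (hp : p.Prime) (hl : l.Prime) (hpl : p ≠ l) (hl2 : l ≠ 2) (j : ℕ) (f : AddMonoid.End M)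
    (h : ∀ a, ∃ b, f a = a + l • b) (hf : f ^ p ^ j = 1) : f = 1 := by
  induction j with
  | zero => simpa using hf
  | succ j ih =>
    refine ih ?_
    obtain ⟨T, hT⟩ := hfg.out
    have hD : (1 + (f ^ p ^ j - 1)) ^ p = 1 := by rw [add_sub_cancel, ← pow_mul, ← pow_succ, hf]
    have hall : ∀ i : ℕ, ∀ a, ∃ b, (f ^ p ^ j - 1) a = l ^ (i + 1) • b := fun i => by
      induction i with
      | zero =>
        intro a
        obtain ⟨b, hb⟩ := cong_pow h (p ^ j) a
        refine ⟨b, ?_⟩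
        have h2 : (f ^ p ^ j - 1) a = (f ^ p ^ j) a - a := rfl
        rw [h2, hb, zero_add, pow_one, add_sub_cancel_left]
      | succ i ih => exact core htf hl hl2 hp _ hD i ih
    refine AddMonoidHom.ext fun a => sub_eq_zero.1 ?_
    refine krull htf hp hl hpl T (fun a => ⟨0, hT ▸ AddSubgroup.mem_top _⟩)
      ((f ^ p ^ j - 1) a) fun i => ?_
    obtain ⟨b, hb⟩ := hall i a
    exact ⟨l • b, by rw [hb, smul_smul, pow_succ]⟩

theorem rank_le (T : Finset M)
    (hT : ∀ a : M, ∃ m : ℕ, 0 < m ∧ m • a ∈ Submodule.span ℤ (T : Set M)) (A : Submodule ℤ M) :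
    Module.finrank ℤ A ≤ T.card := by
  refine Module.finrank_le_of_rank_le (A.rank_le.trans ?_)
  rw [← rank_quotient_add_rank_of_isDomain (Submodule.span ℤ (T : Set M)), rank_eq_zero_iff.2 ?_,
    zero_add]
  · exact rank_span_finset_le T
  · intro x
    obtain ⟨a, rfl⟩ := Submodule.Quotient.mk_surjective _ x
    obtain ⟨m, hm, h⟩ := hT a
    refine ⟨m, by exact_mod_cast hm.ne', ?_⟩
    rw [← Submodule.Quotient.mk_smul, Submodule.Quotient.mk_eq_zero, natCast_zsmul]
    exact h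

theorem main {G : Type} [Group G] (ρ : G →* Module.End ℤ M)
    (htf : ∀ n : ℕ, n ≠ 0 → ∀ x : M, n • x = 0 → x = 0) (T : Finset M)
    (hT : ∀ a : M, ∃ m : ℕ, 0 < m ∧ m • a ∈ Submodule.span ℤ (T : Set M)) {p : ℕ} (hp : p.Prime)
    (hpow : ∀ g : G, ∃ j : ℕ, ρ (g ^ p ^ j) = 1)
    (hfin : ∀ H : Subgroup G, H.FG → ∀ a, (Set.range fun h : H => ρ h a).Finite) :
    ρ.ker.FiniteIndex := by
  classical
  obtain ⟨l, hlp, hl⟩ := Nat.exists_infinite_primes (p + 3)
  by_contra hn
  have : Infinite (G ⧸ ρ.ker) := not_finite_iff_infinite.1 fun _ =>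
    hn Subgroup.finiteIndex_of_finite_quotient
  let e := Infinite.natEmbedding (G ⧸ ρ.ker)
  let g : Fin ((l ^ T.card) ^ l ^ T.card + 1) → G := fun i => (e i).out
  let H := Subgroup.closure (Set.range g)
  have hH : H.FG := (Subgroup.fg_iff _).2 ⟨_, rfl, Set.finite_range g⟩
  let U : Set M := ⋃ t ∈ T, Set.range fun h : H => ρ h t
  have hU : U.Finite := T.finite_toSet.biUnion fun t _ => hfin H hH t
  let A := Submodule.span ℤ U
  have hA : ∀ h : H, ∀ a ∈ A, ρ h a ∈ A := fun h =>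
    (Submodule.span_le (p := A.comap (ρ h))).2 fun u hu => by
      obtain ⟨t, ht, h', rfl⟩ := Set.mem_iUnion₂.1 hu
      exact Submodule.subset_span (Set.mem_iUnion₂.2 ⟨t, ht, h * h', by simp⟩)
  let σ : H →* AddMonoid.End A :=
    { toFun := fun h => ((ρ h).restrict (hA h)).toAddMonoidHom
      map_one' := AddMonoidHom.ext fun a => Subtype.ext (by simp; rfl)
      map_mul' := fun h h' => AddMonoidHom.ext fun a => Subtype.ext (by simp; rfl) }
  have hσ : ∀ h a, (σ h a : M) = ρ h a := fun _ _ => rfl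
  have fA : Module.Finite ℤ A := Module.Finite.span_of_finite ℤ hU
  have tA : ∀ n : ℕ, n ≠ 0 → ∀ x : A, n • x = 0 → x = 0 := fun n hn x hx =>
    Subtype.ext (htf n hn x (congrArg Subtype.val hx))
  have : IsAddTorsionFree A := ⟨fun n hn x y hxy =>
    sub_eq_zero.1 (tA n hn _ (by rw [smul_sub]; exact sub_eq_zero.2 hxy))⟩
  have hc : Nat.card (A ⧸ mult A l) ≤ l ^ T.card :=
    (AddSubgroup.index_range_nsmul A l).le.trans (Nat.pow_le_pow_right hl.pos (rank_le T hT A))
  have : Finite (A ⧸ mult A l) := Nat.finite_of_card_ne_zero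
    ((AddSubgroup.index_range_nsmul A l).trans_ne (pow_ne_zero _ hl.ne_zero))
  have := Fintype.ofFinite (A ⧸ mult A l)
  let g' : Fin ((l ^ T.card) ^ l ^ T.card + 1) → H := fun i =>
    ⟨g i, Subgroup.subset_closure ⟨i, rfl⟩⟩
  have hm : ∀ h : H, mult A l ≤ (mult A l).comap (σ h) := by
    rintro h _ ⟨y, rfl⟩
    exact ⟨σ h y, (map_nsmul (σ h) l y).symm⟩
  obtain ⟨i, j, hij, h⟩ := Fintype.exists_ne_map_eq_of_card_lt
    (fun i => (QuotientAddGroup.map _ _ (σ (g' i)) (hm _) : A ⧸ mult A l → A ⧸ mult A l)) (by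
      rw [Fintype.card_fun, Fintype.card_fin, Nat.lt_succ_iff, ← Nat.card_eq_fintype_card]
      exact (Nat.pow_le_pow_left hc _).trans (Nat.pow_le_pow_right (pow_pos hl.pos _) hc))
  obtain ⟨k, hk⟩ := hpow ((g i)⁻¹ * g j)
  have h1 : σ ((g' i)⁻¹ * g' j) = 1 := by
    refine key tA (Module.Finite.iff_addGroup_fg.1 fA) hp hl (by omega) (by omega) k _
      (fun a => ?_) ?_
    · obtain ⟨c, hc⟩ := QuotientAddGroup.eq.1 (congrFun h (a : A ⧸ mult A l))
      refine ⟨σ (g' i)⁻¹ c, ?_⟩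
      have e1 : σ (g' j) a = σ (g' i) a + l • c := by
        rw [← neg_add_eq_iff_eq_add]; exact hc.symm
      rw [map_mul, mul_ap, e1, map_add, map_nsmul, ← mul_ap,
        ← map_mul, inv_mul_cancel, map_one]
      rfl
    · rw [← map_pow]
      exact AddMonoidHom.ext fun a => Subtype.ext (DFunLike.congr_fun hk (a : M))
  refine hij (Fin.ext (e.injective ?_))
  rw [← (e i).out_eq', ← (e j).out_eq', QuotientGroup.eq, MonoidHom.mem_ker]
  refine LinearMap.ext fun a => sub_eq_zero.1 ?_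
  obtain ⟨m, hm, ha⟩ := hT a
  refine htf m hm.ne' _ ?_
  rw [smul_sub, ← map_nsmul, ← map_nsmul, sub_eq_zero]
  refine LinearMap.eqOn_span (fun t ht => ?_) ha
  exact congrArg Subtype.val (DFunLike.congr_fun h1
    ⟨t, Submodule.subset_span (Set.mem_iUnion₂.2 ⟨t, ht, 1, by simp⟩)⟩)

end Pool.Agent.MP_6a4325_al.H62.Minb

namespace Pool.Agent.MP_6a4325_al.H62

open Pool.Agent.MP_6a4325_al.H84

theorem minB : SMinB := by
  classical
  intro p hp G _ B hB hc htf ⟨T, hT1, hT2⟩ hfin hpow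
  let _ := hc.commGroup
  let ρ : G →* Module.End ℤ (Additive B) :=
    { toFun := fun g => (MonoidHom.toAdditive (MulAut.conjNormal (H := B) g).toMonoidHom).toIntLinearMap
      map_one' := LinearMap.ext fun a => by simp
      map_mul' := fun g h => LinearMap.ext fun a => by simp }
  have hρ : ∀ g a, ((Additive.toMul (ρ g a) : B) : G) = g * (Additive.toMul a : B) * g⁻¹ :=
    fun _ _ => rfl
  have h1 : ∀ b ∈ B, ρ b = 1 := fun b hb => LinearMap.ext fun a =>
    Additive.toMul.injective (Subtype.ext (by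
      rw [hρ, hc b hb _ (Additive.toMul a).2, mul_inv_cancel_right]; rfl))
  have := Minb.main ρ (fun n hn x hx => Additive.toMul.injective (Subtype.ext
      (htf _ (Additive.toMul x).2 (isOfFinOrder_iff_pow_eq_one.2 ⟨n, Nat.pos_of_ne_zero hn,
        congrArg (fun y => ((Additive.toMul y : B) : G)) hx⟩))))
    (T.attach.image fun t => Additive.ofMul ⟨t.1, hT1 t.1 t.2⟩) (fun a => ?_) hp.out
    (fun g => (hpow g).imp fun j hj => h1 _ hj) fun H hH a => ?_
  · refine Subgroup.finiteIndex_of_le (H := ρ.ker) fun g hg =>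
      Subgroup.mem_centralizer_iff.2 fun b hb => ?_
    have := hρ g (Additive.ofMul ⟨b, hb⟩)
    rw [MonoidHom.mem_ker.1 hg] at this
    exact eq_mul_inv_iff_mul_eq.1 this
  · obtain ⟨m, hm, h⟩ := hT2 _ (Additive.toMul a).2
    refine ⟨m, hm, ?_⟩
    have key : ∀ x ∈ Subgroup.closure (T : Set G), ∃ hx : x ∈ B, Additive.ofMul (⟨x, hx⟩ : B) ∈
        Submodule.span ℤ ((T.attach.image fun t => Additive.ofMul (⟨t.1, hT1 t.1 t.2⟩ : B) :
          Finset (Additive B)) : Set (Additive B)) := fun x hx => by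
      induction hx using Subgroup.closure_induction with
      | mem x hx => exact ⟨hT1 x hx, Submodule.subset_span (by simpa using hx)⟩
      | one => exact ⟨B.one_mem, Submodule.zero_mem _⟩
      | mul x y _ _ hx hy => exact ⟨B.mul_mem hx.1 hy.1, Submodule.add_mem _ hx.2 hy.2⟩
      | inv x _ hx => exact ⟨B.inv_mem hx.1, Submodule.neg_mem _ hx.2⟩
    exact (key _ h).2
  · have : (B.subgroupOf H).FiniteIndex := ⟨hfin H hH⟩
    refine (Set.finite_range fun x : H ⧸ B.subgroupOf H => ρ x.out a).subset ?_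
    rintro _ ⟨h, rfl⟩
    obtain ⟨b, hb⟩ := QuotientGroup.mk_out_eq_mul (B.subgroupOf H) h
    refine ⟨h, ?_⟩
    have h2 := h1 b.1.1 b.2
    simp only [hb, Subgroup.coe_mul, map_mul, h2, mul_one]

end Pool.Agent.MP_6a4325_al.H62
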