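import Pool.Agent.MP_6a4325_al.H62.Defs

/-!
Auxiliary notions and the statements of the steps
(see the plan file `MP_6a4325_H62_plan.md` in the team store).
-/

set_option autoImplicit false

namespace Pool.Agent.MP_6a4325_al.H62

open Matrix

/-- the action of the group algebra in a matrix representation -/
noncomputable abbrev act (F : Type) {G K : Type} [Field F] [Group G] [Field K] [Algebra F K]
    {n : ℕ} (ρ : G →* Matrix (Fin n) (Fin n) K) :
    MonoidAlgebra F G →ₐ[F] Matrix (Fin n) (Fin n) K :=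
  MonoidAlgebra.lift F (Matrix (Fin n) (Fin n) K) G ρ

/-- every proper submodule of a free module of finite rank has a finite dimensional solution -/
def W (F G : Type) [Field F] [Group G] : Prop :=
  ∀ (m : ℕ) (L : Submodule (MonoidAlgebra F G) (Fin m → MonoidAlgebra F G)), L ≠ ⊤ →
    ∃ (K : Type) (_ : Field K) (_ : Algebra F K) (_ : IsAlgClosed K) (n : ℕ)
      (ρ : G →* Matrix (Fin n) (Fin n) K) (v : Fin m → Fin n → K),
      v ≠ 0 ∧ ∀ x ∈ L, ∑ i, act F ρ (x i) *ᵥ v i = 0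

/-- a finite dimensional solution of a system of equations over the rational group algebra -/
def Sol (G : Type) [Group G] (X : Set (MonoidAlgebra ℚ G)) : Prop :=
  ∃ (K : Type) (_ : Field K) (_ : CharZero K) (_ : IsAlgClosed K) (n : ℕ)
    (ρ : G →* Matrix (Fin n) (Fin n) K) (v : Fin n → K),
    v ≠ 0 ∧ ∀ x ∈ X, act ℚ ρ x *ᵥ v = 0

/-- the algebraic numbers -/
abbrev Qb : Type := AlgebraicClosure ℚ

/-- a solution by matrices with algebraic entries -/
def SolA (G : Type) [Group G] (X : Set (MonoidAlgebra ℚ G)) : Prop :=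
  ∃ (n : ℕ) (ρ : G →* Matrix (Fin n) (Fin n) Qb) (v : Fin n → Qb),
    v ≠ 0 ∧ ∀ x ∈ X, act ℚ ρ x *ᵥ v = 0

/-- every finitely consistent system has a finite dimensional solution
(`Ideal.span` is the left ideal generated) -/
def W1 (G : Type) [Group G] : Prop :=
  ∀ X : Set (MonoidAlgebra ℚ G),
    (∀ T : Finset (MonoidAlgebra ℚ G), ↑T ⊆ X →
      Ideal.span (↑T : Set (MonoidAlgebra ℚ G)) ≠ ⊤) → Sol G X

/-- the hereditary property: all sections satisfy `W ℚ`, `W1` and are amenable -/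
def HW (G : Type) [Group G] : Prop :=
  ∀ (H : Subgroup G) (Q : Type) [Group Q] (f : H →* Q), Function.Surjective f →
    W ℚ Q ∧ W1 Q ∧ Amen Q

/-- the number of group elements in the support of a vector -/
noncomputable def sz {F G : Type} [Field F] {m : ℕ} (z : Fin m → MonoidAlgebra F G) : ℕ :=
  Set.ncard {g : G | ∃ i, (z i).coeff g ≠ 0}

/-- a homomorphism that doubles supports -/
def Dbl (F G : Type) [Field F] [Group G] : Prop :=
  ∃ (m : ℕ) (u w : Module.End (MonoidAlgebra F G) (Fin m → MonoidAlgebra F G)), 0 < m ∧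
    ∀ z z', 2 * sz z ≤ sz (u z + w z') ∧ 2 * sz z' ≤ sz (u z + w z')

/-- the derived subgroup is locally finite -/
def LFD (G : Type) [Group G] : Prop :=
  ∀ T : Finset G, (∀ g ∈ T, g ∈ commutator G) → Finite (Subgroup.closure (↑T : Set G))

/-- locally abelian-by-finite -/
def LVA (G : Type) [Group G] : Prop := ∀ T : Finset G, VA (Subgroup.closure (↑T : Set G))

/-- the elements with finitely many conjugates -/
def fc (G : Type) [Group G] : Set G := {g | (Subgroup.centralizer {g}).FiniteIndex}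

/-- the elements that commute with a power of every element -/
def gs (G : Type) [Group G] : Set G := {g | ∀ x : G, ∃ m : ℕ, 0 < m ∧ g * x ^ m = x ^ m * g}

/-- some power of `y` is detected by a real character of a subgroup of finite index -/
def Det {G : Type} [Group G] (y : G) : Prop :=
  ∃ K : Subgroup G, K.FiniteIndex ∧ ∃ (χ : Additive K →+ ℝ) (k : ℕ) (h : y ^ k ∈ K),
    χ (Additive.ofMul ⟨y ^ k, h⟩) ≠ 0

/-- strongly irreducible -/
def SIr {G k : Type} [Group G] [Field k] {n : ℕ} (ρ : G →* Matrix (Fin n) (Fin n) k) : Prop :=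
  ∀ K : Subgroup G, K.FiniteIndex → ∀ U : Submodule k (Fin n → k),
    (∀ g ∈ K, ∀ u ∈ U, ρ g *ᵥ u ∈ U) → U = ⊥ ∨ U = ⊤

/-- every subgroup of finite index spans the matrix algebra -/
def Spans {G k : Type} [Group G] [Field k] {n : ℕ} (ρ : G →* Matrix (Fin n) (Fin n) k) : Prop :=
  ∀ K : Subgroup G, K.FiniteIndex → Submodule.span k (ρ '' (K : Set G)) = ⊤

/-- a stage of the construction for locally abelian-by-finite groups -/
structure St (G : Type) [Group G] where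
  H : Subgroup G
  T : Subgroup G
  θ : T →* ℚˣ
  f : G → ℚ
  le : T ≤ H
  conj : ∀ h ∈ H, ∀ t ∈ T, h * t * h⁻¹ ∈ T
  fin : (T.subgroupOf H).FiniteIndex
  inj : Function.Injective θ
  one : f 1 = 1
  equi : ∀ (t : T) (g : G), f (t * g) = (θ t : ℚ) * f g
  off : ∀ g, g ∉ H → f g = 0

/-- the equations of a stage -/
def St.ann {G : Type} [Group G] (s : St G) : Set (MonoidAlgebra ℚ G) :=
  {x | (∀ g ∈ x.coeff.support, g ∈ s.H) ∧ ∀ g : G, (x.coeff.sum fun h c => c * s.f (g * h)) = 0}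

/-! ### the steps -/

/-- row ZW -/
def SZW : Prop := ∀ (F G : Type) [Field F] [Group G], PropZ F G → W F G

/-- row ZW -/
def SWQ : Prop := ∀ (F G : Type) [Field F] [CharZero F] [Group G], W F G → W ℚ G

/-- row HER -/
def SSub : Prop := ∀ (F G H : Type) [Field F] [Group G] [Group H] (f : H →* G),
  Function.Injective f → W F G → W F H

/-- row HER -/
def SQuot : Prop := ∀ (F G Q : Type) [Field F] [Group G] [Group Q] (f : G →* Q),
  Function.Surjective f → W F G → W F Q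

/-- row HER -/
def SW1 : Prop := ∀ (G : Type) [Group G], W ℚ G → W1 G

/-- row SET: a set system with large private parts -/
def SSet : Prop := ∀ (S : Type) [Fintype S] (L : ℕ), 2 * Fintype.card S ≤ 2 ^ L →
  ∃ (N : ℕ) (X : S → Set (Fin N)), 0 < N ∧ ∀ (I : Finset S), ∀ s ∈ I,
    N ≤ 8 * (L + 1) * I.card * Set.ncard {y : Fin N | y ∈ X s ∧ ∀ t ∈ I, t ≠ s → y ∉ X t}

/-- row SET: expansion in non amenable groups -/
def SExp : Prop := ∀ (G : Type) [Group G], ¬ Amen G → ∃ (S : Finset G) (L : ℕ),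
  2 * S.card ≤ 2 ^ L ∧ ∀ Ψ : Finset G,
    32 * (L + 1) * Ψ.card ≤ Set.ncard {g : G | ∃ s ∈ S, g * s ∈ Ψ}

/-- row DBL -/
def SDbl : Prop := ∀ (F G : Type) [Field F] [Group G], ¬ Amen G → Dbl F G

/-- row ALG -/
def SAlg : Prop := ∀ (F G : Type) [Field F] [Group G], Dbl F G → ¬ W F G

/-- row SPEC: specialisation -/
def SSpecM : Prop := ∀ (G : Type) [Group G], Group.FG G → ∀ (K : Type) [Field K] [Algebra ℚ K]
  (n m : ℕ) (ρ : G →* Matrix (Fin n) (Fin n) K) (v : Fin m → Fin n → K), v ≠ 0 →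
    ∃ (ρ' : G →* Matrix (Fin n) (Fin n) Qb) (v' : Fin m → Fin n → Qb), v' ≠ 0 ∧
      ∀ x : Fin m → MonoidAlgebra ℚ G, ∑ i, act ℚ ρ (x i) *ᵥ v i = 0 →
        ∑ i, act ℚ ρ' (x i) *ᵥ v' i = 0

/-- row SPEC: specialisation, one vector -/
def SSpec : Prop := ∀ (G : Type) [Group G], Group.FG G → ∀ X, Sol G X → SolA G X

/-- row SPEC -/
def SF1 : Prop := ∀ (G : Type) [Group G], Group.FG G → W1 G →
  ∀ B : Subgroup G, Module.Finite ℝ (Additive B →+ ℝ)

/-- row MEAS: the lemma of Furstenberg over a locally compact field -/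
def SMeas : Prop := ∀ (k : Type) [NontriviallyNormedField k] [ProperSpace k] (G : Type) [Group G],
  Amen G → ∀ (n : ℕ) (ρ : G →* Matrix (Fin n) (Fin n) k), SIr ρ →
    ∃ c : ℝ, 0 < c ∧ ∀ g i j, c * ‖ρ g i j‖ ^ n ≤ ‖(ρ g).det‖

/-- row FURST -/
def SFurst : Prop := ∀ (G : Type) [Group G], (∀ K : Subgroup G, Amen K) →
  ∀ (n : ℕ) (ρ : G →* Matrix (Fin n) (Fin n) ℂ) (y : G) (v : Fin n → ℂ) (c : ℂ),
    v ≠ 0 → 1 < ‖c‖ → ρ y *ᵥ v = c • v → Det y

/-- row FURST -/
def SVrc : Prop := ∀ (G : Type) [Group G], Group.FG G → HW G → ∀ y : G, ¬ IsOfFinOrder y → Det y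

/-- row TOR -/
def STor : Prop := ∀ (G : Type) [Group G], Group.FG G → W1 G → (∀ g : G, IsOfFinOrder g) →
  Finite G

/-- row RANK: idempotents of small trace -/
def SRank : Prop := ∀ (G : Type) [Group G] (X : Subgroup G), Finite X →
  ∀ T : Finset (MonoidAlgebra ℚ G), (∀ e ∈ T, e * e = e ∧ ∀ g ∈ e.coeff.support, g ∈ X) →
    ∑ e ∈ T, e.coeff 1 < 1 → Ideal.span (↑T : Set (MonoidAlgebra ℚ G)) ≠ ⊤

/-- row RANK -/
def ST1 : Prop := ∀ (G : Type) [Group G], W1 G → (∀ g : G, g ∈ fc G) → VA G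

/-- row T2 -/
def ST2 : Prop := ∀ (G : Type) [Group G], W1 G → LFD G →
  ∃ D : Subgroup G, D.FiniteIndex ∧ ∀ g ∈ D, g ∈ fc G

/-- the combination of T1 and T2 (in Base) -/
def ST12 : Prop := ∀ (G : Type) [Group G], HW G → LFD G → VA G

/-- row M2 -/
def SM2 : Prop := ∀ (G : Type) [Group G], Group.FG G → HW G → FinVB G → VA G

/-- row T3A: extension of injective characters -/
def SExtCh : Prop := ∀ (A : Type) [CommGroup A], Group.FG A →
  (∀ a : A, IsOfFinOrder a → a = 1) → ∀ (B : Subgroup A) (θ : B →* ℚˣ), Function.Injective θ →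
    ∃ (m : ℕ) (Θ : A →* ℚˣ), 0 < m ∧ Function.Injective Θ ∧
      ∀ (a : A) (h : a ^ m ∈ B), Θ a = θ ⟨a ^ m, h⟩

/-- row T3S: the step of the chain -/
def SStep : Prop := ∀ (G : Type) [Group G] (s : St G) (H' : Subgroup G), s.H ≤ H' → H'.FG →
  VA H' → ∃ s' : St G, s'.H = H' ∧ s.ann ⊆ s'.ann

/-- row T3B: the bound in a finite dimensional solution -/
def SBound : Prop := ∀ (G : Type) [Group G] (s : St G) (K : Type) [Field K] [CharZero K] (n : ℕ)
  (ρ : G →* Matrix (Fin n) (Fin n) K) (v : Fin n → K), v ≠ 0 →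
    (∀ x ∈ s.ann, act ℚ ρ x *ᵥ v = 0) → ∀ P : Finset G, (∀ g ∈ P, g ∈ s.H) →
    (∀ g ∈ P, ∀ g' ∈ P, g ≠ g' → ∃ x ∈ s.H, ∀ m : ℕ, 0 < m →
      g⁻¹ * g' * x ^ m ≠ x ^ m * (g⁻¹ * g')) → P.card ≤ n

/-- row T3C -/
def ST3 : Prop := ∀ (G : Type) [Group G], W1 G → LVA G →
  ∃ D : Subgroup G, D.FiniteIndex ∧ ∀ g ∈ D, g ∈ gs G

/-- row LOC -/
def SLoc : Prop := ∀ (G : Type) [Group G], HW G → LVA G → VA G

/-- row EXT -/
def SExt : Prop := ∀ (G : Type) [Group G] (N : Subgroup G) [N.Normal], HW G → VA N →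
  VA (G ⧸ N) → VA G

/-- row EXT -/
def SEA : Prop := ∀ (G : Type) [Group G], EA G → HW G → VA G

/-- row CONV -/
def SConv : Prop := ∀ (F G : Type) [Field F] [Group G], VA G → PropZ F G

/-- row BURN: the theorem of Burnside, after extension of scalars -/
def SBurn : Prop := ∀ (G : Type) [Group G] (n : ℕ) (ρ : G →* Matrix (Fin n) (Fin n) Qb), SIr ρ →
  ∀ (k : Type) [Field k] (σ : Qb →+* k), Spans (σ.mapMatrix.toMonoidHom.comp ρ)

/-- row BURN: the lemma of Furstenberg at the finite places -/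
def SPad : Prop := ∀ (p : ℕ) [Fact p.Prime] (G : Type) [Group G], Group.FG G → Amen G →
  ∀ (n : ℕ) (ρ : G →* Matrix (Fin n) (Fin n) (PadicAlgCl p)), Spans ρ →
    ∃ c : ℝ, 0 < c ∧ ∀ g i j, c * ‖ρ g i j‖ ^ n ≤ ‖(ρ g).det‖

/-- row IRR -/
def SIrr : Prop := ∀ (G : Type) [Group G], Group.FG G → Amen G →
  ∀ (n : ℕ) (ρ : G →* Matrix (Fin n) (Fin n) Qb), SIr ρ →
    ∀ g : G, ∃ (m : ℕ) (c : Qb), 0 < m ∧ ρ (g ^ m) = c • (1 : Matrix (Fin n) (Fin n) Qb)

/-- row LIN -/
def SLin : Prop := ∀ (G : Type) [Group G], Group.FG G → HW G →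
  ∀ (n : ℕ) (ρ : G →* Matrix (Fin n) (Fin n) Qb), VA (G ⧸ ρ.ker)

/-- row ENG: proper subgroups lie in proper subgroups of finite index -/
def SEng : Prop := ∀ (G : Type) [Group G], Group.FG G → HW G →
  ∀ C : Subgroup G, C ≠ ⊤ → ∃ D : Subgroup G, C ≤ D ∧ D ≠ ⊤ ∧ D.FiniteIndex

/-- row ENG: residual finiteness -/
def SRes : Prop := ∀ (G : Type) [Group G], Group.FG G → HW G →
  ∀ g : G, g ≠ 1 → ∃ D : Subgroup G, D.FiniteIndex ∧ g ∉ D

/-- row NOETH -/
def SNoeth : Prop := ∀ (G : Type) [Group G], Group.FG G → HW G → ∀ B : Subgroup G, B.FG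

end Pool.Agent.MP_6a4325_al.H62
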