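import Pool.Agent.MP_6a4325_al.H62.Defs2
import Pool.Agent.MP_6a4325_al.H62.Spec

/-!
Auxiliary notions and the statements of the steps for soluble groups in positive characteristic
(see the plan file `MP_6a4325_H62_plan2.md` in the team store).
-/

set_option autoImplicit false

namespace Pool.Agent.MP_6a4325_al.H62

open Matrix

section Notions

variable {G : Type} [Group G]

/-- the elements of `H` commute with the elements of `K` -/
def Cm (H K : Subgroup G) : Prop := ∀ a ∈ H, ∀ b ∈ K, a * b = b * a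

/-- `K` normalises `H` -/
def Nz (H K : Subgroup G) : Prop := ∀ k ∈ K, ∀ h ∈ H, k * h * k⁻¹ ∈ H

/-- torsion free -/
def Tf (B : Subgroup G) : Prop := ∀ b ∈ B, IsOfFinOrder b → b = 1

/-- no element of order `p` -/
def NoPT (p : ℕ) (B : Subgroup G) : Prop := ∀ b ∈ B, b ^ p = 1 → b = 1

/-- a power of `x` with exponent prime to `p` lies in `B` -/
def PrimeTo (p : ℕ) (B : Subgroup G) (x : G) : Prop := ∃ m : ℕ, 0 < m ∧ m.Coprime p ∧ x ^ m ∈ B

/-- one step of a series with cyclic factors -/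
def Cyc (H K : Subgroup G) : Prop := H ≤ K ∧ Nz H K ∧ ∃ t ∈ K, K = H ⊔ Subgroup.zpowers t

/-- a series with cyclic factors, at most `n` of them infinite -/
inductive PCr : ℕ → Subgroup G → Subgroup G → Prop
  | refl (n : ℕ) (H : Subgroup G) : PCr n H H
  | fin {n : ℕ} {H K K' : Subgroup G} : PCr n H K → Cyc K K' → K.relIndex K' ≠ 0 → PCr n H K'
  | inf {n : ℕ} {H K K' : Subgroup G} : PCr n H K → Cyc K K' → PCr (n + 1) H K'

/-- the series with a finiteness flag -/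
def Rel (p : ℕ) (lva : Prop) (H K : Subgroup G) : Prop := Ser p H K ∧ (lva → H.relIndex K ≠ 0)

/-- a finitely generated subgroup of finite index in all finitely generated overgroups -/
def Big (Γ : Subgroup G) : Prop := Γ.FG ∧ ∀ H : Subgroup G, H.FG → Γ ≤ H → Γ.relIndex H ≠ 0

/-- a function that is a character on `B` -/
def IsCh {K : Type} [Field K] (B : Subgroup G) (ψ : G → K) : Prop :=
  ψ 1 = 1 ∧ ∀ a ∈ B, ∀ b ∈ B, ψ (a * b) = ψ a * ψ b

/-- supported in `B` -/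
def Supp {F : Type} [Field F] (B : Subgroup G) (x : MonoidAlgebra F G) : Prop :=
  ∀ g ∈ x.coeff.support, g ∈ B

/-- the value of the conjugate of `x` by `g` at a character -/
noncomputable def evc {F K : Type} [Field F] [Field K] [Algebra F K] (ψ : G → K) (g : G)
    (x : MonoidAlgebra F G) : K :=
  x.coeff.sum fun a c => c • ψ (g * a * g⁻¹)

/-- the orbit of the character is finite -/
def FinO {K : Type} [Field K] (B : Subgroup G) (ψ : G → K) : Prop :=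
  ∃ N : Subgroup G, N.FiniteIndex ∧ ∀ g ∈ N, ∀ b ∈ B, ψ (g * b * g⁻¹) = ψ b

/-- the subgroup generated by the commutators of `g` with the elements of `B` -/
def cm (B : Subgroup G) (g : G) : Subgroup G :=
  Subgroup.closure {c | ∃ b ∈ B, c = g * b * g⁻¹ * b⁻¹}

/-- finitely generated up to `p`-th roots, inside `B` -/
def Small (p : ℕ) (B X : Subgroup G) : Prop :=
  ∃ T : Finset G, (∀ t ∈ T, t ∈ B) ∧ ∀ x ∈ X, ∃ j : ℕ, x ^ p ^ j ∈ Subgroup.closure (↑T : Set G)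

/-- a plinth -/
def Plinth (A : Subgroup G) : Prop :=
  A.Normal ∧ A ≠ ⊥ ∧ A.FG ∧ Cm A A ∧ Tf A ∧
    ∀ K : Subgroup G, K.FiniteIndex → ∀ B : Subgroup G, B ≤ A → Nz B K →
      B = ⊥ ∨ B.relIndex A ≠ 0

/-- the group acts on `A` through a commutative group -/
def CommAct (A : Subgroup G) : Prop :=
  ∀ g h : G, ∀ a ∈ A, g * h * a * (g * h)⁻¹ = h * g * a * (h * g)⁻¹

variable {k M : Type} [Field k] [AddCommGroup M] [Module k M]

/-- an invariant subspace -/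
def Inv (ρ : Representation k G M) (U : Submodule k M) : Prop := ∀ g, ∀ u ∈ U, ρ g u ∈ U

/-- irreducible -/
def Irr (ρ : Representation k G M) : Prop :=
  Nontrivial M ∧ ∀ U : Submodule k M, Inv ρ U → U = ⊥ ∨ U = ⊤

/-- the invariant subspace generated by a set -/
def gen (ρ : Representation k G M) (T : Set M) : Submodule k M :=
  Submodule.span k {x | ∃ g, ∃ t ∈ T, x = ρ g t}

/-- multiplication of a subspace by the augmentation ideal of `E` -/
def aug (ρ : Representation k G M) (E : Subgroup G) (U : Submodule k M) : Submodule k M :=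
  Submodule.span k {x | ∃ a ∈ E, ∃ u ∈ U, x = ρ a u - u}

/-- invariant under a subgroup -/
def InvS (ρ : Representation k G M) (H : Subgroup G) (U : Submodule k M) : Prop :=
  ∀ g ∈ H, ∀ u ∈ U, ρ g u ∈ U

/-- the subspace generated by a set under a subgroup -/
def genS (ρ : Representation k G M) (H : Subgroup G) (T : Set M) : Submodule k M :=
  Submodule.span k {x | ∃ g ∈ H, ∃ t ∈ T, x = ρ g t}

/-- multiplication of a subspace by the maximal ideal of a character of `A` -/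
def mps (ρ : Representation k G M) (A : Subgroup G) (ψ : G → k) (U : Submodule k M) :
    Submodule k M :=
  Submodule.span k {x | ∃ a ∈ A, ∃ u ∈ U, x = ρ a u - ψ a • u}

/-- `V'` is pure in `V` at the character, and the quotient is torsion if it is divisible -/
def Good (ρ : Representation k G M) (A : Subgroup G) (ψ : G → k) (V' V : Submodule k M) : Prop :=
  V' ⊓ mps ρ A ψ V ≤ mps ρ A ψ V' ∧ (V ≤ V' ⊔ mps ρ A ψ V → ∀ u ∈ V,
    ∃ x : MonoidAlgebra k G, x ≠ 0 ∧ Supp A x ∧ ρ.asAlgebraHom x u ∈ V')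

/-- the version of `Good` that is stable under enlarging both subspaces -/
def StepH (ρ : Representation k G M) (A : Subgroup G) (ψ : G → k) (K U : Submodule k M) : Prop :=
  ∀ X : Submodule k M, InvS ρ A X → X ⊓ U ≤ K → Good ρ A ψ (X ⊔ K) (X ⊔ U)

end Notions

/-- polycyclic of Hirsch length at most `n` -/
def PC (n : ℕ) (G : Type) [Group G] : Prop := PCr n (⊥ : Subgroup G) ⊤

/-- polycyclic -/
def Poly (G : Type) [Group G] : Prop := ∃ n, PC n G

/-- all irreducible representations are finite dimensional -/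
def FD (k G : Type) [Field k] [Group G] : Prop :=
  ∀ (M : Type) [AddCommGroup M] [Module k M] (ρ : Representation k G M), Irr ρ →
    FiniteDimensional k M

/-- the algebraic closure of the prime field -/
abbrev Kp (p : ℕ) [Fact p.Prime] : Type := AlgebraicClosure (ZMod p)

/-- all characters of `B` in the algebraic closure of the prime field have finite orbits -/
def FinOrb (p : ℕ) [Fact p.Prime] {G : Type} [Group G] (B : Subgroup G) : Prop :=
  ∀ ψ : G → Kp p, IsCh B ψ → FinO B ψ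

/-- no nontrivial normal `p`-subgroup -/
def NoP (p : ℕ) (G : Type) [Group G] : Prop :=
  ∀ S : Subgroup G, S.Normal → IsPGroup p S → S = ⊥

/-- the standing hypothesis of the structure theorem -/
def Hyp (p : ℕ) [Fact p.Prime] (lva : Prop) (G : Type) [Group G] : Prop :=
  Group.IsSolvable G ∧ W (ZMod p) G ∧ (lva → LVA G)

/-- the conclusion of the structure theorem -/
def CB (p : ℕ) (lva : Prop) (G : Type) [Group G] : Prop :=
  ∃ N S Z : Subgroup G, N.FiniteIndex ∧ S ≤ Z ∧ Z ≤ N ∧ Nz S N ∧ IsPGroup p S ∧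
    (∀ z ∈ Z, ∀ g ∈ N, z * g * z⁻¹ * g⁻¹ ∈ S) ∧ Rel p lva Z N

/-- the conclusion holds for all sections on which `B` acts trivially -/
def IHy (p : ℕ) (lva : Prop) {G : Type} [Group G] (B : Subgroup G) : Prop :=
  ∀ (K : Subgroup G) (Q : Type) [Group Q] (f : K →* Q), Function.Surjective f →
    (∀ x : K, (x : G) ∈ B → f x = 1) → CB p lva Q

/-- torsion free abelian normal subgroups of sections have centralisers of finite index -/
def GenC (H : Type) [Group H] : Prop :=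
  ∀ (K : Subgroup H) (Q : Type) [Group Q] (f : K →* Q), Function.Surjective f →
    ∀ A : Subgroup Q, A.Normal → A.FG → Cm A A → Tf A →
      (Subgroup.centralizer (A : Set Q)).FiniteIndex

/-- the class of groups for the sufficiency part -/
def Cl (p : ℕ) {G : Type} [Group G] (Z : Subgroup G) : Prop :=
  Group.IsSolvable G ∧ LocNoeth G ∧ (∃ Γ : Subgroup G, Big Γ) ∧ Cm Z ⊤ ∧ Ser p Z ⊤

/-! ### interfaces -/

/-- row PCA -/
structure PCA : Prop where
  sub : ∀ (n : ℕ) (G H : Type) [Group G] [Group H] (f : H →* G), Function.Injective f →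
    PC n G → PC n H
  subInf : ∀ (n : ℕ) (G : Type) [Group G] (K : Subgroup G), K.index = 0 → PC n G →
    ∃ m, m < n ∧ PC m K
  quot : ∀ (n : ℕ) (G Q : Type) [Group G] [Group Q] (f : G →* Q), Function.Surjective f →
    PC n G → PC n Q
  quotInf : ∀ (n : ℕ) (G Q : Type) [Group G] [Group Q] (f : G →* Q), Function.Surjective f →
    Infinite f.ker → PC n G → ∃ m, m < n ∧ PC m Q
  rel : ∀ (n : ℕ) (G : Type) [Group G] (A : Subgroup G), A.Normal → PC n G → PCr n A ⊤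

/-- row PCB -/
structure PCApi : Prop extends PCA where
  fg : ∀ (G : Type) [Group G], Poly G → ∀ K : Subgroup G, K.FG
  solv : ∀ (G : Type) [Group G], Poly G → Group.IsSolvable G
  ofSolv : ∀ (G : Type) [Group G], Group.IsSolvable G → (∀ K : Subgroup G, K.FG) → Poly G
  loc : ∀ (G : Type) [Group G], Group.IsSolvable G → LocNoeth G → ∀ H : Subgroup G, H.FG → Poly H

/-- row SERB -/
structure SerB (p : ℕ) : Prop where
  fin : ∀ (G : Type) [Group G] (H K : Subgroup G), Group.IsSolvable G → H ≤ K → Nz H K →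
    H.relIndex K ≠ 0 → Ser p H K
  fgab : ∀ (G : Type) [Group G] (H K : Subgroup G) (T : Finset G), H ≤ K →
    (∀ x ∈ K, ∀ y ∈ K, x * y * x⁻¹ * y⁻¹ ∈ H) → K = Subgroup.closure (↑T : Set G) ⊔ H →
    Ser p H K
  ab : ∀ (G : Type) [Group G] (H K : Subgroup G) (T : Finset G), H ≤ K →
    (∀ x ∈ K, ∀ y ∈ K, x * y * x⁻¹ * y⁻¹ ∈ H) → (∀ x ∈ K, x ^ p ∈ H → x ∈ H) →
    (∀ t ∈ T, t ∈ K) → (∀ x ∈ K, ∃ j : ℕ, x ^ p ^ j ∈ Subgroup.closure (↑T : Set G) ⊔ H) →
    Ser p H K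

/-- row SERA -/
structure SerApi (p : ℕ) : Prop extends SerB p where
  le : ∀ (G : Type) [Group G] (H K : Subgroup G), Ser p H K → H ≤ K
  comap : ∀ (G G' : Type) [Group G] [Group G'] (f : G' →* G) (H K : Subgroup G), Ser p H K →
    Ser p (H.comap f) (K.comap f)
  map : ∀ (G G' : Type) [Group G] [Group G'] (f : G →* G') (H K : Subgroup G), Ser p H K →
    Ser p (H.map f) (K.map f)
  inf : ∀ (G : Type) [Group G] (H K L : Subgroup G), Ser p H K → Ser p (H ⊓ L) (K ⊓ L)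
  up : ∀ (G : Type) [Group G] (H H' K : Subgroup G), H ≤ H' → H' ≤ K → Nz H' K → Ser p H K →
    Ser p H' K
  hom : ∀ (G Q : Type) [Group G] [Group Q] (H K : Subgroup G) (f : K →* Q) (B : Subgroup Q),
    H ≤ K → (∀ x : K, f x = 1 ↔ (x : G) ∈ H) → (∀ x, f x ∈ B) → Ser p ⊥ B → Ser p H K
  iInf : ∀ (G ι : Type) [Group G] (s : Finset ι) (H : ι → Subgroup G) (K : Subgroup G),
    (∀ i ∈ s, Ser p (H i) K) → Ser p (K ⊓ ⨅ i ∈ s, H i) K
  step : ∀ (G : Type) [Group G] (H K : Subgroup G), Fac p H K → H ≤ K ∧ Nz H K ∧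
    ((∃ t ∈ K, K = H ⊔ Subgroup.zpowers t) ∨
      ((∀ x ∈ K, ∃ j : ℕ, x ^ p ^ j ∈ H) ∧
        ∀ x ∈ K, ∀ n : ℕ, 0 < n → ∃ y ∈ K, x⁻¹ * y ^ n ∈ H))

/-- row REL: the same for the flagged series, and the transfer of the conclusion -/
structure RelApi (p : ℕ) (lva : Prop) : Prop where
  refl : ∀ (G : Type) [Group G] (H : Subgroup G), Rel p lva H H
  trans : ∀ (G : Type) [Group G] (H K L : Subgroup G), Rel p lva H K → Rel p lva K L →
    Rel p lva H L
  comap : ∀ (G G' : Type) [Group G] [Group G'] (f : G' →* G) (H K : Subgroup G),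
    Rel p lva H K → Rel p lva (H.comap f) (K.comap f)
  map : ∀ (G G' : Type) [Group G] [Group G'] (f : G →* G') (H K : Subgroup G),
    Rel p lva H K → Rel p lva (H.map f) (K.map f)
  inf : ∀ (G : Type) [Group G] (H K L : Subgroup G), Rel p lva H K → Rel p lva (H ⊓ L) (K ⊓ L)
  up : ∀ (G : Type) [Group G] (H H' K : Subgroup G), H ≤ H' → H' ≤ K → Nz H' K →
    Rel p lva H K → Rel p lva H' K
  fin : ∀ (G : Type) [Group G] (H K : Subgroup G), Group.IsSolvable G → H ≤ K → Nz H K →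
    H.relIndex K ≠ 0 → Rel p lva H K
  cbFin : ∀ (G : Type) [Group G] (K : Subgroup G), K.FiniteIndex → CB p lva K → CB p lva G
  cbQuot : ∀ (G Q : Type) [Group G] [Group Q] (f : G →* Q), Function.Surjective f →
    IsPGroup p f.ker → CB p lva Q → CB p lva G

/-- row CH: constructions of characters of abelian groups -/
structure ChApi (p : ℕ) (k : Type) [Field k] : Prop where
  ext : ∀ (B : Type) [CommGroup B] (C : Subgroup B) (χ : C →* kˣ),
    ∃ ψ : B →* kˣ, ∀ c : C, ψ c = χ c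
  sep : ∀ (B : Type) [CommGroup B] (D : Subgroup B) (c : B), c ∉ D → PrimeTo p D c →
    ∃ ψ : B →* kˣ, (∀ d ∈ D, ψ d = 1) ∧ ψ c ≠ 1
  one : ∀ (B : Type) [CommGroup B] (D : Subgroup B) (C : ℕ → Subgroup B),
    (∀ i, ∀ c ∈ C i, PrimeTo p D c) → (∀ i, D.relIndex (C i) = 0) →
    ∃ ψ : B →* kˣ, (∀ d ∈ D, ψ d = 1) ∧ ∀ i, ∃ c ∈ C i, ψ c ≠ 1
  two : ∀ (B : Type) [CommGroup B] (c : ℕ → B), (∀ i, c i ≠ 1 ∧ PrimeTo p ⊥ (c i)) →
    ∃ ψ : B →* kˣ, {i | ψ (c i) ≠ 1}.Infinite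
  three : ∀ (B : Type) [CommGroup B] (D C : Subgroup B), (∀ c ∈ C, PrimeTo p D c) →
    (∀ ψ : B →* kˣ, (ψ '' (C : Set B)).Finite) → ∃ m : ℕ, 0 < m ∧ ∀ c ∈ C, c ^ m ∈ D

/-- row HOM: homomorphisms into the units of an absolute field, and cocycles -/
structure HomApi (p : ℕ) (k : Type) [Field k] : Prop where
  range : ∀ (G : Type) [Group G] (H K : Subgroup G), Ser p H K → ∀ f : K →* kˣ,
    (∀ x : K, (x : G) ∈ H → f x = 1) → (Set.range f).Finite
  tors : ∀ (G : Type) [Group G] (H K : Subgroup G), Ser p H K → ∀ m : ℕ, 0 < m →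
    {f : K →* kˣ | (∀ x : K, (x : G) ∈ H → f x = 1) ∧ ∀ x, f x ^ m = 1}.Finite
  per : ∀ (G : Type) [Group G] (H K : Subgroup G), Ser p H K →
    (∀ x ∈ K, ∃ m : ℕ, 0 < m ∧ x ^ m ∈ H) →
    {f : K →* kˣ | ∀ x : K, (x : G) ∈ H → f x = 1}.Finite
  coc : ∀ (G X : Type) [Group G] [CommGroup X] (Z : Subgroup G), Ser p Z ⊤ →
    (∀ x : X, IsOfFinOrder x) → (∀ m : ℕ, 0 < m → {x : X | x ^ m = 1}.Finite) →
    (∀ x : X, x ^ p = 1 → x = 1) → ∀ (φ : G →* MulAut X) (δ : G → X),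
    (∀ g h, δ (g * h) = δ g * φ g (δ h)) → (∀ z ∈ Z, δ z = 1) → (Set.range δ).Finite

/-! ### the property `W` -/

/-- row WS -/
def SWsub : Prop := ∀ (F₀ F G : Type) [Field F₀] [Field F] [Algebra F₀ F] [Group G],
  W F G → W F₀ G

/-- row WS -/
def SFW : Prop := ∀ (k G : Type) [Field k] [Group G], FD k G → W k G

/-- row WS -/
def SWS : Prop := ∀ (p : ℕ) [Fact p.Prime] (F G Q : Type) [Field F] [CharP F p] [Group G] [Group Q]
  (f : G →* Q), Function.Surjective f → Group.IsSolvable G → LocNoeth G → IsPGroup p f.ker →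
    W F Q → W F G

/-- row WFI -/
def SWfi : Prop := ∀ (F G : Type) [Field F] [Group G] (N : Subgroup G), N.FiniteIndex →
  W F N → W F G

/-- row FI -/
def SFI : Prop := ∀ (k G : Type) [Field k] [Group G] (N : Subgroup G), N.FiniteIndex →
  FD k N → FD k G

/-- row WZ -/
def SWZ : Prop := ∀ (F G : Type) [Field F] [Group G], W F G → PropZ F G

/-! ### necessity -/

/-- row SPF: specialisation to finite images -/
def SSpecF : Prop := ∀ (p : ℕ) [Fact p.Prime] (G : Type) [Group G], Group.FG G →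
  ∀ (K : Type) [Field K] [Algebra (ZMod p) K] (n m : ℕ) (ρ : G →* Matrix (Fin n) (Fin n) K)
    (v : Fin m → Fin n → K), v ≠ 0 →
    ∃ (ρ' : G →* Matrix (Fin n) (Fin n) (Kp p)) (v' : Fin m → Fin n → Kp p), v' ≠ 0 ∧
      (Set.range ρ').Finite ∧
      ∀ x : Fin m → MonoidAlgebra (ZMod p) G, ∑ i, act (ZMod p) ρ (x i) *ᵥ v i = 0 →
        ∑ i, act (ZMod p) ρ' (x i) *ᵥ v' i = 0

/-- row HNN: no strictly ascending HNN extensions -/
def SHNN : Prop := ∀ (p : ℕ) [Fact p.Prime] (G : Type) [Group G], Group.FG G → W (ZMod p) G →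
  ∀ (E : Subgroup G) (σ : G) (T : Finset G), (∀ e ∈ E, σ * e * σ⁻¹ ∈ E) →
    E = Subgroup.closure (↑T ∪ (fun e => σ * e * σ⁻¹) '' (E : Set G)) →
    ∀ e ∈ E, σ⁻¹ * e * σ ∈ E

/-- row LN -/
def SLN : Prop := ∀ (p : ℕ) [Fact p.Prime] (G : Type) [Group G], Group.IsSolvable G →
  W (ZMod p) G → LocNoeth G

/-- row CL: admissible characters have finite orbits -/
def SCL : Prop := ∀ (F K G : Type) [Field F] [Field K] [Algebra F K] [Group G], W F G →
  ∀ B : Subgroup G, B.Normal → Cm B B → ∀ ψ : G → K, IsCh B ψ →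
    (∀ x : MonoidAlgebra F G, Supp B x → evc ψ 1 x ≠ 0 →
      ∃ y : MonoidAlgebra F G, Supp B y ∧ evc ψ 1 y * evc ψ 1 x = 1) → FinO B ψ

/-- row CL -/
def SCLt : Prop := ∀ (p : ℕ) [Fact p.Prime] (G : Type) [Group G], W (ZMod p) G →
  ∀ B : Subgroup G, B.Normal → Cm B B → FinOrb p B

/-- row GEN: generic characters in infinite rank -/
def SGenC : Prop := ∀ (p : ℕ) [Fact p.Prime] (G : Type) [Group G], W (ZMod p) G →
  ∀ B : Subgroup G, B.Normal → Cm B B → Tf B → ¬ FinRk B →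
    (Subgroup.centralizer (B : Set G)).FiniteIndex

/-- row GNA -/
def SGNA : Prop := ∀ (p : ℕ) [Fact p.Prime] (F H : Type) [Field F] [CharP F p] [Group H],
  ¬ Absolute F → W F H → GenC H

/-- row GNA -/
def SGY : Prop := ∀ (p : ℕ) [Fact p.Prime] (G : Type) [Group G], W (ZMod p) G → LocNoeth G →
  ¬ FinRk (Subgroup.center G) → ∀ H : Subgroup G, H.FG → GenC H

/-- row PV -/
def SPV : Prop := ∀ (H : Type) [Group H], Poly H → GenC H → VA H

/-- row ALT: large commutator subgroups -/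
def SOrb1 : Prop := ∀ (p : ℕ) [Fact p.Prime] (G : Type) [Group G] (B D Δ G₁ : Subgroup G),
  B.Normal → Cm B B → FinOrb p B → D ≤ B → G₁.FiniteIndex →
  (∀ g ∈ G₁, ∀ b ∈ B, PrimeTo p D (g * b * g⁻¹ * b⁻¹)) →
  (∀ g ∈ G₁, D.relIndex (cm B g) ≠ 0 → g ∈ Δ) → Δ.FiniteIndex

/-- row ALT: triangular sequences -/
def SOrb2 : Prop := ∀ (p : ℕ) [Fact p.Prime] (G : Type) [Group G] (B : Subgroup G),
  B.Normal → Cm B B → FinOrb p B → ∀ g b : ℕ → G, (∀ i, b i ∈ B) →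
  (∀ i j, i < j → g i * b j = b j * g i) →
  (∀ i, PrimeTo p ⊥ (g i * b i * (g i)⁻¹ * (b i)⁻¹)) → ∃ i, g i * b i = b i * g i

/-- row ALT: torsion commutators -/
def SALT : Prop := ∀ (p : ℕ) [Fact p.Prime] (G : Type) [Group G] (B G₁ : Subgroup G), B.Normal →
  Cm B B → FinOrb p B → G₁.FiniteIndex →
  (∀ g ∈ G₁, ∀ b ∈ B, PrimeTo p ⊥ (g * b * g⁻¹ * b⁻¹)) →
    ∃ N B₀ : Subgroup G, N.FiniteIndex ∧ B₀ ≤ B ∧ B₀.relIndex B ≠ 0 ∧ Cm B₀ N

/-- row AL0: finite rank, first step -/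
def SAL0 : Prop := ∀ (p : ℕ) [Fact p.Prime] (G : Type) [Group G] (B : Subgroup G), B.Normal →
  Cm B B → NoPT p B → FinRk B → FinOrb p B →
    ∃ (N : Subgroup G) (T : Finset G), N.FiniteIndex ∧ B ≤ N ∧ (∀ t ∈ T, t ∈ N) ∧
      (∀ g ∈ N, Small p B (cm B g)) ∧
      ∀ b ∈ B, (∀ t ∈ T, t * b = b * t) → ∀ g ∈ N, g * b = b * g

/-- row AL1: finite rank -/
def SAL1 : Prop := ∀ (p : ℕ) [Fact p.Prime] (G : Type) [Group G] (B : Subgroup G), B.Normal →
  Cm B B → NoPT p B → FinRk B → FinOrb p B →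
    ∃ N B₀ Z₀ U : Subgroup G, N.FiniteIndex ∧ B ≤ U ∧ U ≤ N ∧ B₀ ≤ B ∧ B₀.relIndex B ≠ 0 ∧
      Nz B₀ N ∧ Z₀ ≤ B₀ ∧ Cm Z₀ N ∧ (∀ b ∈ B₀, ∀ m : ℕ, 0 < m → b ^ m ∈ Z₀ → b ∈ Z₀) ∧
      (∃ T : Finset G, (∀ t ∈ T, t ∈ B₀) ∧
        ∀ b ∈ B₀, ∃ j : ℕ, b ^ p ^ j ∈ Subgroup.closure (↑T : Set G) ⊔ Z₀) ∧
      (∀ g ∈ N, g ∈ U ↔ ∀ b ∈ B₀, g * b * g⁻¹ * b⁻¹ ∈ Z₀) ∧
      Ser p (U ⊓ Subgroup.centralizer (B₀ : Set G)) U

/-- row MINK: the lemma of Minkowski -/
def SMink : Prop := ∀ (p : ℕ) [Fact p.Prime] (A L : Type) [CommGroup A] [Group L]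
  (φ : L →* MulAut A), Function.Injective φ → Tf (⊤ : Subgroup A) →
  (∃ T : Finset A, ∀ a : A, ∃ j : ℕ, a ^ p ^ j ∈ Subgroup.closure (↑T : Set A)) →
    ∃ L₁ : Subgroup L, L₁.FiniteIndex ∧ Tf L₁

/-- row DIR: abelian groups of integral automorphisms -/
def SDir : Prop := ∀ (p : ℕ) [Fact p.Prime] (A L : Type) [CommGroup A] [Group L]
  (φ : L →* MulAut A), Function.Injective φ → Tf (⊤ : Subgroup A) →
  (∃ T : Finset A, ∀ a : A, ∃ j : ℕ, a ^ p ^ j ∈ Subgroup.closure (↑T : Set A)) →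
  (∀ (g : L) (a : A), (Subgroup.closure (Set.range fun n : ℤ => φ (g ^ n) a)).FG) →
    ∀ Y : Subgroup L, Cm Y Y → Ser p ⊥ Y

/-- row AL: abelian normal subgroups -/
def SAL : Prop := ∀ (p : ℕ) [Fact p.Prime] (lva : Prop) (G : Type) [Group G] (B : Subgroup G),
  Hyp p lva G → B.Normal → Cm B B → NoPT p B → IHy p lva B →
    ∃ N B₀ : Subgroup G, N.FiniteIndex ∧ B₀ ≤ B ∧ B₀ ≤ N ∧ B₀.relIndex B ≠ 0 ∧ Nz B₀ N ∧
      Rel p lva (B₀ ⊓ Subgroup.centralizer (N : Set G)) B₀ ∧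
      Rel p lva (N ⊓ Subgroup.centralizer (B₀ : Set G)) N

/-- row NIL: groups of class two -/
def SNil2 : Prop := ∀ (p : ℕ) [Fact p.Prime] (D : Type) [Group D], W (ZMod p) D →
  (∀ x y z : D, x * y * x⁻¹ * y⁻¹ * z = z * (x * y * x⁻¹ * y⁻¹)) →
  ∀ e : ℕ, 0 < e → e.Coprime p → (∀ x y : D, (x * y * x⁻¹ * y⁻¹) ^ e = 1) → VA D

/-- row CENT -/
def SOp : Prop := ∀ (p : ℕ) [Fact p.Prime] (G : Type) [Group G],
  ∃ (S : Subgroup G) (_ : S.Normal), IsPGroup p S ∧ NoP p (G ⧸ S)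

/-- row CENT -/
def SCent : Prop := ∀ (p : ℕ) [Fact p.Prime] (G : Type) [Group G], Group.IsSolvable G → NoP p G →
  ∀ A C₁ C : Subgroup G, A.Normal → C₁.Normal → C.Normal → A ≤ C₁ → C₁ ≤ C → Cm A C →
    (∀ x ∈ C₁, ∃ j : ℕ, x ^ p ^ j ∈ A) → Cm C₁ C

/-- row CORE -/
def SCore : Prop := ∀ (p : ℕ) [Fact p.Prime] (lva : Prop) (G : Type) [Group G], Hyp p lva G →
  NoP p G → ∀ C₁ C : Subgroup G, C₁.Normal → C.Normal → C₁ ≤ C → Cm C₁ C →
    (∀ c ∈ C, ∀ g : G, c * g * c⁻¹ * g⁻¹ ∈ C₁) → IHy p lva C₁ →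
    ∃ N Z : Subgroup G, N.FiniteIndex ∧ Z ≤ C ⊓ N ∧ Cm Z N ∧ Rel p lva Z (C ⊓ N)

/-- row IND: the structure theorem -/
def SInd : Prop := ∀ (p : ℕ) [Fact p.Prime] (lva : Prop) (G : Type) [Group G], Hyp p lva G →
  CB p lva G

/-! ### sufficiency -/

/-- row SKEW: the basis theorem for normalising units -/
def SSkew : Prop := ∀ (S : Type) [Ring S] (R : Subring S) (x : Sˣ), IsNoetherianRing R →
  (∀ r ∈ R, (x : S) * r * (x⁻¹ : Sˣ) ∈ R) → (∀ r ∈ R, ((x⁻¹ : Sˣ) : S) * r * x ∈ R) →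
    IsNoetherianRing (Subring.closure ((R : Set S) ∪ {(x : S), ((x⁻¹ : Sˣ) : S)}))

/-- row SKEW -/
def SNoe : Prop := ∀ (k G : Type) [Field k] [Group G], Poly G →
  IsNoetherianRing (MonoidAlgebra k G)

/-- row AR: the Artin-Rees property -/
def SAR : Prop := ∀ (k G M : Type) [Field k] [Group G] [AddCommGroup M] [Module k M]
  (ρ : Representation k G M), Poly G → ∀ E : Subgroup G, E.Normal → Cm E E →
  ∀ (T : Finset M) (V₀ : Submodule k M), Inv ρ V₀ → V₀ ≤ gen ρ ↑T →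
    ∃ n : ℕ, V₀ ⊓ (aug ρ E)^[n] (gen ρ ↑T) ≤ aug ρ E V₀

/-- row PL -/
def SPl0 : Prop := ∀ (G : Type) [Group G], Poly G → Infinite G →
  ∃ A : Subgroup G, A.Normal ∧ A ≠ ⊥ ∧ Cm A A ∧ Tf A

/-- row PL -/
def SPl : Prop := ∀ (G : Type) [Group G], Poly G → Infinite G →
  ∃ K : Subgroup G, K.FiniteIndex ∧ ∃ A : Subgroup K, Plinth A

/-- row MAL: the theorem of Malcev for plinths -/
def SMal : Prop := ∀ (G : Type) [Group G], Group.IsSolvable G → ∀ A : Subgroup G, Plinth A →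
  ∃ K : Subgroup G, K.FiniteIndex ∧ A ≤ K ∧ Plinth (A.subgroupOf K) ∧ CommAct (A.subgroupOf K)

/-- row EMB: a `q`-adic embedding -/
def SEmb : Prop := ∀ (p : ℕ) (G : Type) [Group G] (A : Subgroup G), Plinth A → CommAct A →
  ∃ (q : ℕ) (_ : Fact q.Prime), p < q ∧ 2 < q ∧ ∃ (ι : G → ℤ_[q]) (l : G →* ℤ_[q]ˣ),
    (∀ a ∈ A, ∀ b ∈ A, ι (a * b) = ι a + ι b) ∧ (∀ a ∈ A, ι a = 0 → a = 1) ∧
    ∀ g, ∀ a ∈ A, ι (g * a * g⁻¹) = l g * ι a

/-- row THE: a character that avoids all conjugates -/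
def SThE : Prop := ∀ (p : ℕ) [Fact p.Prime] (k G : Type) [Field k] [CharP k p] [IsAlgClosed k]
  [Group G], Absolute k → ∀ A : Subgroup G, Plinth A → CommAct A →
  ∀ μ : MonoidAlgebra k G, μ ≠ 0 → Supp A μ → ∃ ψ : G → k, IsCh A ψ ∧ ∀ g, evc ψ g μ ≠ 0

/-- row BERG: the theorem of Bergman -/
def SBerg : Prop := ∀ (p : ℕ) [Fact p.Prime] (k E G : Type) [Field k] [CharP k p] [Field E]
  [Algebra k E] [Group G], Absolute k → ∀ A : Subgroup G, Plinth A →
  ∀ K : Subgroup G, K.FiniteIndex → ∀ φ : G → E, IsCh A φ →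
  ∀ x : MonoidAlgebra k G, x ≠ 0 → Supp A x → (∀ g ∈ K, evc φ g x = 0) →
    ∀ a ∈ A, IsOfFinOrder (φ a)

/-- row HALL1: the calculus of steps -/
structure HallApi {k G M : Type} [Field k] [Group G] [AddCommGroup M] [Module k M]
    (ρ : Representation k G M) (A : Subgroup G) : Prop where
  trans : ∀ (ψ : G → k) (K U V : Submodule k M), K ≤ U → U ≤ V → InvS ρ A K → InvS ρ A U →
    InvS ρ A V → StepH ρ A ψ K U → StepH ρ A ψ U V → StepH ρ A ψ K V
  union : ∀ (ψ : G → k) (V : ℕ → Submodule k M), Monotone V → (∀ n, InvS ρ A (V n)) →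
    (∀ n, StepH ρ A ψ (V n) (V (n + 1))) → StepH ρ A ψ (V 0) (⨆ n, V n)
  push : ∀ (ψ : G → k) (K U Y : Submodule k M), K ≤ U → InvS ρ A Y → Y ⊓ U ≤ K →
    StepH ρ A ψ K U → StepH ρ A ψ (Y ⊔ K) (Y ⊔ U)
  transl : ∀ (ψ : G → k) (K U : Submodule k M) (g : G), StepH ρ A ψ K U →
    StepH ρ A (fun a => ψ (g⁻¹ * a * g)) (K.map (ρ g)) (U.map (ρ g))
  base : ∀ (K : Submodule k M) (T : Finset M), InvS ρ A K →
    ∃ μ : MonoidAlgebra k G, μ ≠ 0 ∧ Supp A μ ∧ ∀ ψ : G → k, IsCh A ψ → evc ψ 1 μ ≠ 0 →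
      StepH ρ A ψ K (K ⊔ genS ρ A ↑T)
  mul : ∀ x y : MonoidAlgebra k G, Supp A x → Supp A y → x ≠ 0 → y ≠ 0 →
    x * y ≠ 0 ∧ Supp A (x * y) ∧ ∀ ψ : G → k, IsCh A ψ → ∀ g,
      evc ψ g (x * y) = evc ψ g x * evc ψ g y

/-- row HALL1 -/
def SHall1 : Prop := ∀ (k G M : Type) [Field k] [Group G] [AddCommGroup M] [Module k M]
  (ρ : Representation k G M) (A : Subgroup G), A.Normal → Cm A A → Tf A → HallApi ρ A

/-- row HALL2: generic freeness -/
def SHall : Prop := ∀ (k G M : Type) [Field k] [Group G] [AddCommGroup M] [Module k M]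
  (ρ : Representation k G M), Poly G → ∀ A : Subgroup G, A.Normal → Cm A A → Tf A →
  ∀ T : Finset M, gen ρ ↑T = ⊤ → ∀ v : M,
    (∀ x : MonoidAlgebra k G, Supp A x → ρ.asAlgebraHom x v = 0 → x = 0) →
    ∃ μ : MonoidAlgebra k G, μ ≠ 0 ∧ Supp A μ ∧ ∀ ψ : G → k, IsCh A ψ → (∀ g, evc ψ g μ ≠ 0) →
      mps ρ A ψ ⊤ ≠ ⊤

/-- row ROSE: the theorem of Roseblade -/
def SRose : Prop := ∀ (p : ℕ) [Fact p.Prime] (k G : Type) [Field k] [CharP k p] [IsAlgClosed k]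
  [Group G], Absolute k → Poly G → FD k G

/-- row BIG -/
structure BigApi (p : ℕ) : Prop where
  ex : ∀ (G : Type) [Group G] (Z : Subgroup G), LocNoeth G → Cm Z ⊤ → FinRk Z → Ser p Z ⊤ →
    ∃ Γ : Subgroup G, Big Γ
  up : ∀ (G : Type) [Group G] (Γ H : Subgroup G), Big Γ → H.FG → Γ ≤ H → Big H
  pow : ∀ (G : Type) [Group G] (Γ : Subgroup G), Big Γ → ∀ g : G, ∃ m : ℕ, 0 < m ∧ g ^ m ∈ Γ
  clSub : ∀ (G : Type) [Group G] (Z N Z' : Subgroup G), Cl p Z → Z ⊓ N ≤ Z' → Z' ≤ N → Cm Z' N →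
    Cl p (Z'.subgroupOf N)
  clQuot : ∀ (G Q : Type) [Group G] [Group Q] (f : G →* Q), Function.Surjective f →
    ∀ Z : Subgroup G, Cl p Z → Cl p (Z.map f)

/-- row KEY: the consequence of the Artin-Rees property -/
def SKey : Prop := ∀ (p : ℕ) [Fact p.Prime] (k G M : Type) [Field k] [CharP k p] [IsAlgClosed k]
  [Group G] [AddCommGroup M] [Module k M] (ρ : Representation k G M), Absolute k →
  Group.IsSolvable G → LocNoeth G → Irr ρ → ∀ Γ A : Subgroup G, Big Γ → A.Normal → Cm A A →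
    ∃ e : ℕ, 0 < e ∧ ∀ R : Subgroup G, R.Normal → R ≤ A →
      (∀ r ∈ R, ∃ (i : ℕ) (a : G), a ∈ A ∧ a ∈ Γ ∧ ρ (r ^ p ^ i) = ρ (a ^ e)) → ∀ r ∈ R, ρ r = 1

/-- row KEY: central elements act as scalars -/
def SScal : Prop := ∀ (p : ℕ) [Fact p.Prime] (k G M : Type) [Field k] [CharP k p] [IsAlgClosed k]
  [Group G] [AddCommGroup M] [Module k M] (ρ : Representation k G M), Absolute k →
  Group.IsSolvable G → LocNoeth G → (∃ Γ : Subgroup G, Big Γ) → Irr ρ →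
    ∀ z ∈ Subgroup.center G, ∃ c : k, ρ z = c • (1 : M →ₗ[k] M)

/-- row STEP -/
def SStepA : Prop := ∀ (p : ℕ) [Fact p.Prime] (k G M : Type) [Field k] [CharP k p] [IsAlgClosed k]
  [Group G] [AddCommGroup M] [Module k M] (ρ : Representation k G M), Absolute k →
  ∀ Z : Subgroup G, Cl p Z → Irr ρ → Function.Injective ρ →
    ∀ A : Subgroup G, A.Normal → Cm A A → Z ≤ A → (Subgroup.centralizer (A : Set G)).FiniteIndex

/-- row SUFF -/
def SSuff : Prop := ∀ (p : ℕ) [Fact p.Prime] (k G : Type) [Field k] [CharP k p] [IsAlgClosed k]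
  [Group G], Absolute k → ∀ Z : Subgroup G, Cl p Z → FD k G

/-- row SERB -/
def SSerB : Prop := ∀ (p : ℕ) [Fact p.Prime], SerB p

/-- row SERA -/
def SSer : Prop := ∀ (p : ℕ) [Fact p.Prime], SerApi p

/-- row REL -/
def SRel : Prop := ∀ (p : ℕ) [Fact p.Prime] (lva : Prop), RelApi p lva

/-- row CH -/
def SCh : Prop := ∀ (p : ℕ) [Fact p.Prime] (k : Type) [Field k] [CharP k p] [IsAlgClosed k],
  ChApi p k

/-- row HOM -/
def SHom : Prop := ∀ (p : ℕ) [Fact p.Prime] (k : Type) [Field k] [CharP k p], Absolute k →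
  HomApi p k

/-- row BIG -/
def SBig : Prop := ∀ (p : ℕ) [Fact p.Prime], BigApi p

end Pool.Agent.MP_6a4325_al.H62
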