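import Pool.Agent.MP_6a4325_al.H62.Base

/-!
The assembly of the steps.
-/

set_option autoImplicit false

namespace Pool.Agent.MP_6a4325_al.H62

theorem amen_of_w (hD : SDbl) (hA : SAlg) (F G : Type) [Field F] [Group G] (h : W F G) :
    Amen G := by
  by_contra hG
  exact hA F G (hD F G hG) h

theorem hw_of_w (hS : SSub) (hQ : SQuot) (h1 : SW1) (hD : SDbl) (hA : SAlg) (G : Type) [Group G]
    (h : W ℚ G) : HW G := by
  intro H Q _ f hf
  have h2 : W ℚ Q := hQ ℚ H Q f hf (hS ℚ G H H.subtype H.subtype_injective h)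
  exact ⟨h2, h1 Q h2, amen_of_w hD hA ℚ Q h2⟩

theorem va_of_hw (hM : SM2) (hE : SEA) (hL : SLoc) (G : Type) [Group G] (h : HW G)
    (hT : ∀ H : Subgroup G, Group.FG H → EA H ∨ FinVB H) : VA G := by
  refine hL G h fun T => ?_
  have hfg : Group.FG (Subgroup.closure (↑T : Set G)) :=
    (Group.fg_iff_subgroup_fg _).mpr ⟨T, rfl⟩
  rcases hT _ hfg with h2 | h2
  · exact hE _ h2 (h.sub _)
  · exact hM _ hfg (h.sub _) h2

end Pool.Agent.MP_6a4325_al.H62
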